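import Pool.Agent.H95.AEC.Defs

/-!
# AEC-CYCEXT: extracting an alternating closed sequence from a bichromatic cycle

`c` is symmetric and proper on the edges. If the darts of the cycle `p` carry at most two colours then the colours
alternate (consecutive darts, cyclically, share an end and have different other ends as the cycle has length at
least 3, so their colours differ), so the length is even, `= 2n+4`. Put `x j = p.getVert j`
(injective, `SimpleGraph.Walk.IsCycle.getVert_injOn'`); if the colour of the first dart is the forbidden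
value `bad`, start one step later (`x j = p.getVert (j+1)` for `j < 2n+3`, `x (2n+3) = p.getVert 0`, or
use the rotated function `fun j => x (j+1)`).
-/

set_option autoImplicit false

open Finset

namespace Pool.Agent.H95.AEC

theorem ce_dart {V : Type} {G : SimpleGraph V} {u v : V} (p : G.Walk u v) :
    ∀ j, j < p.length → ∃ d ∈ p.darts, d.toProd = (p.getVert j, p.getVert (j + 1)) := by
  induction p with
  | nil => intro j hj; simp at hj
  | cons h q ih =>
    intro j hj
    cases j with
    | zero =>
      refine ⟨⟨(_, _), h⟩, by simp, ?_⟩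
      simp
    | succ j =>
      obtain ⟨d, hd, he⟩ := ih j (by simpa using hj)
      refine ⟨d, by simp [hd], ?_⟩
      rw [he]
      simp

/-- the colours alternate -/
theorem ce_alt {V C : Type} [DecidableEq C] (G : SimpleGraph V) (c : V → V → C)
    (hsymm : ∀ u v, G.Adj u v → c u v = c v u)
    (hprop : ∀ u v w, G.Adj u v → G.Adj u w → v ≠ w → c u v ≠ c u w)
    (u : V) (p : G.Walk u u) (hp : p.IsCycle)
    (h3 : (p.darts.map (fun d => c d.toProd.1 d.toProd.2)).toFinset.card < 3) :
    ∃ α β : C, α ≠ β ∧ (∀ j, j < p.length → c (p.getVert j) (p.getVert (j + 1)) =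
      if j % 2 = 0 then α else β) ∧ p.length % 2 = 0 := by
  have hl3 := hp.three_le_length
  set S := (p.darts.map (fun d => c d.toProd.1 d.toProd.2)).toFinset with hS
  have hmem : ∀ j, j < p.length → c (p.getVert j) (p.getVert (j + 1)) ∈ S := by
    intro j hj
    obtain ⟨d, hd, he⟩ := ce_dart p j hj
    rw [hS, List.mem_toFinset, List.mem_map]
    exact ⟨d, hd, by rw [he]⟩
  have hadj : ∀ j, j < p.length → G.Adj (p.getVert j) (p.getVert (j + 1)) :=
    fun j hj => p.adj_getVert_succ hj
  -- consecutive colours differ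
  have hcons : ∀ j, j + 1 < p.length →
      c (p.getVert j) (p.getVert (j + 1)) ≠ c (p.getVert (j + 1)) (p.getVert (j + 2)) := by
    intro j hj
    rw [hsymm _ _ (hadj j (by omega))]
    refine hprop _ _ _ (hadj j (by omega)).symm (hadj (j + 1) hj) ?_
    have := hp.getVert_sub_one_ne_getVert_add_one (i := j + 1) (by omega)
    simpa using this
  have hcyc : c (p.getVert (p.length - 1)) (p.getVert p.length) ≠
      c (p.getVert 0) (p.getVert 1) := by
    have e1 : p.getVert p.length = u := p.getVert_length
    have e0 : p.getVert 0 = u := p.getVert_zero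
    have a1 := hadj (p.length - 1) (by omega)
    rw [show p.length - 1 + 1 = p.length by omega] at a1
    have a0 := hadj 0 (by omega)
    rw [hsymm _ _ a1]
    rw [e1] at a1 ⊢
    rw [e0] at a0 ⊢
    refine hprop _ _ _ a1.symm a0 ?_
    intro he
    have := hp.getVert_injOn' (x₁ := p.length - 1) (x₂ := 0 + 1) (by simp)
      (by simp; omega) he
    omega
  -- only two colours
  have h01 := hcons 0 (by omega)
  have htwo : ∀ j, j < p.length → c (p.getVert j) (p.getVert (j + 1)) = c (p.getVert 0) (p.getVert 1)
      ∨ c (p.getVert j) (p.getVert (j + 1)) = c (p.getVert 1) (p.getVert 2) := by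
    intro j hj
    by_contra hcon
    push Not at hcon
    have hsub : ({c (p.getVert 0) (p.getVert 1), c (p.getVert 1) (p.getVert 2),
        c (p.getVert j) (p.getVert (j + 1))} : Finset C) ⊆ S := by
      intro y hy
      simp only [Finset.mem_insert, Finset.mem_singleton] at hy
      rcases hy with rfl | rfl | rfl
      · exact hmem 0 (by omega)
      · exact hmem 1 (by omega)
      · exact hmem j hj
    have hc := Finset.card_le_card hsub
    rw [Finset.card_eq_three.2 ⟨_, _, _, h01, hcon.1.symm, hcon.2.symm, rfl⟩] at hc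
    omega
  have halt : ∀ j, j < p.length → c (p.getVert j) (p.getVert (j + 1)) =
      if j % 2 = 0 then c (p.getVert 0) (p.getVert 1) else c (p.getVert 1) (p.getVert 2) := by
    intro j
    induction j with
    | zero => intro _; simp
    | succ j ih =>
      intro hj
      have h1 := ih (by omega)
      have h2 := hcons j hj
      have h3' := htwo (j + 1) hj
      by_cases hpar : j % 2 = 0
      · rw [if_pos hpar] at h1
        rw [if_neg (by omega)]
        rcases h3' with h4 | h4
        · exact absurd (h1.trans h4.symm) h2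
        · exact h4
      · rw [if_neg hpar] at h1
        rw [if_pos (by omega)]
        rcases h3' with h4 | h4
        · exact h4
        · exact absurd (h1.trans h4.symm) h2
  refine ⟨_, _, h01, halt, ?_⟩
  by_contra hodd
  have h1 := halt (p.length - 1) (by omega)
  rw [show p.length - 1 + 1 = p.length by omega, if_pos (by omega)] at h1
  exact hcyc h1

/-- CYCEXT -/
theorem cyc_extract {V C : Type} [DecidableEq C] (G : SimpleGraph V) (c : V → V → C)
    (hsymm : ∀ u v, G.Adj u v → c u v = c v u)
    (hprop : ∀ u v w, G.Adj u v → G.Adj u w → v ≠ w → c u v ≠ c u w)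
    (u : V) (p : G.Walk u u) (hp : p.IsCycle)
    (h3 : (p.darts.map (fun d => c d.toProd.1 d.toProd.2)).toFinset.card < 3) (bad : C) :
    ∃ (n : ℕ) (x : Fin (2 * n + 4) → V) (α β : C), Function.Injective x ∧
      (∀ i, G.Adj (x i) (x (i + 1))) ∧ α ≠ β ∧ α ≠ bad ∧
      ∀ i : Fin (2 * n + 4), c (x i) (x (i + 1)) = if (i : ℕ) % 2 = 0 then α else β := by
  obtain ⟨α, β, hab, halt, hpar⟩ := ce_alt G c hsymm hprop u p hp h3
  have hl3 := hp.three_le_length
  obtain ⟨n, hn⟩ : ∃ n, p.length = 2 * n + 4 := ⟨(p.length - 4) / 2, by omega⟩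
  have hsucc : ∀ i : Fin (2 * n + 4), p.getVert ((i + 1 : Fin (2 * n + 4)) : ℕ)
      = p.getVert ((i : ℕ) + 1) := by
    intro i
    by_cases hi : (i : ℕ) + 1 < 2 * n + 4
    · rw [Fin.val_add_one_of_lt' hi]
    · have h1 : (i : ℕ) + 1 = 2 * n + 4 := by omega
      have h2 : ((i + 1 : Fin (2 * n + 4)) : ℕ) = 0 := by
        rw [Fin.val_add, Fin.val_one, h1, Nat.mod_self]
      rw [h2, h1, ← hn, p.getVert_length, p.getVert_zero]
  have hpars : ∀ i : Fin (2 * n + 4), (((i + 1 : Fin (2 * n + 4)) : ℕ)) % 2 = ((i : ℕ) + 1) % 2 := by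
    intro i
    by_cases hi : (i : ℕ) + 1 < 2 * n + 4
    · rw [Fin.val_add_one_of_lt' hi]
    · have h1 : (i : ℕ) + 1 = 2 * n + 4 := by omega
      have h2 : ((i + 1 : Fin (2 * n + 4)) : ℕ) = 0 := by
        rw [Fin.val_add, Fin.val_one, h1, Nat.mod_self]
      rw [h2, h1]
      omega
  have hxinj : Function.Injective (fun i : Fin (2 * n + 4) => p.getVert (i : ℕ)) := by
    intro i j hij
    have := hp.getVert_injOn' (x₁ := (i : ℕ)) (x₂ := (j : ℕ))
      (by simp only [Set.mem_ofPred_eq]; omega) (by simp only [Set.mem_ofPred_eq]; omega) hij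
    exact Fin.ext this
  have hxadj : ∀ i : Fin (2 * n + 4), G.Adj (p.getVert (i : ℕ))
      (p.getVert ((i + 1 : Fin (2 * n + 4)) : ℕ)) := by
    intro i
    rw [hsucc i]
    exact p.adj_getVert_succ (by omega)
  have hxcol : ∀ i : Fin (2 * n + 4), c (p.getVert (i : ℕ))
      (p.getVert ((i + 1 : Fin (2 * n + 4)) : ℕ)) = if (i : ℕ) % 2 = 0 then α else β := by
    intro i
    rw [hsucc i]
    exact halt i (by omega)
  by_cases hbad : α = bad
  · refine ⟨n, fun i => p.getVert ((i + 1 : Fin (2 * n + 4)) : ℕ), β, α, ?_, ?_, hab.symm, ?_, ?_⟩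
    · intro i j hij
      exact add_right_cancel (hxinj hij)
    · intro i
      exact hxadj (i + 1)
    · rw [← hbad]; exact hab.symm
    · intro i
      have h1 := hxcol (i + 1)
      simp only
      rw [h1, hpars i]
      by_cases hi : (i : ℕ) % 2 = 0
      · rw [if_pos hi, if_neg (by omega)]
      · rw [if_neg hi, if_pos (by omega)]
  · exact ⟨n, fun i => p.getVert (i : ℕ), α, β, hxinj, hxadj, hab, hbad, hxcol⟩

end Pool.Agent.H95.AEC
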