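import Pool.Agent.H95.AEC.Defs

/-!
# AEC-CODES: the number of codes of a pattern

`γ` is determined by its values on `S \ C.image Prod.fst`: if two codes agree there, then they agree on
`C.image Prod.fst` by strong induction on `rk`: `γ p.1 = γ p.2` and either `p.2` is not in the image or `p.2 = p'.1` and
`rk p.2 < rk p.1` by `dec`. Also `(C.image Prod.fst).card = C.card` by `inj`, and `C.image Prod.fst ⊆ S`. So the number is at most
`K ^ (|S| - |C|)`.
-/

set_option autoImplicit false

open Finset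

namespace Pool.Agent.H95.AEC

open Classical in
/-- (1): the number of codes of a pattern -/
theorem card_codes {V : Type} [Fintype V] {G : SimpleGraph V} {K : ℕ} (hK : 0 < K) (P : DPat G)
    (c₀ : Fin K) :
    (Nat.card {γ : V × V → Fin K // (∀ x, x ∉ P.S → γ x = c₀) ∧ ∀ p ∈ P.C, γ p.1 = γ p.2} : ℝ) ≤
      (K : ℝ) ^ P.S.card / (K : ℝ) ^ P.C.card := by
  have hinj : Set.InjOn Prod.fst (P.C : Set ((V × V) × (V × V))) := by
    intro p hp p' hp' h
    exact P.inj p hp p' hp' h
  have hDcard : (P.C.image Prod.fst).card = P.C.card := card_image_of_injOn hinj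
  have hDS : P.C.image Prod.fst ⊆ P.S := by
    intro x hx
    obtain ⟨p, hp, rfl⟩ := mem_image.mp hx
    exact P.mem₁ p hp
  set D := P.C.image Prod.fst with hD
  let f : {γ : V × V → Fin K // (∀ x, x ∉ P.S → γ x = c₀) ∧ ∀ p ∈ P.C, γ p.1 = γ p.2} →
      ({x // x ∈ P.S \ D} → Fin K) := fun γ x => γ.1 x.1
  have hf : Function.Injective f := by
    intro γ γ' h
    have h1 : ∀ x, x ∈ P.S → x ∉ D → γ.1 x = γ'.1 x := by
      intro x hx hx'
      exact congrFun h ⟨x, mem_sdiff.mpr ⟨hx, hx'⟩⟩
    have h2 : ∀ m x, P.rk x = m → x ∈ D → γ.1 x = γ'.1 x := by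
      intro m
      induction m using Nat.strong_induction_on with
      | _ m ih =>
        intro x hm hx
        obtain ⟨p, hp, rfl⟩ := mem_image.mp hx
        rw [γ.2.2 p hp, γ'.2.2 p hp]
        by_cases h3 : p.2 ∈ D
        · obtain ⟨p', hp', h4⟩ := mem_image.mp h3
          have h5 := P.dec p hp p' hp' h4.symm
          exact ih (P.rk p.2) (by omega) p.2 rfl h3
        · exact h1 p.2 (P.mem₂ p hp) h3
    apply Subtype.ext
    funext x
    by_cases hx : x ∈ P.S
    · by_cases hx' : x ∈ D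
      · exact h2 _ x rfl hx'
      · exact h1 x hx hx'
    · rw [γ.2.1 x hx, γ'.2.1 x hx]
  have h3 : Nat.card {γ : V × V → Fin K // (∀ x, x ∉ P.S → γ x = c₀) ∧ ∀ p ∈ P.C, γ p.1 = γ p.2} ≤
      K ^ (P.S.card - P.C.card) := by
    refine le_trans (Nat.card_le_card_of_injective f hf) (le_of_eq ?_)
    rw [Nat.card_fun, Nat.card_eq_fintype_card, Nat.card_eq_fintype_card, Fintype.card_coe,
      Fintype.card_fin, card_sdiff_of_subset hDS, hDcard]
  have h4 : P.C.card ≤ P.S.card := by
    rw [← hDcard]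
    exact card_le_card hDS
  have hK' : (0 : ℝ) < K := by exact_mod_cast hK
  rw [le_div_iff₀ (by positivity)]
  have h5 : (K : ℝ) ^ P.S.card = (K : ℝ) ^ (P.S.card - P.C.card) * (K : ℝ) ^ P.C.card := by
    rw [← pow_add, Nat.sub_add_cancel h4]
  rw [h5]
  refine mul_le_mul_of_nonneg_right ?_ (by positivity)
  exact_mod_cast h3

end Pool.Agent.H95.AEC
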