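import Pool.Agent.H95.AEC.Defs

/-!
# AEC: small families of patterns
-/

set_option autoImplicit false

open Finset

namespace Pool.Agent.H95.AEC

open Classical in
/-- `Φ` is guaranteed by a family of patterns of small total weight -/
def SmallFam {V : Type} (G : SimpleGraph V) (K : ℕ) (Φ : (V → V → Fin K) → Prop) : Prop :=
  ∃ (ι : Type) (_ : Fintype ι) (P : ι → DPat G),
    (∀ x : V × V, ∑ i with x ∈ (P i).S, (P i).wt K ≤ 1 / 64) ∧
    ∀ q : V → V → Fin K, (∀ v u w, G.Adj v u → G.Adj v w → q v u = q v w → u = w) →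
      (∀ i, ∃ p ∈ (P i).C, q p.1.1 p.1.2 ≠ q p.2.1 p.2.2) → Φ q

/-- the standing hypotheses -/
structure Hyp {V : Type} [Fintype V] (G : SimpleGraph V) (r : V → ℕ) (k K : ℕ) : Prop where
  hr : Function.Injective r
  up : ∀ v, Nat.card {a // Up G r v a} ≤ k
  deg : ∀ v, Nat.card {a // G.Adj v a} ≤ K
  one : 1 ≤ k
  big : 10 ^ 20 * k ^ 2 ≤ K

open Classical in
theorem Hyp.up' {V : Type} [Fintype V] {G : SimpleGraph V} {r : V → ℕ} {k K : ℕ}
    (h : Hyp G r k K) (v : V) : (univ.filter (fun a => Up G r v a)).card ≤ k := by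
  have := h.up v
  rwa [Nat.card_eq_fintype_card, Fintype.card_subtype] at this

open Classical in
theorem Hyp.deg' {V : Type} [Fintype V] {G : SimpleGraph V} {r : V → ℕ} {k K : ℕ}
    (h : Hyp G r k K) (v : V) : (univ.filter (fun a => G.Adj v a)).card ≤ K := by
  have := h.deg v
  rwa [Nat.card_eq_fintype_card, Fintype.card_subtype] at this

open Classical in
theorem Hyp.down' {V : Type} [Fintype V] {G : SimpleGraph V} {r : V → ℕ} {k K : ℕ}
    (h : Hyp G r k K) (v : V) : (univ.filter (fun w => Up G r w v)).card ≤ K := by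
  refine le_trans (card_le_card ?_) (h.deg' v)
  intro w hw
  simp only [mem_filter, mem_univ, true_and] at hw ⊢
  exact hw.1.symm

end Pool.Agent.H95.AEC
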