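import Pool.Agent.H95.AEC.GCrit
import Pool.Agent.H95.AEC.Fam

/-!
# AEC-COMBINE: eight small families can be avoided simultaneously

Sigma type `Σ j : Fin 8, ι j` of the index types; `8/64 ≤ 1/4`; `gcrit`.
-/

set_option autoImplicit false

open Finset

namespace Pool.Agent.H95.AEC

open Classical in
/-- COMBINE -/
theorem combine {V : Type} [Fintype V] (G : SimpleGraph V) {K : ℕ} (hK : 0 < K)
    (hdeg : ∀ v, (univ.filter (fun w => G.Adj v w)).card ≤ K)
    (Φ : Fin 8 → (V → V → Fin K) → Prop) (h : ∀ j, SmallFam G K (Φ j)) :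
    ∃ q : V → V → Fin K, (∀ v u w, G.Adj v u → G.Adj v w → q v u = q v w → u = w) ∧
      ∀ j, Φ j q := by
  choose ι hι P hs hΦ using h
  let _ : ∀ j, Fintype (ι j) := hι
  obtain ⟨q, hq, hav⟩ := gcrit G hK hdeg (ι := Σ j, ι j) (fun y => P y.1 y.2) (by
    intro x
    rw [sum_filter, Fintype.sum_sigma]
    have h1 : ∀ j, ∑ i : ι j, (if x ∈ (P j i).S then (P j i).wt K else 0) ≤ 1 / 64 := by
      intro j
      rw [← sum_filter]
      exact hs j x
    refine le_trans (sum_le_sum fun j _ => h1 j) ?_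
    rw [sum_const, card_univ, Fintype.card_fin]
    norm_num)
  exact ⟨q, hq, fun j => hΦ j q hq (fun i => hav ⟨j, i⟩)⟩

end Pool.Agent.H95.AEC
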