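import Pool.Agent.H95.AEC.CycSum

/-!
# AEC-CYCFAM: the family of all valid cycle shapes

`ι` = all `(n, inf, x, t)` with `n < |V|` (a `Fin (card V)`; `x` injective forces `2n+4 ≤ |V|`) and `Valid`
(e.g. `{y : Σ n : Fin (Fintype.card V), Bool × (Fin (2*n+4) → V) × (Fin (2*n+4) → Ty V) // Valid ..}`);
patterns from `cycpat`; the sum is at most `∑ n, 2 / (2^8 2^n) ≤ 1/64` by `cycsum`.
-/

set_option autoImplicit false

open Finset

namespace Pool.Agent.H95.AEC

open Classical in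
/-- CYCFAM -/
theorem cyc_fam {V : Type} [Fintype V] (G : SimpleGraph V) (r : V → ℕ) {k K : ℕ}
    (h : Hyp G r k K) : SmallFam G K (fun q =>
      ∀ (n : ℕ) (x : Fin (2 * n + 4) → V) (inf : Bool) (t : Fin (2 * n + 4) → Ty V),
        Function.Injective x → Valid G r inf x t →
        ∃ p ∈ cC r inf x t, q p.1.1 p.1.2 ≠ q p.2.1 p.2.2) := by
  have hk1 := h.one
  have hbig := h.big
  have hK : 0 < K := by
    have : 0 < 10 ^ 20 * k ^ 2 := by positivity
    omega
  let ι := Σ n : Fin (Fintype.card V), Σ inf : Bool,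
    {y : (Fin (2 * (n : ℕ) + 4) → V) × (Fin (2 * (n : ℕ) + 4) → Ty V) // Valid G r inf y.1 y.2}
  have hP := fun i : ι => cycpat G r h.hr hK i.2.1 i.2.2.1.1 i.2.2.1.2 i.2.2.2
  choose P hS hC hw using hP
  refine ⟨ι, inferInstance, P, ?_, ?_⟩
  · intro d
    rw [sum_filter, Fintype.sum_sigma]
    have h1 : ∀ n : Fin (Fintype.card V),
        ∑ y : Σ inf : Bool, {y : (Fin (2 * (n : ℕ) + 4) → V) × (Fin (2 * (n : ℕ) + 4) → Ty V) //
          Valid G r inf y.1 y.2},
          (if d ∈ (P ⟨n, y⟩).S then (P ⟨n, y⟩).wt K else 0) ≤ 1 / 2 ^ 7 * (1 / 2) ^ (n : ℕ) := by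
      intro n
      rw [Fintype.sum_sigma]
      have h2 : ∀ inf : Bool,
          ∑ y : {y : (Fin (2 * (n : ℕ) + 4) → V) × (Fin (2 * (n : ℕ) + 4) → Ty V) //
            Valid G r inf y.1 y.2},
            (if d ∈ (P ⟨n, inf, y⟩).S then (P ⟨n, inf, y⟩).wt K else 0) ≤
              1 / (2 ^ 8 * 2 ^ (n : ℕ)) := by
        intro inf
        refine le_trans ?_ (cycsum G r h (n : ℕ) inf d)
        rw [← sum_filter]
        have h3 : ∑ y : {y : (Fin (2 * (n : ℕ) + 4) → V) × (Fin (2 * (n : ℕ) + 4) → Ty V) //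
            Valid G r inf y.1 y.2} with d ∈ (P ⟨n, inf, y⟩).S, (P ⟨n, inf, y⟩).wt K ≤
            ∑ y : {y : (Fin (2 * (n : ℕ) + 4) → V) × (Fin (2 * (n : ℕ) + 4) → Ty V) //
            Valid G r inf y.1 y.2} with d ∈ (P ⟨n, inf, y⟩).S,
              fw inf K * ∏ j, tw K (y.1.2 j) := sum_le_sum fun y _ => hw ⟨n, inf, y⟩
        refine le_trans h3 (le_of_eq ?_)
        refine sum_bij (fun y _ => y.1) ?_ ?_ ?_ ?_
        · intro y hy
          rw [mem_filter] at hy ⊢
          refine ⟨mem_univ _, y.2, ?_⟩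
          rw [← hS ⟨n, inf, y⟩]
          exact hy.2
        · intro y _ y' _ e
          exact Subtype.ext e
        · intro y hy
          rw [mem_filter] at hy
          refine ⟨⟨y, hy.2.1⟩, ?_, rfl⟩
          rw [mem_filter]
          refine ⟨mem_univ _, ?_⟩
          rw [hS ⟨n, inf, ⟨y, hy.2.1⟩⟩]
          exact hy.2.2
        · intro y _
          rfl
      refine le_trans (sum_le_sum fun inf _ => h2 inf) (le_of_eq ?_)
      rw [sum_const, card_univ, Fintype.card_bool, nsmul_eq_mul, one_div_pow]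
      field_simp
      norm_num
    refine le_trans (sum_le_sum fun n _ => h1 n) ?_
    rw [← mul_sum, Fin.sum_univ_eq_sum_range (fun n => (1 / 2 : ℝ) ^ n)]
    have h4 : ∑ i ∈ range (Fintype.card V), (1 / 2 : ℝ) ^ i ≤ 2 := by
      have := sum_geometric_two_le (Fintype.card V)
      exact this
    calc 1 / 2 ^ 7 * ∑ i ∈ range (Fintype.card V), (1 / 2 : ℝ) ^ i ≤ 1 / 2 ^ 7 * 2 := by
          refine mul_le_mul_of_nonneg_left h4 (by norm_num)
      _ = 1 / 64 := by norm_num
  · intro q _ hav n x inf t hx hv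
    have hn : n < Fintype.card V := by
      have := Fintype.card_le_of_injective x hx
      rw [Fintype.card_fin] at this
      omega
    obtain ⟨p, hp, hne⟩ := hav ⟨⟨n, hn⟩, inf, ⟨(x, t), hv⟩⟩
    rw [hC] at hp
    exact ⟨p, hp, hne⟩

end Pool.Agent.H95.AEC
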