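import Pool.Agent.H95.AEC.Defs

/-!
# AEC-WALK: counting closed walks

Every vertex has at most `k` upper neighbours and at most `K` neighbours.
Let `cnt j v y` = number of walks of length `j` from `v` to `y`
(`cnt 0 v y = if v = y then 1 else 0`, `cnt (j+1) v y = ∑ z with G.Adj z y, cnt j v z`), and
`N j v = ∑ y, (cnt j v y)^2`.
* `N 1 v ≤ K`; `N (j+1) v ≤ 4 k K * N j v`: `cnt (j+1) v y = A + B` with `A` the sum over the upper and `B`
  the sum over the lower neighbours `z` of `y`; `(A+B)² ≤ 2A² + 2B²`; Cauchy-Schwarz: `A² ≤ k ∑_{z ∈ Up y} cnt²`,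
  summing over `y` each `z` is counted `≤ K` times; `B² ≤ K ∑_{z lower} cnt²`, each `z` is counted `≤ k` times.
* closed walks `x : Fin (2n+4) → V` with `x i = v`: by rotation (`x ↦ fun j => x (j + i)`) we may take
  `i = 0`; their number is `∑ y, cnt (n+2) v y * cnt (n+2) y v = N (n+2) v ≤ K (4kK)^(n+1)` (`cnt` is symmetric).
* closed walks with `x i = u`, `x (i+1) = v`: at most
  `∑ y, cnt (n+1) v y * cnt (n+2) u y`, and `2 K M a b ≤ M² a² + K² b²` gives
  `2 K M * # ≤ M² N (n+2) u + K² N (n+1) v ≤ M² K (4kK)^(n+1) + K² K (4kK)^n ≤ 5 K³ (4kK)^n`.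
-/

set_option autoImplicit false

open Finset

namespace Pool.Agent.H95.AEC

open Classical in
/-- closed walks -/
def CW {V : Type} (G : SimpleGraph V) {n : ℕ} (x : Fin (2 * n + 4) → V) : Prop :=
  ∀ i, G.Adj (x i) (x (i + 1))

open Classical in
/-- number of walks of length `j` from `v` to `y` -/
noncomputable def wk_cnt {V : Type} [Fintype V] (G : SimpleGraph V) : ℕ → V → V → ℕ
  | 0, v, y => if v = y then 1 else 0
  | j + 1, v, y => ∑ z ∈ univ.filter (fun z => G.Adj z y), wk_cnt G j v z

open Classical in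
/-- the adjacency operator has norm at most `2 √(k K)` -/
theorem wk_op {V : Type} [Fintype V] (G : SimpleGraph V) (r : V → ℕ) (hr : Function.Injective r)
    {k K : ℕ} (hk : ∀ v, (univ.filter (fun a => Up G r v a)).card ≤ k)
    (hK : ∀ v, (univ.filter (fun a => G.Adj v a)).card ≤ K) (f : V → ℕ) :
    ∑ y, (∑ z ∈ univ.filter (fun z => G.Adj z y), f z) ^ 2 ≤ 4 * k * K * ∑ z, f z ^ 2 := by
  have hsplit : ∀ y, ∑ z ∈ univ.filter (fun z => G.Adj z y), f z =
      ∑ z ∈ univ.filter (fun z => Up G r y z), f z +
      ∑ z ∈ univ.filter (fun z => Up G r z y), f z := by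
    intro y
    rw [← Finset.sum_union]
    · refine Finset.sum_congr ?_ fun _ _ => rfl
      ext z
      simp only [mem_filter, mem_univ, true_and, mem_union]
      constructor
      · intro h
        rcases lt_trichotomy (r y) (r z) with h1 | h1 | h1
        · exact Or.inl ⟨h.symm, h1⟩
        · exact absurd (hr h1) h.ne.symm
        · exact Or.inr ⟨h, h1⟩
      · rintro (h | h)
        · exact h.1.symm
        · exact h.1
    · rw [Finset.disjoint_left]
      intro z h1 h2
      simp only [mem_filter, mem_univ, true_and] at h1 h2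
      have := h1.2
      have := h2.2
      omega
  have hA : ∀ y, (∑ z ∈ univ.filter (fun z => Up G r y z), f z) ^ 2 ≤
      k * ∑ z ∈ univ.filter (fun z => Up G r y z), f z ^ 2 := fun y =>
    (sq_sum_le_card_mul_sum_sq).trans (Nat.mul_le_mul_right _ (hk y))
  have hlow : ∀ y, (univ.filter (fun z => Up G r z y)).card ≤ K := by
    intro y
    refine (Finset.card_le_card ?_).trans (hK y)
    intro z hz
    simp only [mem_filter, mem_univ, true_and] at hz ⊢
    exact hz.1.symm
  have hB : ∀ y, (∑ z ∈ univ.filter (fun z => Up G r z y), f z) ^ 2 ≤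
      K * ∑ z ∈ univ.filter (fun z => Up G r z y), f z ^ 2 := fun y =>
    (sq_sum_le_card_mul_sum_sq).trans (Nat.mul_le_mul_right _ (hlow y))
  have hsA : ∑ y, ∑ z ∈ univ.filter (fun z => Up G r y z), f z ^ 2 ≤ K * ∑ z, f z ^ 2 := by
    simp only [Finset.sum_filter]
    rw [Finset.sum_comm, Finset.mul_sum]
    refine Finset.sum_le_sum fun z _ => ?_
    rw [← Finset.sum_filter, Finset.sum_const, smul_eq_mul]
    exact Nat.mul_le_mul_right _ (hlow z)
  have hsB : ∑ y, ∑ z ∈ univ.filter (fun z => Up G r z y), f z ^ 2 ≤ k * ∑ z, f z ^ 2 := by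
    simp only [Finset.sum_filter]
    rw [Finset.sum_comm, Finset.mul_sum]
    refine Finset.sum_le_sum fun z _ => ?_
    rw [← Finset.sum_filter, Finset.sum_const, smul_eq_mul]
    exact Nat.mul_le_mul_right _ (hk z)
  have hsq : ∀ a b : ℕ, (a + b) ^ 2 ≤ 2 * a ^ 2 + 2 * b ^ 2 := by
    intro a b
    zify
    nlinarith [sq_nonneg ((a : ℤ) - b)]
  calc ∑ y, (∑ z ∈ univ.filter (fun z => G.Adj z y), f z) ^ 2
      ≤ ∑ y, (2 * (k * ∑ z ∈ univ.filter (fun z => Up G r y z), f z ^ 2) +
          2 * (K * ∑ z ∈ univ.filter (fun z => Up G r z y), f z ^ 2)) := by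
        refine Finset.sum_le_sum fun y _ => ?_
        rw [hsplit y]
        refine (hsq _ _).trans ?_
        exact Nat.add_le_add (Nat.mul_le_mul_left _ (hA y)) (Nat.mul_le_mul_left _ (hB y))
    _ = 2 * (k * ∑ y, ∑ z ∈ univ.filter (fun z => Up G r y z), f z ^ 2) +
          2 * (K * ∑ y, ∑ z ∈ univ.filter (fun z => Up G r z y), f z ^ 2) := by
        rw [Finset.sum_add_distrib, ← Finset.mul_sum, ← Finset.mul_sum, ← Finset.mul_sum,
          ← Finset.mul_sum]
    _ ≤ 2 * (k * (K * ∑ z, f z ^ 2)) + 2 * (K * (k * ∑ z, f z ^ 2)) :=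
        Nat.add_le_add (Nat.mul_le_mul_left _ (Nat.mul_le_mul_left _ hsA))
          (Nat.mul_le_mul_left _ (Nat.mul_le_mul_left _ hsB))
    _ = 4 * k * K * ∑ z, f z ^ 2 := by ring

/-- number of pairs of walks of length `j` with the same ends -/
noncomputable def wk_N {V : Type} [Fintype V] (G : SimpleGraph V) (j : ℕ) (v : V) : ℕ :=
  ∑ y, (wk_cnt G j v y) ^ 2

open Classical in
theorem wk_N_le {V : Type} [Fintype V] (G : SimpleGraph V) (r : V → ℕ) (hr : Function.Injective r)
    {k K : ℕ} (hk : ∀ v, (univ.filter (fun a => Up G r v a)).card ≤ k)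
    (hK : ∀ v, (univ.filter (fun a => G.Adj v a)).card ≤ K) (j : ℕ) (v : V) :
    wk_N G (j + 1) v ≤ K * (4 * k * K) ^ j := by
  induction j with
  | zero =>
    have h1 : ∀ y, wk_cnt G 1 v y = if G.Adj v y then 1 else 0 := by
      intro y
      show ∑ z ∈ univ.filter (fun z => G.Adj z y), (if v = z then 1 else 0) = _
      rw [Finset.sum_filter]
      by_cases h : G.Adj v y
      · rw [if_pos h, Finset.sum_eq_single v]
        · simp [h]
        · intro z _ hz
          by_cases h2 : G.Adj z y
          · simp [h2, hz.symm]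
          · simp [h2]
        · intro h2; exact absurd (mem_univ _) h2
      · rw [if_neg h]
        refine Finset.sum_eq_zero fun z _ => ?_
        by_cases h2 : G.Adj z y
        · rw [if_pos h2, if_neg]
          rintro rfl
          exact h h2
        · rw [if_neg h2]
    unfold wk_N
    rw [pow_zero, mul_one]
    refine le_trans (le_of_eq ?_) (hK v)
    rw [Finset.card_eq_sum_ones, Finset.sum_filter]
    refine Finset.sum_congr rfl fun y _ => ?_
    rw [h1 y]
    split_ifs <;> simp
  | succ j ih =>
    calc wk_N G (j + 1 + 1) v ≤ 4 * k * K * wk_N G (j + 1) v :=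
          wk_op G r hr hk hK (fun z => wk_cnt G (j + 1) v z)
      _ ≤ 4 * k * K * (K * (4 * k * K) ^ j) := Nat.mul_le_mul_left _ ih
      _ = K * (4 * k * K) ^ (j + 1) := by ring

open Classical in
/-- walks as functions -/
noncomputable def wk_W {V : Type} [Fintype V] (G : SimpleGraph V) (j : ℕ) (v y : V) :
    Finset (Fin (j + 1) → V) :=
  univ.filter (fun w => w 0 = v ∧ w (Fin.last j) = y ∧
    ∀ i : Fin j, G.Adj (w i.castSucc) (w i.succ))

open Classical in
theorem wk_W_card {V : Type} [Fintype V] (G : SimpleGraph V) (j : ℕ) (v y : V) :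
    (wk_W G j v y).card ≤ wk_cnt G j v y := by
  induction j generalizing y with
  | zero =>
    show _ ≤ if v = y then 1 else 0
    by_cases h : v = y
    · rw [if_pos h, Finset.card_le_one]
      intro a ha b hb
      simp only [wk_W, mem_filter, mem_univ, true_and] at ha hb
      funext i
      have hi : i = 0 := by
        apply Fin.ext
        have := i.isLt
        rw [Fin.val_zero]
        omega
      rw [hi, ha.1, hb.1]
    · rw [if_neg h, Nat.le_zero, Finset.card_eq_zero, Finset.eq_empty_iff_forall_notMem]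
      intro w hw
      simp only [wk_W, mem_filter, mem_univ, true_and] at hw
      exact h (hw.1.symm.trans hw.2.1)
  | succ j ih =>
    show _ ≤ ∑ z ∈ univ.filter (fun z => G.Adj z y), wk_cnt G j v z
    have h1 : (wk_W G (j + 1) v y).card ≤
        ((univ.filter (fun z => G.Adj z y)).biUnion (fun z => wk_W G j v z)).card := by
      refine Finset.card_le_card_of_injOn (fun w => fun i : Fin (j + 1) => w i.castSucc) ?_ ?_
      · intro w hw
        simp only [wk_W, mem_filter, mem_univ, true_and, Finset.mem_coe, mem_biUnion] at hw ⊢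
        obtain ⟨h1, h2, h3⟩ := hw
        refine ⟨w (Fin.last j).castSucc, ?_, ?_, rfl, ?_⟩
        · have := h3 (Fin.last j)
          rw [Fin.succ_last, h2] at this
          exact this
        · rw [Fin.castSucc_zero]
          exact h1
        · intro i
          have := h3 i.castSucc
          rwa [Fin.succ_castSucc] at this
      · intro w hw w' hw' heq
        simp only [wk_W, mem_filter, mem_univ, true_and, Finset.mem_coe] at hw hw'
        funext i
        refine Fin.lastCases ?_ (fun i => ?_) i
        · rw [hw.2.1, hw'.2.1]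
        · exact congrFun heq i
    exact h1.trans (Finset.card_biUnion_le.trans (Finset.sum_le_sum fun z _ => ih z))

open Classical in
/-- rotation -/
theorem wk_rot {V : Type} [Fintype V] (G : SimpleGraph V) (n : ℕ) (i : Fin (2 * n + 4))
    (P : (Fin (2 * n + 4) → V) → Prop) (Q : (Fin (2 * n + 4) → V) → Prop)
    (hPQ : ∀ x, P x → Q (fun j => x (j + i))) :
    (univ.filter (fun x : Fin (2 * n + 4) → V => CW G x ∧ P x)).card ≤
      (univ.filter (fun x : Fin (2 * n + 4) → V => CW G x ∧ Q x)).card := by
  refine Finset.card_le_card_of_injOn (fun x => fun j => x (j + i)) ?_ ?_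
  · intro x hx
    simp only [mem_filter, mem_univ, true_and, Finset.mem_coe] at hx ⊢
    refine ⟨?_, hPQ x hx.2⟩
    intro j
    have h1 := hx.1 (j + i)
    have h2 : j + i + 1 = j + 1 + i := by
      rw [add_assoc, add_comm i 1, ← add_assoc]
    rw [h2] at h1
    exact h1
  · intro x _ x' _ heq
    funext j
    have h1 := congrFun heq (j - i)
    simp only [sub_add_cancel] at h1
    exact h1

open Classical in
/-- closed walks through `0` at `v` -/
theorem wk_closed1 {V : Type} [Fintype V] (G : SimpleGraph V) (n : ℕ) (v : V) :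
    (univ.filter (fun x : Fin (2 * n + 4) → V => CW G x ∧ x 0 = v)).card ≤
      ∑ y, wk_cnt G (n + 2) v y * wk_cnt G (n + 2) v y := by
  have h1 : (univ.filter (fun x : Fin (2 * n + 4) → V => CW G x ∧ x 0 = v)).card ≤
      ((univ : Finset V).biUnion (fun y => wk_W G (n + 2) v y ×ˢ wk_W G (n + 2) v y)).card := by
    refine Finset.card_le_card_of_injOn (fun x =>
      ((fun i : Fin (n + 2 + 1) => x ⟨i.val, by omega⟩ : Fin (n + 2 + 1) → V),
       (fun i : Fin (n + 2 + 1) => x (-(⟨i.val, by omega⟩ : Fin (2 * n + 4))) :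
        Fin (n + 2 + 1) → V))) ?_ ?_
    · intro x hx
      simp only [mem_filter, mem_univ, true_and, Finset.mem_coe] at hx
      obtain ⟨hcw, h0⟩ := hx
      simp only [Finset.mem_coe, mem_biUnion, mem_univ, true_and, mem_product]
      refine ⟨x ⟨n + 2, by omega⟩, ?_, ?_⟩
      · simp only [wk_W, mem_filter, mem_univ, true_and]
        refine ⟨h0, rfl, ?_⟩
        intro i
        have h2 := hcw ⟨i.val, by omega⟩
        have h3 : (⟨i.val, by omega⟩ : Fin (2 * n + 4)) + 1 = ⟨i.val + 1, by omega⟩ := by
          apply Fin.ext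
          rw [Fin.val_add_one_of_lt' (by simp only; omega)]
        rw [h3] at h2
        exact h2
      · simp only [wk_W, mem_filter, mem_univ, true_and]
        refine ⟨?_, ?_, ?_⟩
        · have e0 : (⟨((0 : Fin (n + 2 + 1)) : ℕ), by omega⟩ : Fin (2 * n + 4)) = 0 := rfl
          rw [e0, neg_zero, h0]
        · congr 1
          apply Fin.ext
          rw [Fin.neg_def]
          simp only [Fin.val_last]
          rw [Nat.mod_eq_of_lt (by omega)]
          omega
        · intro i
          have h2 := hcw (-(⟨i.val + 1, by omega⟩ : Fin (2 * n + 4)))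
          have h3 : -(⟨i.val + 1, by omega⟩ : Fin (2 * n + 4)) + 1 = -⟨i.val, by omega⟩ := by
            have h4 : (⟨i.val + 1, by omega⟩ : Fin (2 * n + 4)) = ⟨i.val, by omega⟩ + 1 := by
              apply Fin.ext
              rw [Fin.val_add_one_of_lt' (by simp only; omega)]
            rw [h4, neg_add, neg_add_cancel_right]
          rw [h3] at h2
          exact h2.symm
    · intro x _ x' _ heq
      rw [Prod.mk.injEq] at heq
      funext j
      by_cases hj : j.val < n + 3
      · exact congrFun heq.1 ⟨j.val, hj⟩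
      · have h2 := congrFun heq.2 ⟨2 * n + 4 - j.val, by omega⟩
        simp only at h2
        have h3 : -(⟨2 * n + 4 - j.val, by omega⟩ : Fin (2 * n + 4)) = j := by
          apply Fin.ext
          rw [Fin.neg_def]
          simp only
          have : 2 * n + 4 - (2 * n + 4 - j.val) = j.val := by omega
          rw [this, Nat.mod_eq_of_lt j.2]
        rw [h3] at h2
        exact h2
  refine h1.trans (Finset.card_biUnion_le.trans (Finset.sum_le_sum fun y _ => ?_))
  rw [Finset.card_product]
  exact Nat.mul_le_mul (wk_W_card G _ _ _) (wk_W_card G _ _ _)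

open Classical in
/-- closed walks through the edge `u v` -/
theorem wk_closed2 {V : Type} [Fintype V] (G : SimpleGraph V) (n : ℕ) (u v : V) :
    (univ.filter (fun x : Fin (2 * n + 4) → V => CW G x ∧ x 0 = u ∧ x 1 = v)).card ≤
      ∑ y, wk_cnt G (n + 1) v y * wk_cnt G (n + 2) u y := by
  have h1 : (univ.filter (fun x : Fin (2 * n + 4) → V => CW G x ∧ x 0 = u ∧ x 1 = v)).card ≤
      ((univ : Finset V).biUnion (fun y => wk_W G (n + 1) v y ×ˢ wk_W G (n + 2) u y)).card := by
    refine Finset.card_le_card_of_injOn (fun x =>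
      ((fun i : Fin (n + 1 + 1) => x ⟨i.val + 1, by omega⟩ : Fin (n + 1 + 1) → V),
       (fun i : Fin (n + 2 + 1) => x (-(⟨i.val, by omega⟩ : Fin (2 * n + 4))) :
        Fin (n + 2 + 1) → V))) ?_ ?_
    · intro x hx
      simp only [mem_filter, mem_univ, true_and, Finset.mem_coe] at hx
      obtain ⟨hcw, h0, h1⟩ := hx
      simp only [Finset.mem_coe, mem_biUnion, mem_univ, true_and, mem_product]
      refine ⟨x ⟨n + 2, by omega⟩, ?_, ?_⟩
      · simp only [wk_W, mem_filter, mem_univ, true_and]
        refine ⟨?_, rfl, ?_⟩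
        · rw [← h1]
          congr 1
        · intro i
          have h2 := hcw ⟨i.val + 1, by omega⟩
          have h3 : (⟨i.val + 1, by omega⟩ : Fin (2 * n + 4)) + 1 = ⟨i.val + 1 + 1, by omega⟩ := by
            apply Fin.ext
            rw [Fin.val_add_one_of_lt' (by simp only; omega)]
          rw [h3] at h2
          exact h2
      · simp only [wk_W, mem_filter, mem_univ, true_and]
        refine ⟨?_, ?_, ?_⟩
        · have e0 : (⟨((0 : Fin (n + 2 + 1)) : ℕ), by omega⟩ : Fin (2 * n + 4)) = 0 := rfl
          rw [e0, neg_zero, h0]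
        · congr 1
          apply Fin.ext
          rw [Fin.neg_def]
          simp only [Fin.val_last]
          rw [Nat.mod_eq_of_lt (by omega)]
          omega
        · intro i
          have h2 := hcw (-(⟨i.val + 1, by omega⟩ : Fin (2 * n + 4)))
          have h3 : -(⟨i.val + 1, by omega⟩ : Fin (2 * n + 4)) + 1 = -⟨i.val, by omega⟩ := by
            have h4 : (⟨i.val + 1, by omega⟩ : Fin (2 * n + 4)) = ⟨i.val, by omega⟩ + 1 := by
              apply Fin.ext
              rw [Fin.val_add_one_of_lt' (by simp only; omega)]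
            rw [h4, neg_add, neg_add_cancel_right]
          rw [h3] at h2
          exact h2.symm
    · intro x hx x' hx' heq
      simp only [mem_filter, mem_univ, true_and, Finset.mem_coe] at hx hx'
      rw [Prod.mk.injEq] at heq
      funext j
      by_cases hj0 : j = 0
      · rw [hj0, hx.2.1, hx'.2.1]
      by_cases hj : j.val < n + 3
      · have hj1 : 1 ≤ j.val := by
          rcases Nat.eq_zero_or_pos j.val with h | h
          · exact absurd (Fin.ext h) hj0
          · exact h
        have h2 := congrFun heq.1 ⟨j.val - 1, by omega⟩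
        simp only at h2
        have h3 : (⟨j.val - 1 + 1, by omega⟩ : Fin (2 * n + 4)) = j :=
          Fin.ext (by simp only; omega)
        rw [h3] at h2
        exact h2
      · have h2 := congrFun heq.2 ⟨2 * n + 4 - j.val, by omega⟩
        simp only at h2
        have h3 : -(⟨2 * n + 4 - j.val, by omega⟩ : Fin (2 * n + 4)) = j := by
          apply Fin.ext
          rw [Fin.neg_def]
          simp only
          have : 2 * n + 4 - (2 * n + 4 - j.val) = j.val := by omega
          rw [this, Nat.mod_eq_of_lt j.2]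
        rw [h3] at h2
        exact h2
  refine h1.trans (Finset.card_biUnion_le.trans (Finset.sum_le_sum fun y _ => ?_))
  rw [Finset.card_product]
  exact Nat.mul_le_mul (wk_W_card G _ _ _) (wk_W_card G _ _ _)

open Classical in
/-- WALK1 -/
theorem walk1 {V : Type} [Fintype V] (G : SimpleGraph V) (r : V → ℕ) (hr : Function.Injective r)
    {k K : ℕ} (hk : ∀ v, (univ.filter (fun a => Up G r v a)).card ≤ k)
    (hK : ∀ v, (univ.filter (fun a => G.Adj v a)).card ≤ K) (n : ℕ) (v : V)
    (i : Fin (2 * n + 4)) :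
    (univ.filter (fun x : Fin (2 * n + 4) → V => CW G x ∧ x i = v)).card ≤
      K * (4 * k * K) ^ (n + 1) := by
  refine (wk_rot G n i (fun x => x i = v) (fun x => x 0 = v) ?_).trans ?_
  · intro x hx
    simpa using hx
  · refine (wk_closed1 G n v).trans (le_trans (le_of_eq ?_) (wk_N_le G r hr hk hK (n + 1) v))
    unfold wk_N
    exact Finset.sum_congr rfl fun y _ => (sq _).symm

open Classical in
/-- WALK2 -/
theorem walk2 {V : Type} [Fintype V] (G : SimpleGraph V) (r : V → ℕ) (hr : Function.Injective r)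
    {k K M : ℕ} (hk : ∀ v, (univ.filter (fun a => Up G r v a)).card ≤ k)
    (hK : ∀ v, (univ.filter (fun a => G.Adj v a)).card ≤ K) (hM : M ^ 2 * k ≤ K) (n : ℕ) (u v : V)
    (i : Fin (2 * n + 4)) :
    2 * M * (univ.filter (fun x : Fin (2 * n + 4) → V => CW G x ∧ x i = u ∧ x (i + 1) = v)).card ≤
      5 * K ^ 2 * (4 * k * K) ^ n := by
  have h1 : (univ.filter (fun x : Fin (2 * n + 4) → V =>
      CW G x ∧ x i = u ∧ x (i + 1) = v)).card ≤
      ∑ y, wk_cnt G (n + 1) v y * wk_cnt G (n + 2) u y := by
    have h0 := wk_rot G n i (fun x => x i = u ∧ x (i + 1) = v) (fun x => x 0 = u ∧ x 1 = v) (by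
      rintro x ⟨h1, h2⟩
      refine ⟨by simpa using h1, ?_⟩
      rw [← h2, add_comm i 1])
    refine le_trans (Finset.card_le_card ?_) (h0.trans (le_trans (Finset.card_le_card ?_)
      (wk_closed2 G n u v)))
    · intro x hx
      have h2 := (Finset.mem_filter.1 hx).2
      exact @Finset.mem_filter _ _ (_) _ _ |>.2 ⟨mem_univ _, h2⟩
    · intro x hx
      have h2 := (@Finset.mem_filter _ _ (_) _ _ |>.1 hx).2
      exact Finset.mem_filter.2 ⟨mem_univ _, h2⟩
  rcases Nat.eq_zero_or_pos K with hK0 | hKpos
  · have h2 : (univ.filter (fun x : Fin (2 * n + 4) → V =>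
      CW G x ∧ x i = u ∧ x (i + 1) = v)) = ∅ := by
      rw [Finset.eq_empty_iff_forall_notMem]
      intro x hx
      simp only [mem_filter, mem_univ, true_and] at hx
      have h3 := hx.1 0
      have h4 := hK (x 0)
      rw [hK0, Nat.le_zero, Finset.card_eq_zero, Finset.eq_empty_iff_forall_notMem] at h4
      exact h4 _ (mem_filter.2 ⟨mem_univ _, h3⟩)
    rw [h2]
    simp
  · have hN2 := wk_N_le G r hr hk hK (n + 1) u
    have hN1 := wk_N_le G r hr hk hK n v
    have h3 : K * (2 * M * ∑ y, wk_cnt G (n + 1) v y * wk_cnt G (n + 2) u y) ≤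
        M ^ 2 * wk_N G (n + 1 + 1) u + K ^ 2 * wk_N G (n + 1) v := by
      unfold wk_N
      rw [Finset.mul_sum, Finset.mul_sum, Finset.mul_sum, Finset.mul_sum,
        ← Finset.sum_add_distrib]
      refine Finset.sum_le_sum fun y _ => ?_
      set a := wk_cnt G (n + 2) u y
      set b := wk_cnt G (n + 1) v y
      zify
      nlinarith [sq_nonneg ((M : ℤ) * a - K * b)]
    have h4 : M ^ 2 * wk_N G (n + 1 + 1) u + K ^ 2 * wk_N G (n + 1) v ≤
        K * (5 * K ^ 2 * (4 * k * K) ^ n) := by
      calc M ^ 2 * wk_N G (n + 1 + 1) u + K ^ 2 * wk_N G (n + 1) v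
          ≤ M ^ 2 * (K * (4 * k * K) ^ (n + 1)) + K ^ 2 * (K * (4 * k * K) ^ n) :=
            Nat.add_le_add (Nat.mul_le_mul_left _ hN2) (Nat.mul_le_mul_left _ hN1)
        _ = (M ^ 2 * k) * (4 * K ^ 2 * (4 * k * K) ^ n) + K ^ 2 * (K * (4 * k * K) ^ n) := by ring
        _ ≤ K * (4 * K ^ 2 * (4 * k * K) ^ n) + K ^ 2 * (K * (4 * k * K) ^ n) :=
            Nat.add_le_add_right (Nat.mul_le_mul_right _ hM) _
        _ = K * (5 * K ^ 2 * (4 * k * K) ^ n) := by ring
    have h5 := h3.trans h4
    have h6 := Nat.le_of_mul_le_mul_left h5 hKpos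
    exact (Nat.mul_le_mul_left _ h1).trans h6

end Pool.Agent.H95.AEC
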