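import Pool.Agent.H95.AEC.Fam
import Pool.Agent.H95.AEC.Walk

/-!
# AEC-CYCPAT: the pattern of a valid cycle shape

`(con1 i).1 = asl i` for every `i` (lemma), so by `f11`, `f12`, `f22` the constraints
`con1 i` (`i ≠ 0`, and `i ≠ 1` if `inf = false`) and `con2 i` (`t i ≠ none`) have different first entries, hence
`|cC| = (2n+4) - (1 or 2) + #{t i ≠ none}`; `|cS| ≤ ∑ (1, 3, 4)`. So `6^|cS| / K^|cC| ≤ (K or K²) ∏ tw (t i)`.
`dec`, with `rk x = M - r x.2`: the targets `asl 0`, `asl 1` are not first entries of constraints of `cC`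
(`f11`, `f12`; `asl 1` is a target only if `inf = false`, and then `con1 1` is left out; `asl 0 = (con1 0).1`);
the other constraints are `raw i → (a, hi i)`, `(a, hi i) → (b, a)`, `raw i → (a, b)`, and `r` of the second
component strictly increases (`r (lo i) < r (hi i) < r a < r b`; `r (lo i) < r (hi i)` since `x i ≠ x (i+1)` are
adjacent and `r` is injective).
-/

set_option autoImplicit false

open Finset

namespace Pool.Agent.H95.AEC

/-- weight of an edge type -/
noncomputable def tw {V : Type} (K : ℕ) : Ty V → ℝ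
  | none => 6 / (K : ℝ)
  | some (_, none) => 216 / (K : ℝ) ^ 2
  | some (_, some _) => 1296 / (K : ℝ) ^ 2

/-- factor for the missing constraints -/
noncomputable def fw (inf : Bool) (K : ℕ) : ℝ := if inf = true then (K : ℝ) else (K : ℝ) ^ 2

theorem con1_fst {V : Type} (r : V → ℕ) {n : ℕ} (inf : Bool) (x : Fin (2 * n + 4) → V)
    (t : Fin (2 * n + 4) → Ty V) (i : Fin (2 * n + 4)) :
    (con1 r inf x t i).1 = asl r x t i := by
  unfold con1 asl
  rcases t i with _ | ⟨a, _ | b⟩ <;> rfl

theorem lo_hi_adj {V : Type} (G : SimpleGraph V) (r : V → ℕ) {n : ℕ} (x : Fin (2 * n + 4) → V)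
    (i : Fin (2 * n + 4)) (h : G.Adj (x i) (x (i + 1))) : G.Adj (hi r x i) (lo r x i) := by
  unfold hi lo
  split_ifs
  · exact h.symm
  · exact h

theorem lo_lt_hi {V : Type} (G : SimpleGraph V) (r : V → ℕ) (hr : Function.Injective r) {n : ℕ}
    (x : Fin (2 * n + 4) → V)
    (i : Fin (2 * n + 4)) (h : G.Adj (x i) (x (i + 1))) : r (lo r x i) < r (hi r x i) := by
  unfold hi lo
  split_ifs with h1
  · exact h1
  · have h2 : r (x i) ≠ r (x (i + 1)) := fun he => h.ne (hr he)
    omega

open Classical in
theorem asl_mem_sl {V : Type} (r : V → ℕ) {n : ℕ} (x : Fin (2 * n + 4) → V)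
    (t : Fin (2 * n + 4) → Ty V) (i : Fin (2 * n + 4)) : asl r x t i ∈ sl r x t i := by
  unfold asl sl
  rcases t i with _ | ⟨a, _ | b⟩ <;> simp

open Classical in
theorem sl_card {V : Type} (r : V → ℕ) {n : ℕ} (x : Fin (2 * n + 4) → V)
    (t : Fin (2 * n + 4) → Ty V) (i : Fin (2 * n + 4)) {K : ℕ} (hK : 0 < K) :
    (6 : ℝ) ^ (sl r x t i).card / (K : ℝ) ^ (if t i ≠ none then 2 else 1) ≤ tw K (t i) := by
  have hK' : (0 : ℝ) < K := by exact_mod_cast hK
  unfold sl tw
  rcases t i with _ | ⟨a, _ | b⟩
  · simp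
  · simp only [ne_eq, reduceCtorEq, not_false_eq_true, if_true]
    apply div_le_div_of_nonneg_right _ (by positivity)
    calc (6 : ℝ) ^ _ ≤ 6 ^ 3 := pow_le_pow_right₀ (by norm_num) (card_le_three)
      _ = 216 := by norm_num
  · simp only [ne_eq, reduceCtorEq, not_false_eq_true, if_true]
    apply div_le_div_of_nonneg_right _ (by positivity)
    calc (6 : ℝ) ^ _ ≤ 6 ^ 4 := pow_le_pow_right₀ (by norm_num) (card_le_four)
      _ = 1296 := by norm_num

/-- CYCPAT -/
theorem cycpat {V : Type} [Fintype V] (G : SimpleGraph V) (r : V → ℕ) (hr : Function.Injective r)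
    {K : ℕ} (hK : 0 < K) {n : ℕ} (inf : Bool) (x : Fin (2 * n + 4) → V)
    (t : Fin (2 * n + 4) → Ty V) (hv : Valid G r inf x t) :
    ∃ P : DPat G, P.S = cS r x t ∧ P.C = cC r inf x t ∧ P.wt K ≤ fw inf K * ∏ i, tw K (t i) := by
  classical
  have hK' : (0 : ℝ) < K := by exact_mod_cast hK
  -- bound for ranks
  obtain ⟨M, hM⟩ : ∃ M, ∀ v, r v ≤ M := ⟨∑ v, r v, fun v =>
    single_le_sum (f := r) (fun _ _ => Nat.zero_le _) (mem_univ v)⟩
  have hslS : ∀ i d, d ∈ sl r x t i → d ∈ cS r x t := fun i d hd => by
    unfold cS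
    exact mem_biUnion.2 ⟨i, mem_univ i, hd⟩
  have haslS : ∀ i, asl r x t i ∈ cS r x t := fun i => hslS i _ (asl_mem_sl r x t i)
  have hlh : ∀ i, r (lo r x i) < r (hi r x i) := fun i => lo_lt_hi G r hr x i (hv.adj i)
  have hadjS : ∀ d ∈ cS r x t, G.Adj d.1 d.2 := by
    intro d hd
    unfold cS at hd
    obtain ⟨i, -, hdi⟩ := mem_biUnion.1 hd
    have h0 : G.Adj (hi r x i) (lo r x i) := lo_hi_adj G r x i (hv.adj i)
    have h1 := hv.up1 i
    have h2 := hv.up2 i
    unfold sl at hdi
    rcases hti : t i with _ | ⟨a, _ | b⟩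
    · simp only [hti, mem_singleton] at hdi
      subst hdi
      exact h0
    · simp only [hti, mem_insert, mem_singleton] at hdi
      have h3 := h1 a none hti
      rcases hdi with rfl | rfl | rfl
      · exact h0
      · exact h3.1.symm
      · exact h3.1
    · simp only [hti, mem_insert, mem_singleton] at hdi
      have h3 := h1 a (some b) hti
      have h4 := h2 a b hti
      rcases hdi with rfl | rfl | rfl | rfl
      · exact h0
      · exact h3.1.symm
      · exact h4.1.symm
      · exact h4.1
  -- description of the constraints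
  have hC : ∀ p, p ∈ cC r inf x t ↔
      (∃ i, (i ≠ 0 ∧ (inf = true ∨ i ≠ 1)) ∧ con1 r inf x t i = p) ∨
        (∃ i, t i ≠ none ∧ con2 r x t i = p) := by
    intro p
    unfold cC
    simp only [mem_union, mem_image, mem_filter, mem_univ, true_and]
  have hcon1S : ∀ i, (con1 r inf x t i).1 ∈ cS r x t ∧ (con1 r inf x t i).2 ∈ cS r x t := by
    intro i
    refine ⟨by rw [con1_fst]; exact haslS i, ?_⟩
    rcases hti : t i with _ | ⟨a, _ | b⟩
    · unfold con1
      simp only [hti]
      split_ifs <;> exact haslS _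
    · unfold con1
      simp only [hti]
      split_ifs <;> exact haslS _
    · unfold con1
      simp only [hti]
      apply hslS i
      unfold sl
      simp [hti]
  have hcon2S : ∀ i, (con2 r x t i).1 ∈ cS r x t ∧ (con2 r x t i).2 ∈ cS r x t := by
    intro i
    rcases hti : t i with _ | ⟨a, _ | b⟩
    · unfold con2
      simp only [hti]
      refine ⟨hslS i _ ?_, hslS i _ ?_⟩ <;>
      · unfold sl
        simp [hti]
    · unfold con2
      simp only [hti]
      refine ⟨hslS i _ ?_, hslS i _ ?_⟩ <;>
      · unfold sl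
        simp [hti]
    · unfold con2
      simp only [hti]
      refine ⟨hslS i _ ?_, hslS i _ ?_⟩ <;>
      · unfold sl
        simp [hti]
  -- asl 0 and asl 1 are no first entries
  have hno0 : ∀ p ∈ cC r inf x t, p.1 ≠ asl r x t 0 := by
    intro p hp he
    rcases (hC p).1 hp with ⟨i, ⟨hi0, -⟩, rfl⟩ | ⟨i, hi, rfl⟩
    · exact hi0 (hv.f11 i 0 (by rw [he, con1_fst]))
    · exact hv.f12 0 i hi (by rw [he, con1_fst])
  have hno1 : inf ≠ true → ∀ p ∈ cC r inf x t, p.1 ≠ asl r x t 1 := by
    intro hinf p hp he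
    rcases (hC p).1 hp with ⟨i, ⟨-, hi1⟩, rfl⟩ | ⟨i, hi, rfl⟩
    · rcases hi1 with h | h
      · exact hinf h
      · exact h (hv.f11 i 1 (by rw [he, con1_fst]))
    · exact hv.f12 1 i hi (by rw [he, con1_fst])
  have hinj : ∀ p ∈ cC r inf x t, ∀ p' ∈ cC r inf x t, p.1 = p'.1 → p = p' := by
    intro p hp p' hp' he
    rcases (hC p).1 hp with ⟨i, -, rfl⟩ | ⟨i, hi, rfl⟩ <;>
      rcases (hC p').1 hp' with ⟨j, -, rfl⟩ | ⟨j, hj, rfl⟩
    · rw [hv.f11 i j he]
    · exact absurd he (hv.f12 i j hj)
    · exact absurd he.symm (hv.f12 j i hi)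
    · rw [hv.f22 i j hi hj he]
  have hdec : ∀ p ∈ cC r inf x t, ∀ p' ∈ cC r inf x t, p.2 = p'.1 →
      M - r p.2.2 < M - r p.1.2 := by
    intro p hp p' hp' he
    have key : r p.1.2 < r p.2.2 → M - r p.2.2 < M - r p.1.2 := fun h => by
      have := hM p.2.2
      omega
    apply key
    rcases (hC p).1 hp with ⟨i, -, rfl⟩ | ⟨i, hi, rfl⟩
    · have hother : ∀ d, (con1 r inf x t i).2 =
          (if (i : ℕ) % 2 = 0 ∨ inf = true then asl r x t 0 else asl r x t 1) → d := by
        intro d hd
        exfalso
        rw [hd] at he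
        split_ifs at he with h
        · exact hno0 p' hp' he.symm
        · push Not at h
          exact hno1 h.2 p' hp' he.symm
      rcases hti : t i with _ | ⟨a, _ | b⟩
      · apply hother
        unfold con1
        simp only [hti]
      · apply hother
        unfold con1
        simp only [hti]
      · unfold con1
        simp only [hti]
        have h1 := (hv.up1 i a (some b) hti).2
        have h2 := (hv.up2 i a b hti).2
        have h3 := hlh i
        show r (lo r x i) < r b
        omega
    · rcases hti : t i with _ | ⟨a, _ | b⟩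
      · exact absurd hti hi
      · unfold con2
        simp only [hti]
        exact hlh i
      · unfold con2
        simp only [hti]
        exact (hv.up1 i a (some b) hti).2
  let P : DPat G :=
    { S := cS r x t
      C := cC r inf x t
      rk := fun d => M - r d.2
      ne := ⟨asl r x t 0, haslS 0⟩
      adj := hadjS
      mem₁ := by
        intro p hp
        rcases (hC p).1 hp with ⟨i, -, rfl⟩ | ⟨i, hi, rfl⟩
        · exact (hcon1S i).1
        · exact (hcon2S i).1
      mem₂ := by
        intro p hp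
        rcases (hC p).1 hp with ⟨i, -, rfl⟩ | ⟨i, hi, rfl⟩
        · exact (hcon1S i).2
        · exact (hcon2S i).2
      inj := hinj
      dec := hdec }
  refine ⟨P, rfl, rfl, ?_⟩
  -- the weight
  have hcardC : (cC r inf x t).card =
      (univ.filter (fun i : Fin (2 * n + 4) => i ≠ 0 ∧ (inf = true ∨ i ≠ 1))).card +
        (univ.filter (fun i => t i ≠ none)).card := by
    unfold cC
    rw [card_union_of_disjoint]
    · congr 1
      · apply card_image_of_injOn
        intro i _ j _ hij
        exact hv.f11 i j (by rw [hij])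
      · apply card_image_of_injOn
        intro i hi j hj hij
        have hi' := (mem_filter.1 (mem_coe.1 hi)).2
        have hj' := (mem_filter.1 (mem_coe.1 hj)).2
        exact hv.f22 i j hi' hj' (by rw [hij])
    · rw [disjoint_left]
      intro p hp hp'
      simp only [mem_image, mem_filter, mem_univ, true_and] at hp hp'
      obtain ⟨i, -, rfl⟩ := hp
      obtain ⟨j, hj, hij⟩ := hp'
      exact hv.f12 i j hj (by rw [hij])
  have hcardS : (cS r x t).card ≤ ∑ i, (sl r x t i).card := by
    unfold cS
    exact card_biUnion_le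
  have hprod : (6 : ℝ) ^ (∑ i, (sl r x t i).card) /
      (K : ℝ) ^ (∑ i, (if t i ≠ none then 2 else 1)) ≤ ∏ i, tw K (t i) := by
    rw [← prod_pow_eq_pow_sum, ← prod_pow_eq_pow_sum, ← prod_div_distrib]
    apply prod_le_prod
    · intro i _
      positivity
    · intro i _
      exact sl_card r x t i hK
  have hsum : (∑ i : Fin (2 * n + 4), (if t i ≠ none then 2 else 1)) =
      (2 * n + 4) + (univ.filter (fun i => t i ≠ none)).card := by
    have : ∀ i : Fin (2 * n + 4), (if t i ≠ none then 2 else 1) =
        1 + (if t i ≠ none then 1 else 0) := by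
      intro i
      split_ifs <;> rfl
    rw [sum_congr rfl (fun i _ => this i), sum_add_distrib, card_filter]
    simp
  have hA : (univ.filter (fun i : Fin (2 * n + 4) => i ≠ 0 ∧ (inf = true ∨ i ≠ 1))).card +
      (if inf = true then 1 else 2) = 2 * n + 4 := by
    by_cases hinf : inf = true
    · simp only [hinf, true_or, and_true, if_true]
      rw [filter_ne', card_erase_of_mem (mem_univ _), card_univ, Fintype.card_fin]
      omega
    · have h01 : (0 : Fin (2 * n + 4)) ≠ 1 := by
        intro h
        have := congrArg Fin.val h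
        simp at this
      have : (univ.filter (fun i : Fin (2 * n + 4) => i ≠ 0 ∧ (inf = true ∨ i ≠ 1))) =
          (univ.erase 0).erase 1 := by
        ext i
        simp [hinf, and_comm]
      rw [this, card_erase_of_mem, card_erase_of_mem (mem_univ _), card_univ, Fintype.card_fin,
        if_neg hinf]
      · omega
      · simp [h01.symm]
  have hfw : fw inf K = (K : ℝ) ^ (if inf = true then 1 else 2) := by
    unfold fw
    split_ifs <;> simp
  show (6 : ℝ) ^ (cS r x t).card / (K : ℝ) ^ (cC r inf x t).card ≤ _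
  calc (6 : ℝ) ^ (cS r x t).card / (K : ℝ) ^ (cC r inf x t).card
      ≤ (6 : ℝ) ^ (∑ i, (sl r x t i).card) / (K : ℝ) ^ (cC r inf x t).card := by
        apply div_le_div_of_nonneg_right _ (by positivity)
        exact pow_le_pow_right₀ (by norm_num) hcardS
    _ = fw inf K * ((6 : ℝ) ^ (∑ i, (sl r x t i).card) /
          (K : ℝ) ^ (∑ i, (if t i ≠ none then 2 else 1))) := by
        have h1 : (∑ i : Fin (2 * n + 4), (if t i ≠ none then 2 else 1)) =
            (cC r inf x t).card + (if inf = true then 1 else 2) := by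
          rw [hsum, hcardC]
          omega
        rw [h1, pow_add, hfw]
        field_simp
    _ ≤ _ := by
        apply mul_le_mul_of_nonneg_left hprod
        rw [hfw]
        positivity

end Pool.Agent.H95.AEC
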