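import Pool.Agent.H95.AEC.CycT

/-!
# AEC-ROLE1: dart `d = raw i`

`d = raw i` implies `(x i, x (i+1)) = d` or `= d.swap`; by `walk2` (both orientations, `M = Nat.sqrt (K/k)`, so
`M² k ≤ K`, `M ≥ 10^10`) there are at most `2 * (5 K² (4kK)^n) / (2M)` walks `x`; the types sum to `≤ (12/K)^(2n+4)`
(`types_free`), and `fw ≤ K²`. So the sum is at most `K² * 5 K² (4kK)^n / M * (12/K)^(2n+4) = 103680/M * (576 k/K)^n`.
-/

set_option autoImplicit false

open Finset

namespace Pool.Agent.H95.AEC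

/-- summing over pairs -/
theorem role_sum_pairs {A B : Type} [Fintype A] [Fintype B] (P : A → Prop) (Q : A → B → Prop)
    (R : A × B → Prop) [DecidablePred P] [∀ x, DecidablePred (Q x)] [DecidablePred R]
    (hR : ∀ y, R y ↔ P y.1 ∧ Q y.1 y.2) (f : B → ℝ) (c : ℝ)
    (h : ∀ x, P x → ∑ t with Q x t, f t ≤ c) :
    ∑ y : A × B with R y, f y.2 ≤ ((univ.filter P).card : ℝ) * c := by
  have h1 : ∑ y : A × B with R y, f y.2 = ∑ x with P x, ∑ t with Q x t, f t := by
    rw [sum_filter, Fintype.sum_prod_type, sum_filter]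
    apply sum_congr rfl
    intro x _
    by_cases hx : P x
    · rw [if_pos hx, sum_filter]
      apply sum_congr rfl
      intro t _
      by_cases hq : Q x t
      · rw [if_pos hq, if_pos ((hR (x, t)).2 ⟨hx, hq⟩)]
      · rw [if_neg hq, if_neg (fun hr => hq ((hR (x, t)).1 hr).2)]
    · rw [if_neg hx]
      apply sum_eq_zero
      intro t _
      rw [if_neg (fun hr => hx ((hR (x, t)).1 hr).1)]
  rw [h1]
  calc ∑ x with P x, ∑ t with Q x t, f t ≤ ∑ x with P x, c := by
        apply sum_le_sum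
        intro x hx
        exact h x (mem_filter.1 hx).2
    _ = _ := by rw [sum_const, nsmul_eq_mul]

theorem role_num {k K : ℕ} (h1 : 1 ≤ k) (hb : 10 ^ 20 * k ^ 2 ≤ K) :
    (0 : ℝ) < K ∧ (k : ℝ) / K ≤ 1 / 10 ^ 20 ∧ (k : ℝ) ^ 2 / K ≤ 1 / 10 ^ 20 ∧
      576 * (k : ℝ) / K ≤ 1 / 4 := by
  have hk : (1 : ℝ) ≤ k := by exact_mod_cast h1
  have hb' : (10 : ℝ) ^ 20 * k ^ 2 ≤ K := by exact_mod_cast hb
  have hK : (0 : ℝ) < K := by nlinarith
  refine ⟨hK, ?_, ?_, ?_⟩
  · rw [div_le_div_iff₀ hK (by norm_num)]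
    nlinarith
  · rw [div_le_div_iff₀ hK (by norm_num)]
    nlinarith
  · rw [div_le_div_iff₀ hK (by norm_num)]
    nlinarith

theorem fw_le {K : ℕ} (hK : (1 : ℝ) ≤ K) (inf : Bool) : fw inf K ≤ (K : ℝ) ^ 2 := by
  unfold fw
  split_ifs
  · nlinarith
  · exact le_refl _

theorem fw_nonneg (inf : Bool) (K : ℕ) : 0 ≤ fw inf K := by
  unfold fw
  split_ifs <;> positivity

open Classical in
/-- ROLE1 -/
theorem role1 {V : Type} [Fintype V] (G : SimpleGraph V) (r : V → ℕ) {k K : ℕ}
    (h : Hyp G r k K) (n : ℕ) (inf : Bool) (d : V × V) (i : Fin (2 * n + 4)) :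
    ∑ y : (Fin (2 * n + 4) → V) × (Fin (2 * n + 4) → Ty V) with
      ((CW G y.1 ∧ ∀ j, okT G r inf (hi r y.1 j) (y.2 j)) ∧ d = raw r y.1 i),
      fw inf K * ∏ j, tw K (y.2 j) ≤ 1 / (2 ^ 14 * 4 ^ n) := by
  obtain ⟨hK, hkK, hkK2, h576⟩ := role_num h.one h.big
  have hK1 : (1 : ℝ) ≤ K := by
    have : 0 < K := by exact_mod_cast hK
    exact_mod_cast this
  have hkpos : (0 : ℝ) ≤ k := by positivity
  have hM : (10 ^ 10) ^ 2 * k ≤ K := by
    refine le_trans ?_ h.big
    have := h.one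
    nlinarith
  have hc1 := walk2 G r h.hr h.up' h.deg' hM n d.1 d.2 i
  have hc2 := walk2 G r h.hr h.up' h.deg' hM n d.2 d.1 i
  have hcount : (univ.filter (fun x : Fin (2 * n + 4) → V => CW G x ∧ d = raw r x i)).card ≤
      (univ.filter (fun x : Fin (2 * n + 4) → V => CW G x ∧ x i = d.1 ∧ x (i + 1) = d.2)).card +
      (univ.filter (fun x : Fin (2 * n + 4) → V => CW G x ∧ x i = d.2 ∧ x (i + 1) = d.1)).card := by
    refine le_trans (card_le_card ?_) (card_union_le _ _)
    intro x hx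
    obtain ⟨hcw, hd⟩ := (mem_filter.1 hx).2
    rw [mem_union, mem_filter, mem_filter]
    subst hd
    unfold raw hi lo
    split_ifs with hlt
    · right
      exact ⟨mem_univ _, hcw, rfl, rfl⟩
    · left
      exact ⟨mem_univ _, hcw, rfl, rfl⟩
  have hcard : ((univ.filter (fun x : Fin (2 * n + 4) → V => CW G x ∧ d = raw r x i)).card : ℝ) ≤
      5 * K ^ 2 * (4 * k * K) ^ n / 10 ^ 10 := by
    rw [le_div_iff₀ (by norm_num)]
    have h1 : 10 ^ 10 * (univ.filter (fun x : Fin (2 * n + 4) → V => CW G x ∧ d = raw r x i)).card ≤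
        5 * K ^ 2 * (4 * k * K) ^ n := by
      have : 2 * (10 ^ 10 *
          (univ.filter (fun x : Fin (2 * n + 4) → V => CW G x ∧ d = raw r x i)).card) ≤
          2 * (5 * K ^ 2 * (4 * k * K) ^ n) := by
        calc 2 * (10 ^ 10 *
              (univ.filter (fun x : Fin (2 * n + 4) → V => CW G x ∧ d = raw r x i)).card)
            ≤ 2 * (10 ^ 10 * (
              (univ.filter (fun x : Fin (2 * n + 4) → V =>
                CW G x ∧ x i = d.1 ∧ x (i + 1) = d.2)).card +
              (univ.filter (fun x : Fin (2 * n + 4) → V =>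
                CW G x ∧ x i = d.2 ∧ x (i + 1) = d.1)).card)) := by
              exact Nat.mul_le_mul_left _ (Nat.mul_le_mul_left _ hcount)
          _ = 2 * 10 ^ 10 * (univ.filter (fun x : Fin (2 * n + 4) → V =>
                CW G x ∧ x i = d.1 ∧ x (i + 1) = d.2)).card +
              2 * 10 ^ 10 * (univ.filter (fun x : Fin (2 * n + 4) → V =>
                CW G x ∧ x i = d.2 ∧ x (i + 1) = d.1)).card := by ring
          _ ≤ _ := by
              refine le_trans (Nat.add_le_add hc1 hc2) (le_of_eq ?_)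
              ring
      omega
    have h2 : ((10 ^ 10 *
        (univ.filter (fun x : Fin (2 * n + 4) → V => CW G x ∧ d = raw r x i)).card : ℕ) : ℝ) ≤
        ((5 * K ^ 2 * (4 * k * K) ^ n : ℕ) : ℝ) := by exact_mod_cast h1
    push_cast at h2
    linarith
  have hmain := role_sum_pairs (fun x : Fin (2 * n + 4) → V => CW G x ∧ d = raw r x i)
    (fun x (t : Fin (2 * n + 4) → Ty V) => ∀ j, okT G r inf (hi r x j) (t j))
    (fun y => (CW G y.1 ∧ ∀ j, okT G r inf (hi r y.1 j) (y.2 j)) ∧ d = raw r y.1 i)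
    (fun y => by tauto) (fun t => fw inf K * ∏ j, tw K (t j))
    ((K : ℝ) ^ 2 * (12 / (K : ℝ)) ^ (2 * n + 4)) (by
      intro x _
      rw [← mul_sum]
      have h1 := types_free G r h inf x
      exact le_trans (mul_le_mul_of_nonneg_left h1 (fw_nonneg inf K))
        (mul_le_mul_of_nonneg_right (fw_le hK1 inf) (by positivity)))
  refine le_trans hmain ?_
  calc ((univ.filter (fun x : Fin (2 * n + 4) → V => CW G x ∧ d = raw r x i)).card : ℝ) *
        ((K : ℝ) ^ 2 * (12 / (K : ℝ)) ^ (2 * n + 4))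
      ≤ (5 * K ^ 2 * (4 * k * K) ^ n / 10 ^ 10) *
        ((K : ℝ) ^ 2 * (12 / (K : ℝ)) ^ (2 * n + 4)) :=
        mul_le_mul_of_nonneg_right hcard (by positivity)
    _ = 103680 / 10 ^ 10 * (576 * k / K) ^ n := by
        have e1 : (12 / (K : ℝ)) ^ (2 * n + 4) = 20736 / K ^ 4 * (144 / K ^ 2) ^ n := by
          rw [pow_add, pow_mul, div_pow, div_pow]
          norm_num
          ring
        have e2 : (4 * (k : ℝ) * K) ^ n * (144 / (K : ℝ) ^ 2) ^ n = (576 * k / K) ^ n := by
          rw [← mul_pow]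
          congr 1
          field_simp
          ring
        rw [e1, ← e2]
        field_simp
        ring
    _ ≤ 103680 / 10 ^ 10 * (1 / 4) ^ n := by
        apply mul_le_mul_of_nonneg_left _ (by norm_num)
        exact pow_le_pow_left₀ (by positivity) h576 n
    _ ≤ 1 / 2 ^ 14 * (1 / 4) ^ n := by
        apply mul_le_mul_of_nonneg_right _ (by positivity)
        norm_num
    _ = _ := by
        rw [div_pow, one_pow, ← one_div_mul_one_div]

end Pool.Agent.H95.AEC
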