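import Pool.Agent.H95.AEC.CycT
import Pool.Agent.H95.AEC.Role1

/-!
# AEC-ROLE2: darts `d = (a, hi i)` and `d = (hi i, a)`

`hi i = v` implies `x i = v` or `x (i+1) = v`; by `walk1` at most `2 K (4kK)^(n+1)` walks `x`; types
`≤ (1512 k/K²) * (12/K)^(2n+3)` (`types_res`, `type_sum1`), `fw ≤ K²`. Total
`≤ K² * 2K (4kK)^(n+1) * 1512 k/K² * (12/K)^(2n+3) = 20901888 k²/K * (576 k/K)^n`.
-/

set_option autoImplicit false

open Finset

namespace Pool.Agent.H95.AEC

open Classical in
theorem role_count_hi {V : Type} [Fintype V] (G : SimpleGraph V) (r : V → ℕ) {k K : ℕ}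
    (h : Hyp G r k K) (n : ℕ) (v : V) (i : Fin (2 * n + 4)) :
    (univ.filter (fun x : Fin (2 * n + 4) → V => CW G x ∧ hi r x i = v)).card ≤
      2 * (K * (4 * k * K) ^ (n + 1)) := by
  have hc1 := walk1 G r h.hr h.up' h.deg' n v i
  have hc2 := walk1 G r h.hr h.up' h.deg' n v (i + 1)
  have hcount : (univ.filter (fun x : Fin (2 * n + 4) → V => CW G x ∧ hi r x i = v)).card ≤
      (univ.filter (fun x : Fin (2 * n + 4) → V => CW G x ∧ x i = v)).card +
      (univ.filter (fun x : Fin (2 * n + 4) → V => CW G x ∧ x (i + 1) = v)).card := by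
    refine le_trans (card_le_card ?_) (card_union_le _ _)
    intro x hx
    obtain ⟨hcw, hd⟩ := (mem_filter.1 hx).2
    rw [mem_union, mem_filter, mem_filter]
    subst hd
    unfold hi
    split_ifs with hlt
    · right
      exact ⟨mem_univ _, hcw, rfl⟩
    · left
      exact ⟨mem_univ _, hcw, rfl⟩
  omega

open Classical in
/-- ROLE2 -/
theorem role2 {V : Type} [Fintype V] (G : SimpleGraph V) (r : V → ℕ) {k K : ℕ}
    (h : Hyp G r k K) (n : ℕ) (inf : Bool) (v a : V) (i : Fin (2 * n + 4)) :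
    ∑ y : (Fin (2 * n + 4) → V) × (Fin (2 * n + 4) → Ty V) with
      ((CW G y.1 ∧ ∀ j, okT G r inf (hi r y.1 j) (y.2 j)) ∧ hi r y.1 i = v ∧
        ∃ o, y.2 i = some (a, o)),
      fw inf K * ∏ j, tw K (y.2 j) ≤ 1 / (2 ^ 14 * 4 ^ n) := by
  obtain ⟨hK, hkK, hkK2, h576⟩ := role_num h.one h.big
  have hK1 : (1 : ℝ) ≤ K := by
    have : 0 < K := by exact_mod_cast hK
    exact_mod_cast this
  have hkpos : (0 : ℝ) ≤ k := by positivity
  have hcard : ((univ.filter (fun x : Fin (2 * n + 4) → V => CW G x ∧ hi r x i = v)).card : ℝ) ≤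
      2 * (K * (4 * k * K) ^ (n + 1)) := by
    have := role_count_hi G r h n v i
    have h2 : ((univ.filter (fun x : Fin (2 * n + 4) → V => CW G x ∧ hi r x i = v)).card : ℝ) ≤
        ((2 * (K * (4 * k * K) ^ (n + 1)) : ℕ) : ℝ) := by exact_mod_cast this
    push_cast at h2
    exact h2
  have hmain := role_sum_pairs (fun x : Fin (2 * n + 4) → V => CW G x ∧ hi r x i = v)
    (fun x (t : Fin (2 * n + 4) → Ty V) => (∀ j, okT G r inf (hi r x j) (t j)) ∧
      ∃ o, t i = some (a, o))
    (fun y => (CW G y.1 ∧ ∀ j, okT G r inf (hi r y.1 j) (y.2 j)) ∧ hi r y.1 i = v ∧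
        ∃ o, y.2 i = some (a, o))
    (fun y => by tauto) (fun t => fw inf K * ∏ j, tw K (t j))
    ((K : ℝ) ^ 2 * (1512 * k / (K : ℝ) ^ 2 * (12 / (K : ℝ)) ^ (2 * n + 3))) (by
      intro x _
      rw [← mul_sum]
      have h1 := types_res G r h inf x i (fun τ => ∃ o, τ = some (a, o))
        (1512 * k / (K : ℝ) ^ 2) (by
          refine le_trans (le_of_eq ?_) (type_sum1 G r h inf (hi r x i) a)
          apply sum_congr _ (fun _ _ => rfl)
          ext τ
          simp only [mem_filter])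
      refine le_trans (mul_le_mul_of_nonneg_left (le_trans (le_of_eq ?_) h1) (fw_nonneg inf K))
        (mul_le_mul_of_nonneg_right (fw_le hK1 inf) (by positivity))
      apply sum_congr _ (fun _ _ => rfl)
      ext τ
      simp only [mem_filter])
  refine le_trans hmain ?_
  calc ((univ.filter (fun x : Fin (2 * n + 4) → V => CW G x ∧ hi r x i = v)).card : ℝ) *
        ((K : ℝ) ^ 2 * (1512 * k / (K : ℝ) ^ 2 * (12 / (K : ℝ)) ^ (2 * n + 3)))
      ≤ (2 * (K * (4 * k * K) ^ (n + 1))) *
        ((K : ℝ) ^ 2 * (1512 * k / (K : ℝ) ^ 2 * (12 / (K : ℝ)) ^ (2 * n + 3))) :=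
        mul_le_mul_of_nonneg_right hcard (by positivity)
    _ = 20901888 * ((k : ℝ) ^ 2 / K) * (576 * k / K) ^ n := by
        have e1 : (12 / (K : ℝ)) ^ (2 * n + 3) = 1728 / K ^ 3 * (144 / K ^ 2) ^ n := by
          rw [pow_add, pow_mul, div_pow, div_pow]
          norm_num
          ring
        have e2 : (4 * (k : ℝ) * K) ^ n * (144 / (K : ℝ) ^ 2) ^ n = (576 * k / K) ^ n := by
          rw [← mul_pow]
          congr 1
          field_simp
          ring
        rw [e1, ← e2]
        field_simp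
        ring
    _ ≤ 20901888 * (1 / 10 ^ 20) * (1 / 4) ^ n := by
        apply mul_le_mul
        · exact mul_le_mul_of_nonneg_left hkK2 (by norm_num)
        · exact pow_le_pow_left₀ (by positivity) h576 n
        · positivity
        · norm_num
    _ ≤ 1 / 2 ^ 14 * (1 / 4) ^ n := by
        apply mul_le_mul_of_nonneg_right _ (by positivity)
        norm_num
    _ = _ := by
        rw [div_pow, one_pow, ← one_div_mul_one_div]

end Pool.Agent.H95.AEC
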