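import Pool.Agent.H95.AEC.CycT
import Pool.Agent.H95.AEC.Role2

/-!
# AEC-ROLE3: darts `d = (b, a)` and `d = (a, b)`

If `inf = false` the sum is empty (`okT`). If `inf = true`, `fw = K`; `v = hi i` is one of the `≤ K` lower neighbours of
`a` (`okT` gives `Up (hi i) a`), `x i = v` or `x (i+1) = v`; by `walk1` at most `K * 2 K (4kK)^(n+1)` walks `x`; types
`≤ 1296/K² * (12/K)^(2n+3)` (`types_res` with `Q τ := τ = some (a, some b)`). Total
`≤ K * 2 K² (4kK)^(n+1) * 1296/K² * (12/K)^(2n+3) = 17915904 k/K * (576 k/K)^n`.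
-/

set_option autoImplicit false

open Finset

namespace Pool.Agent.H95.AEC

open Classical in
theorem role_count_up {V : Type} [Fintype V] (G : SimpleGraph V) (r : V → ℕ) {k K : ℕ}
    (h : Hyp G r k K) (n : ℕ) (a : V) (i : Fin (2 * n + 4)) :
    (univ.filter (fun x : Fin (2 * n + 4) → V => CW G x ∧ Up G r (hi r x i) a)).card ≤
      K * (2 * (K * (4 * k * K) ^ (n + 1))) := by
  have h1 : (univ.filter (fun x : Fin (2 * n + 4) → V => CW G x ∧ Up G r (hi r x i) a)) ⊆
      (univ.filter (fun v => Up G r v a)).biUnion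
        (fun v => univ.filter (fun x : Fin (2 * n + 4) → V => CW G x ∧ hi r x i = v)) := by
    intro x hx
    obtain ⟨hcw, hd⟩ := (mem_filter.1 hx).2
    rw [mem_biUnion]
    exact ⟨hi r x i, mem_filter.2 ⟨mem_univ _, hd⟩, mem_filter.2 ⟨mem_univ _, hcw, rfl⟩⟩
  refine le_trans (card_le_card h1) ?_
  refine le_trans (card_biUnion_le_card_mul _ _ _ (fun v _ => role_count_hi G r h n v i)) ?_
  exact Nat.mul_le_mul_right _ (h.down' a)

open Classical in
/-- ROLE3 -/
theorem role3 {V : Type} [Fintype V] (G : SimpleGraph V) (r : V → ℕ) {k K : ℕ}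
    (h : Hyp G r k K) (n : ℕ) (inf : Bool) (a b : V) (i : Fin (2 * n + 4)) :
    ∑ y : (Fin (2 * n + 4) → V) × (Fin (2 * n + 4) → Ty V) with
      ((CW G y.1 ∧ ∀ j, okT G r inf (hi r y.1 j) (y.2 j)) ∧ y.2 i = some (a, some b)),
      fw inf K * ∏ j, tw K (y.2 j) ≤ 1 / (2 ^ 14 * 4 ^ n) := by
  obtain ⟨hK, hkK, hkK2, h576⟩ := role_num h.one h.big
  have hK1 : (1 : ℝ) ≤ K := by
    have : 0 < K := by exact_mod_cast hK
    exact_mod_cast this
  have hkpos : (0 : ℝ) ≤ k := by positivity
  by_cases hinf : inf = true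
  swap
  · rw [filter_false_of_mem, sum_empty]
    · positivity
    · rintro y - ⟨⟨-, hok⟩, hy⟩
      have := hok i
      rw [hy] at this
      exact hinf this.2.2
  have hcard : ((univ.filter (fun x : Fin (2 * n + 4) → V =>
      CW G x ∧ Up G r (hi r x i) a)).card : ℝ) ≤
      K * (2 * (K * (4 * k * K) ^ (n + 1))) := by
    have := role_count_up G r h n a i
    have h2 : ((univ.filter (fun x : Fin (2 * n + 4) → V =>
        CW G x ∧ Up G r (hi r x i) a)).card : ℝ) ≤
        ((K * (2 * (K * (4 * k * K) ^ (n + 1))) : ℕ) : ℝ) := by exact_mod_cast this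
    push_cast at h2
    exact h2
  have hty : ∀ v, ∑ τ with (okT G r inf v τ ∧ τ = some (a, some b)), tw K τ ≤
      1296 / (K : ℝ) ^ 2 := by
    intro v
    calc ∑ τ with (okT G r inf v τ ∧ τ = some (a, some b)), tw K τ
        ≤ ∑ τ ∈ {(some (a, some b) : Ty V)}, tw K τ := by
          apply sum_le_sum_of_subset_of_nonneg
          · intro τ hτ
            rw [mem_singleton]
            exact (mem_filter.1 hτ).2.2
          · intro τ _ _
            rcases τ with _ | ⟨a, _ | b⟩ <;> (unfold tw; positivity)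
      _ = _ := by
          rw [sum_singleton]
          rfl
  have hfw : fw inf K = K := by
    unfold fw
    rw [if_pos hinf]
  have hmain := role_sum_pairs (fun x : Fin (2 * n + 4) → V => CW G x ∧ Up G r (hi r x i) a)
    (fun x (t : Fin (2 * n + 4) → Ty V) => (∀ j, okT G r inf (hi r x j) (t j)) ∧
      t i = some (a, some b))
    (fun y => (CW G y.1 ∧ ∀ j, okT G r inf (hi r y.1 j) (y.2 j)) ∧ y.2 i = some (a, some b))
    (fun y => by
      constructor
      · rintro ⟨⟨h1, h2⟩, h3⟩
        refine ⟨⟨h1, ?_⟩, h2, h3⟩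
        have := h2 i
        rw [h3] at this
        exact this.1
      · rintro ⟨⟨h1, -⟩, h2, h3⟩
        exact ⟨⟨h1, h2⟩, h3⟩) (fun t => fw inf K * ∏ j, tw K (t j))
    ((K : ℝ) * (1296 / (K : ℝ) ^ 2 * (12 / (K : ℝ)) ^ (2 * n + 3))) (by
      intro x _
      rw [← mul_sum]
      have h1 := types_res G r h inf x i (fun τ => τ = some (a, some b))
        (1296 / (K : ℝ) ^ 2) (by
          refine le_trans (le_of_eq ?_) (hty (hi r x i))
          apply sum_congr _ (fun _ _ => rfl)
          ext τ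
          simp only [mem_filter])
      rw [hfw]
      refine mul_le_mul_of_nonneg_left (le_trans (le_of_eq ?_) h1) hK.le
      apply sum_congr _ (fun _ _ => rfl)
      ext τ
      simp only [mem_filter])
  refine le_trans hmain ?_
  calc ((univ.filter (fun x : Fin (2 * n + 4) → V => CW G x ∧ Up G r (hi r x i) a)).card : ℝ) *
        ((K : ℝ) * (1296 / (K : ℝ) ^ 2 * (12 / (K : ℝ)) ^ (2 * n + 3)))
      ≤ (K * (2 * (K * (4 * k * K) ^ (n + 1)))) *
        ((K : ℝ) * (1296 / (K : ℝ) ^ 2 * (12 / (K : ℝ)) ^ (2 * n + 3))) :=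
        mul_le_mul_of_nonneg_right hcard (by positivity)
    _ = 17915904 * ((k : ℝ) / K) * (576 * k / K) ^ n := by
        have e1 : (12 / (K : ℝ)) ^ (2 * n + 3) = 1728 / K ^ 3 * (144 / K ^ 2) ^ n := by
          rw [pow_add, pow_mul, div_pow, div_pow]
          norm_num
          ring
        have e2 : (4 * (k : ℝ) * K) ^ n * (144 / (K : ℝ) ^ 2) ^ n = (576 * k / K) ^ n := by
          rw [← mul_pow]
          congr 1
          field_simp
          ring
        rw [e1, ← e2]
        field_simp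
        ring
    _ ≤ 17915904 * (1 / 10 ^ 20) * (1 / 4) ^ n := by
        apply mul_le_mul
        · exact mul_le_mul_of_nonneg_left hkK (by norm_num)
        · exact pow_le_pow_left₀ (by positivity) h576 n
        · positivity
        · norm_num
    _ ≤ 1 / 2 ^ 14 * (1 / 4) ^ n := by
        apply mul_le_mul_of_nonneg_right _ (by positivity)
        norm_num
    _ = _ := by
        rw [div_pow, one_pow, ← one_div_mul_one_div]

end Pool.Agent.H95.AEC
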