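import Pool.Agent.H95.AEC.Role1
import Pool.Agent.H95.AEC.Role2
import Pool.Agent.H95.AEC.Role3

/-!
# AEC-CYCSUM: the total weight of the cycle shapes of length `2n+4` through a given dart

`Valid` implies `CW` and `okT`. A dart `d ∈ cS` is in `sl i` for some `i` (`2n+4` choices), with five roles:
`d = raw i` (`role1`); `d = (a, hi i)` (`role2` with `v = d.2`, `a = d.1`); `d = (hi i, a)` (`role2` with `v = d.1`, `a = d.2`);
`d = (b, a)` (`role3` with `a = d.2`, `b = d.1`), `d = (a, b)` (`role3` with `a = d.1`, `b = d.2`).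
Sum `≤ (2n+4) * 5 / (2^14 4^n) ≤ 1 / (2^8 2^n)`.
-/

set_option autoImplicit false

open Finset

namespace Pool.Agent.H95.AEC

theorem cycsum_aux (n : ℕ) :
    ((2 * n + 4 : ℕ) : ℝ) * (5 * (1 / (2 ^ 14 * 4 ^ n))) ≤ 1 / (2 ^ 8 * 2 ^ n) := by
  have h1 : ((2 * n + 4 : ℕ) : ℝ) * 5 ≤ 2 ^ 6 * 2 ^ n := by
    have : ∀ m : ℕ, (2 * m + 4) * 5 ≤ 2 ^ 6 * 2 ^ m := by
      intro m
      induction m with
      | zero => norm_num
      | succ m ih =>
        rw [pow_succ 2 m]
        omega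
    exact_mod_cast this n
  have h2 : (4 : ℝ) ^ n = 2 ^ n * 2 ^ n := by
    rw [← mul_pow]; norm_num
  have h3 : (0 : ℝ) < 2 ^ n := by positivity
  rw [h2, ← mul_assoc, mul_one_div, div_le_div_iff₀ (by positivity) (by positivity)]
  calc ((2 * n + 4 : ℕ) : ℝ) * 5 * (2 ^ 8 * 2 ^ n) ≤ 2 ^ 6 * 2 ^ n * (2 ^ 8 * 2 ^ n) :=
        mul_le_mul_of_nonneg_right h1 (by positivity)
    _ = 1 * (2 ^ 14 * (2 ^ n * 2 ^ n)) := by ring

theorem cycsum_tw_nonneg {V : Type} (K : ℕ) (τ : Ty V) : 0 ≤ tw K τ := by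
  unfold tw
  split <;> positivity

theorem cycsum_fw_nonneg (inf : Bool) (K : ℕ) : 0 ≤ fw inf K := by
  unfold fw
  split <;> positivity

theorem cycsum_valid_okT {V : Type} {G : SimpleGraph V} {r : V → ℕ} {n : ℕ} {inf : Bool}
    {x : Fin (2 * n + 4) → V} {t : Fin (2 * n + 4) → Ty V} (hv : Valid G r inf x t)
    (j : Fin (2 * n + 4)) : okT G r inf (hi r x j) (t j) := by
  rcases hj : t j with _ | ⟨a, _ | b⟩
  · exact trivial
  · exact hv.up1 j a none hj
  · exact ⟨hv.up1 j a (some b) hj, hv.up2 j a b hj, hv.kind j a b hj⟩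

open Classical in
theorem cycsum_mem_roles {V : Type} {r : V → ℕ} {n : ℕ}
    {x : Fin (2 * n + 4) → V} {t : Fin (2 * n + 4) → Ty V} {d : V × V} (hd : d ∈ cS r x t) :
    ∃ i, d = raw r x i ∨ (hi r x i = d.2 ∧ ∃ o, t i = some (d.1, o)) ∨
      (hi r x i = d.1 ∧ ∃ o, t i = some (d.2, o)) ∨ t i = some (d.2, some d.1) ∨
      t i = some (d.1, some d.2) := by
  unfold cS at hd
  rw [mem_biUnion] at hd
  obtain ⟨i, -, hi'⟩ := hd
  refine ⟨i, ?_⟩
  unfold sl at hi'
  rcases hj : t i with _ | ⟨a, _ | b⟩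
  · rw [hj] at hi'
    simp only [mem_singleton] at hi'
    exact Or.inl hi'
  · rw [hj] at hi'
    simp only [mem_insert, mem_singleton] at hi'
    rcases hi' with rfl | rfl | rfl
    · exact Or.inl rfl
    · exact Or.inr (Or.inl ⟨rfl, none, rfl⟩)
    · exact Or.inr (Or.inr (Or.inl ⟨rfl, none, rfl⟩))
  · rw [hj] at hi'
    simp only [mem_insert, mem_singleton] at hi'
    rcases hi' with rfl | rfl | rfl | rfl
    · exact Or.inl rfl
    · exact Or.inr (Or.inl ⟨rfl, some b, rfl⟩)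
    · exact Or.inr (Or.inr (Or.inr (Or.inl rfl)))
    · exact Or.inr (Or.inr (Or.inr (Or.inr rfl)))

theorem cycsum_filter_le_five {α ι : Type} [Fintype α] [Fintype ι] (f : α → ℝ) (hf0 : ∀ y, 0 ≤ f y)
    (P : α → Prop) (A1 A2 A3 A4 A5 : ι → α → Prop) [DecidablePred P]
    [∀ i, DecidablePred (A1 i)] [∀ i, DecidablePred (A2 i)] [∀ i, DecidablePred (A3 i)]
    [∀ i, DecidablePred (A4 i)] [∀ i, DecidablePred (A5 i)]
    (hP : ∀ y, P y → ∃ i, A1 i y ∨ A2 i y ∨ A3 i y ∨ A4 i y ∨ A5 i y) (c : ℝ)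
    (e1 : ∀ i, ∑ y with A1 i y, f y ≤ c) (e2 : ∀ i, ∑ y with A2 i y, f y ≤ c)
    (e3 : ∀ i, ∑ y with A3 i y, f y ≤ c) (e4 : ∀ i, ∑ y with A4 i y, f y ≤ c)
    (e5 : ∀ i, ∑ y with A5 i y, f y ≤ c) :
    ∑ y with P y, f y ≤ (Fintype.card ι : ℝ) * (5 * c) := by
  have hnn : ∀ (Q : α → Prop) [DecidablePred Q] y, 0 ≤ (if Q y then f y else 0) := by
    intro Q _ y
    split
    · exact hf0 y
    · exact le_rfl
  have hpt : ∀ y, (if P y then f y else 0) ≤
      ∑ i, ((if A1 i y then f y else 0) + (if A2 i y then f y else 0) +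
        (if A3 i y then f y else 0) + (if A4 i y then f y else 0) +
        (if A5 i y then f y else 0)) := by
    intro y
    have hterm : ∀ i, 0 ≤ ((if A1 i y then f y else 0) + (if A2 i y then f y else 0) +
        (if A3 i y then f y else 0) + (if A4 i y then f y else 0) +
        (if A5 i y then f y else 0)) := fun i =>
      add_nonneg (add_nonneg (add_nonneg (add_nonneg (hnn (A1 i) y) (hnn (A2 i) y))
        (hnn (A3 i) y)) (hnn (A4 i) y)) (hnn (A5 i) y)
    by_cases hPy : P y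
    · rw [if_pos hPy]
      obtain ⟨i, hi'⟩ := hP y hPy
      refine le_trans ?_ (single_le_sum (fun i _ => hterm i) (mem_univ i))
      have g1 := hnn (A1 i) y
      have g2 := hnn (A2 i) y
      have g3 := hnn (A3 i) y
      have g4 := hnn (A4 i) y
      have g5 := hnn (A5 i) y
      rcases hi' with hh | hh | hh | hh | hh
      · rw [if_pos hh] at g1 ⊢
        linarith
      · rw [if_pos hh] at g2 ⊢
        linarith
      · rw [if_pos hh] at g3 ⊢
        linarith
      · rw [if_pos hh] at g4 ⊢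
        linarith
      · rw [if_pos hh] at g5 ⊢
        linarith
    · rw [if_neg hPy]
      exact sum_nonneg fun i _ => hterm i
  calc ∑ y with P y, f y
      = ∑ y, (if P y then f y else 0) :=
        sum_filter _ _
    _ ≤ ∑ y, ∑ i, ((if A1 i y then f y else 0) + (if A2 i y then f y else 0) +
        (if A3 i y then f y else 0) + (if A4 i y then f y else 0) +
        (if A5 i y then f y else 0)) := sum_le_sum fun y _ => hpt y
    _ = ∑ i, ∑ y, ((if A1 i y then f y else 0) + (if A2 i y then f y else 0) +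
        (if A3 i y then f y else 0) + (if A4 i y then f y else 0) +
        (if A5 i y then f y else 0)) := sum_comm
    _ = ∑ i, (∑ y with A1 i y, f y + ∑ y with A2 i y, f y + ∑ y with A3 i y, f y +
        ∑ y with A4 i y, f y + ∑ y with A5 i y, f y) := by
        refine sum_congr rfl fun i _ => ?_
        rw [sum_add_distrib, sum_add_distrib, sum_add_distrib, sum_add_distrib,
          ← sum_filter, ← sum_filter, ← sum_filter, ← sum_filter, ← sum_filter]
    _ ≤ ∑ i : ι, (5 * c) := by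
        refine sum_le_sum fun i _ => ?_
        linarith [e1 i, e2 i, e3 i, e4 i, e5 i]
    _ = (Fintype.card ι : ℝ) * (5 * c) := by
        rw [sum_const, card_univ, nsmul_eq_mul]

open Classical in
/-- CYCSUM -/
theorem cycsum {V : Type} [Fintype V] (G : SimpleGraph V) (r : V → ℕ) {k K : ℕ}
    (h : Hyp G r k K) (n : ℕ) (inf : Bool) (d : V × V) :
    ∑ y : (Fin (2 * n + 4) → V) × (Fin (2 * n + 4) → Ty V) with
      (Valid G r inf y.1 y.2 ∧ d ∈ cS r y.1 y.2), fw inf K * ∏ j, tw K (y.2 j) ≤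
      1 / (2 ^ 8 * 2 ^ n) := by
  refine le_trans (cycsum_filter_le_five (ι := Fin (2 * n + 4))
    (fun y : (Fin (2 * n + 4) → V) × (Fin (2 * n + 4) → Ty V) => fw inf K * ∏ j, tw K (y.2 j))
    (fun y => mul_nonneg (cycsum_fw_nonneg inf K) (prod_nonneg fun j _ => cycsum_tw_nonneg K _))
    (fun y => Valid G r inf y.1 y.2 ∧ d ∈ cS r y.1 y.2)
    (fun i y => (CW G y.1 ∧ ∀ j, okT G r inf (hi r y.1 j) (y.2 j)) ∧ d = raw r y.1 i)
    (fun i y => (CW G y.1 ∧ ∀ j, okT G r inf (hi r y.1 j) (y.2 j)) ∧ hi r y.1 i = d.2 ∧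
      ∃ o, y.2 i = some (d.1, o))
    (fun i y => (CW G y.1 ∧ ∀ j, okT G r inf (hi r y.1 j) (y.2 j)) ∧ hi r y.1 i = d.1 ∧
      ∃ o, y.2 i = some (d.2, o))
    (fun i y => (CW G y.1 ∧ ∀ j, okT G r inf (hi r y.1 j) (y.2 j)) ∧
      y.2 i = some (d.2, some d.1))
    (fun i y => (CW G y.1 ∧ ∀ j, okT G r inf (hi r y.1 j) (y.2 j)) ∧
      y.2 i = some (d.1, some d.2))
    ?_ _ (fun i => role1 G r h n inf d i) (fun i => role2 G r h n inf d.2 d.1 i)
    (fun i => role2 G r h n inf d.1 d.2 i) (fun i => role3 G r h n inf d.2 d.1 i)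
    (fun i => role3 G r h n inf d.1 d.2 i)) ?_
  · rintro y ⟨hv, hd⟩
    obtain ⟨i, hi'⟩ := cycsum_mem_roles hd
    have hB : CW G y.1 ∧ ∀ j, okT G r inf (hi r y.1 j) (y.2 j) :=
      ⟨hv.adj, fun j => cycsum_valid_okT hv j⟩
    exact ⟨i, by tauto⟩
  · rw [Fintype.card_fin]
    exact cycsum_aux n

end Pool.Agent.H95.AEC
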