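import Pool.Agent.H95.AEC.CycPat

/-!
# AEC-CYCT: sums over the types of the edges

(T) `∑ τ with okT v τ, tw K τ ≤ 6/K + k 216/K² + k² 1296/K² ≤ 12/K` (as `K ≥ 10^20 k²`).
(T1) `∑ τ with okT v τ ∧ τ is of the form some (a, _), tw K τ ≤ 216/K² + k 1296/K²` for fixed `a`.
Products: `∑ t with (∀ j, okT (hi j) (t j)), ∏ j, tw K (t j) = ∏ j, ∑ τ with okT (hi j) τ, tw K τ`
(`Finset.prod_univ_sum`, `Fintype.piFinset`).
-/

set_option autoImplicit false

open Finset

namespace Pool.Agent.H95.AEC

/-- admissible types for an edge with upper end `v` -/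
def okT {V : Type} (G : SimpleGraph V) (r : V → ℕ) (inf : Bool) (v : V) : Ty V → Prop
  | none => True
  | some (a, none) => Up G r v a
  | some (a, some b) => Up G r v a ∧ Up G r a b ∧ inf = true

theorem tw_nonneg {V : Type} (K : ℕ) (τ : Ty V) : 0 ≤ tw K τ := by
  rcases τ with _ | ⟨a, _ | b⟩ <;> simp only [tw] <;> positivity

open Classical in
/-- the sum over the third component -/
theorem type_sum_b {V : Type} [Fintype V] (G : SimpleGraph V) (r : V → ℕ) {k K : ℕ}
    (h : Hyp G r k K) (inf : Bool) (v a : V) :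
    ∑ b : V, (if okT G r inf v (some (a, some b)) then tw K (some (a, some b)) else 0) ≤
      k * (1296 / (K : ℝ) ^ 2) := by
  have h1 : ∀ b : V, (if okT G r inf v (some (a, some b)) then tw K (some (a, some b)) else 0) ≤
      (if Up G r a b then 1296 / (K : ℝ) ^ 2 else 0) := by
    intro b
    by_cases hb : Up G r a b
    · rw [if_pos hb]
      by_cases hc : okT G r inf v (some (a, some b))
      · rw [if_pos hc]
        exact le_of_eq rfl
      · rw [if_neg hc]
        positivity
    · rw [if_neg hb, if_neg (fun hc : okT G r inf v (some (a, some b)) => hb hc.2.1)]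
  refine (Finset.sum_le_sum fun b _ => h1 b).trans ?_
  rw [← Finset.sum_filter, Finset.sum_const, nsmul_eq_mul]
  refine mul_le_mul_of_nonneg_right ?_ (by positivity)
  exact_mod_cast h.up' a

open Classical in
/-- type sum -/
theorem type_sum {V : Type} [Fintype V] (G : SimpleGraph V) (r : V → ℕ) {k K : ℕ}
    (h : Hyp G r k K) (inf : Bool) (v : V) :
    ∑ τ with okT G r inf v τ, tw K τ ≤ 12 / (K : ℝ) := by
  rw [Finset.sum_filter, Fintype.sum_option, Fintype.sum_prod_type]
  have h0 : (if okT G r inf v none then tw K (none : Ty V) else 0) = 6 / (K : ℝ) := by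
    simp [okT, tw]
  rw [h0]
  have hk : (1 : ℝ) ≤ k := by exact_mod_cast h.one
  have hK : (10 : ℝ) ^ 20 * (k : ℝ) ^ 2 ≤ K := by exact_mod_cast h.big
  have hK0 : (0 : ℝ) < K := by nlinarith
  have h1 : ∀ a : V, ∑ o : Option V, (if okT G r inf v (some (a, o)) then tw K (some (a, o)) else 0) ≤
      (if Up G r v a then 216 / (K : ℝ) ^ 2 + k * (1296 / (K : ℝ) ^ 2) else 0) := by
    intro a
    rw [Fintype.sum_option]
    by_cases ha : Up G r v a
    · rw [if_pos ha]
      refine add_le_add ?_ (type_sum_b G r h inf v a)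
      simp [okT, tw, ha]
    · rw [if_neg ha]
      have h2 : ∀ b : V, (if okT G r inf v (some (a, some b)) then tw K (some (a, some b))
          else 0) = 0 := fun b => if_neg fun hc => ha hc.1
      simp [okT, ha]
  have h3 := Finset.sum_le_sum fun a (_ : a ∈ (univ : Finset V)) => h1 a
  rw [← Finset.sum_filter, Finset.sum_const, nsmul_eq_mul] at h3
  have h4 : ((univ.filter fun a => Up G r v a).card : ℝ) ≤ k := by exact_mod_cast h.up' v
  have h5 : ((univ.filter fun a => Up G r v a).card : ℝ) *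
      (216 / (K : ℝ) ^ 2 + k * (1296 / (K : ℝ) ^ 2)) ≤ 6 / (K : ℝ) := by
    calc ((univ.filter fun a => Up G r v a).card : ℝ) *
          (216 / (K : ℝ) ^ 2 + k * (1296 / (K : ℝ) ^ 2)) ≤
          k * (216 / (K : ℝ) ^ 2 + k * (1296 / (K : ℝ) ^ 2)) :=
          mul_le_mul_of_nonneg_right h4 (by positivity)
      _ = (216 * k + 1296 * k ^ 2) / K / K := by
          field_simp
      _ ≤ 6 / (K : ℝ) := by
          refine div_le_div_of_nonneg_right ?_ hK0.le
          rw [div_le_iff₀ hK0]
          nlinarith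
  calc 6 / (K : ℝ) + ∑ a : V, ∑ o : Option V,
        (if okT G r inf v (some (a, o)) then tw K (some (a, o)) else 0) ≤ 6 / (K : ℝ) + 6 / K :=
        add_le_add le_rfl (h3.trans h5)
    _ = 12 / (K : ℝ) := by ring

open Classical in
/-- type sum with given `a` -/
theorem type_sum1 {V : Type} [Fintype V] (G : SimpleGraph V) (r : V → ℕ) {k K : ℕ}
    (h : Hyp G r k K) (inf : Bool) (v a : V) :
    ∑ τ with (okT G r inf v τ ∧ ∃ o, τ = some (a, o)), tw K τ ≤ 1512 * k / (K : ℝ) ^ 2 := by
  have hk : (1 : ℝ) ≤ k := by exact_mod_cast h.one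
  rw [Finset.sum_filter, Fintype.sum_option, Fintype.sum_prod_type]
  have h0 : (if okT G r inf v none ∧ ∃ o, (none : Ty V) = some (a, o) then tw K (none : Ty V)
      else 0) = 0 := by
    rw [if_neg]
    rintro ⟨-, o, ho⟩
    cases ho
  rw [h0, zero_add, Finset.sum_eq_single a]
  · rw [Fintype.sum_option]
    have h1 : (if okT G r inf v (some (a, none)) ∧ ∃ o, (some (a, none) : Ty V) = some (a, o)
        then tw K (some (a, none) : Ty V) else 0) ≤ 216 / (K : ℝ) ^ 2 := by
      split_ifs
      · exact le_rfl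
      · positivity
    have h2 : ∑ b : V, (if okT G r inf v (some (a, some b)) ∧
        ∃ o, (some (a, some b) : Ty V) = some (a, o) then tw K (some (a, some b) : Ty V) else 0) ≤
        k * (1296 / (K : ℝ) ^ 2) := by
      refine le_trans (Finset.sum_le_sum fun b _ => ?_) (type_sum_b G r h inf v a)
      by_cases hb : okT G r inf v (some (a, some b))
      · rw [if_pos hb]
        split_ifs
        · exact le_rfl
        · exact tw_nonneg K _
      · rw [if_neg hb, if_neg fun hc => hb hc.1]
    refine (add_le_add h1 h2).trans ?_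
    calc 216 / (K : ℝ) ^ 2 + k * (1296 / (K : ℝ) ^ 2) = (216 + 1296 * k) / (K : ℝ) ^ 2 := by ring
      _ ≤ 1512 * k / (K : ℝ) ^ 2 := by
          refine div_le_div_of_nonneg_right ?_ (by positivity)
          linarith
  · intro a' _ ha'
    refine Finset.sum_eq_zero fun o _ => if_neg ?_
    rintro ⟨-, o', ho'⟩
    simp only [Option.some.injEq, Prod.mk.injEq] at ho'
    exact ha' ho'.1
  · intro ha
    exact absurd (mem_univ a) ha

open Classical in
/-- sum over all type assignments of a closed walk -/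
theorem types_free {V : Type} [Fintype V] (G : SimpleGraph V) (r : V → ℕ) {k K : ℕ}
    (h : Hyp G r k K) {n : ℕ} (inf : Bool) (x : Fin (2 * n + 4) → V) :
    ∑ t : Fin (2 * n + 4) → Ty V with (∀ j, okT G r inf (hi r x j) (t j)), ∏ j, tw K (t j) ≤
      (12 / (K : ℝ)) ^ (2 * n + 4) := by
  have h1 : (univ.filter fun t : Fin (2 * n + 4) → Ty V => ∀ j, okT G r inf (hi r x j) (t j)) =
      Fintype.piFinset fun j => univ.filter fun τ => okT G r inf (hi r x j) τ := by
    ext t
    simp [Fintype.mem_piFinset]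
  rw [h1, ← Finset.prod_univ_sum]
  refine (Finset.prod_le_prod (fun j _ => Finset.sum_nonneg fun τ _ => tw_nonneg K τ)
    fun j _ => type_sum G r h inf (hi r x j)).trans ?_
  rw [Finset.prod_const, Finset.card_univ, Fintype.card_fin]

open Classical in
/-- the same with a restriction on the type of the edge `i` -/
theorem types_res {V : Type} [Fintype V] (G : SimpleGraph V) (r : V → ℕ) {k K : ℕ}
    (h : Hyp G r k K) {n : ℕ} (inf : Bool) (x : Fin (2 * n + 4) → V) (i : Fin (2 * n + 4))
    (Q : Ty V → Prop) (B : ℝ)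
    (hB : ∑ τ with (okT G r inf (hi r x i) τ ∧ Q τ), tw K τ ≤ B) :
    ∑ t : Fin (2 * n + 4) → Ty V with ((∀ j, okT G r inf (hi r x j) (t j)) ∧ Q (t i)),
      ∏ j, tw K (t j) ≤ B * (12 / (K : ℝ)) ^ (2 * n + 3) := by
  have h1 : (univ.filter fun t : Fin (2 * n + 4) → Ty V =>
      (∀ j, okT G r inf (hi r x j) (t j)) ∧ Q (t i)) =
      Fintype.piFinset fun j => univ.filter fun τ => okT G r inf (hi r x j) τ ∧ (j = i → Q τ) := by
    ext t
    simp only [mem_filter, mem_univ, true_and, Fintype.mem_piFinset]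
    constructor
    · rintro ⟨h2, h3⟩ j
      exact ⟨h2 j, fun hj => hj ▸ h3⟩
    · intro h2
      exact ⟨fun j => (h2 j).1, (h2 i).2 rfl⟩
  rw [h1, ← Finset.prod_univ_sum, ← Finset.mul_prod_erase univ _ (mem_univ i)]
  have h0 : ∀ j, 0 ≤ ∑ τ with (okT G r inf (hi r x j) τ ∧ (j = i → Q τ)), tw K τ := fun j =>
    Finset.sum_nonneg fun τ _ => tw_nonneg K τ
  have h2 : ∑ τ with (okT G r inf (hi r x i) τ ∧ (i = i → Q τ)), tw K τ ≤ B := by
    refine le_trans (le_of_eq ?_) hB
    refine Finset.sum_congr ?_ fun _ _ => rfl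
    ext τ
    simp
  have h3 : ∏ j ∈ univ.erase i, ∑ τ with (okT G r inf (hi r x j) τ ∧ (j = i → Q τ)), tw K τ ≤
      (12 / (K : ℝ)) ^ (2 * n + 3) := by
    refine (Finset.prod_le_prod (g := fun _ => 12 / (K : ℝ)) (fun j _ => h0 j)
      fun j _ => ?_).trans (le_of_eq ?_)
    · refine le_trans (Finset.sum_le_sum_of_subset_of_nonneg ?_ fun τ _ _ => tw_nonneg K τ)
        (type_sum G r h inf (hi r x j))
      intro τ hτ
      simp only [mem_filter, mem_univ, true_and] at hτ ⊢
      exact hτ.1
    · rw [Finset.prod_const, Finset.card_erase_of_mem (mem_univ i), Finset.card_univ,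
        Fintype.card_fin]
      rfl
  have h4 : 0 ≤ B := (h0 i).trans h2
  exact mul_le_mul h2 h3 (Finset.prod_nonneg fun j _ => h0 j) h4

end Pool.Agent.H95.AEC
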