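import Mathlib

/-!
# MP_5cda12_co: acyclic edge colouring of graphs with `Δ ≥ C (degeneracy)²`: definitions

`G` is a finite graph on `V`, `r : V → ℕ` an injective ranking such that every vertex `v` has at
most `k` upper neighbours (neighbours of larger rank). `q v u` (for adjacent `v, u`) is the colour
in `Fin K` which the hub `v` proposes for its neighbour `u`; `q v` is injective on the neighbours
of `v`. The edge `w → v` (`w` lower, `v` upper end) gets
* the extra colour `none` if `v → a` is lifted through some `b` (`q a v = q b a`) and `q v w = q a b`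
  (this is `Lift2 w v a b`);
* else the colour `q v a` if it is lifted through `a`: `q v w = q a v` (`Lift w v a`);
* else `q v w`.
-/

set_option autoImplicit false

open Finset

namespace Pool.Agent.H95.AEC

/-! ### atoms and permutations -/

/-- the set of atoms `E` (hub, slot, colour) holds for the family of permutations `ρ` -/
def Holds {H : Type} {K : ℕ} (ρ : H → Equiv.Perm (Fin K)) (E : Finset (H × Fin K × Fin K)) :
    Prop := ∀ a ∈ E, ρ a.1 a.2.1 = a.2.2

/-- two sets of atoms are in conflict: at some hub, the same slot with different colours or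
different slots with the same colour -/
def Conf {H : Type} {K : ℕ} (E E' : Finset (H × Fin K × Fin K)) : Prop :=
  ∃ a ∈ E, ∃ a' ∈ E', a.1 = a'.1 ∧ ¬ (a.2.1 = a'.2.1 ↔ a.2.2 = a'.2.2)

/-! ### equality patterns -/

/-- An equality pattern in a graph: a set `S` of darts (hub, neighbour) and a set `C` of equality
constraints between them. Each constraint `p` expresses the colour of the dart `p.1` through that of
`p.2`; every dart is determined by at most one constraint, and this is well-founded. -/
structure DPat {V : Type} (G : SimpleGraph V) where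
  S : Finset (V × V)
  C : Finset ((V × V) × (V × V))
  rk : V × V → ℕ
  ne : S.Nonempty
  adj : ∀ x ∈ S, G.Adj x.1 x.2
  mem₁ : ∀ p ∈ C, p.1 ∈ S
  mem₂ : ∀ p ∈ C, p.2 ∈ S
  inj : ∀ p ∈ C, ∀ p' ∈ C, p.1 = p'.1 → p = p'
  dec : ∀ p ∈ C, ∀ p' ∈ C, p.2 = p'.1 → rk p.2 < rk p.1

/-- weight of a pattern -/
noncomputable def DPat.wt {V : Type} {G : SimpleGraph V} (P : DPat G) (K : ℕ) : ℝ :=
  6 ^ P.S.card / (K : ℝ) ^ P.C.card

/-! ### the colouring -/

section Colouring

variable {V : Type} (G : SimpleGraph V) (r : V → ℕ) {K : ℕ} (q : V → V → Fin K)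

/-- `a` is an upper neighbour of `v` -/
def Up (v a : V) : Prop := G.Adj v a ∧ r v < r a

/-- the edge `w → v` is lifted through `a` -/
def Lift (w v a : V) : Prop := Up G r w v ∧ Up G r v a ∧ q v w = q a v

/-- second level conflict -/
def Lift2 (w v a b : V) : Prop := Up G r w v ∧ Lift G r q v a b ∧ q v w = q a b

open Classical in
/-- the colour of the edge `w → v`; `none` is the extra colour -/
noncomputable def fcol (w v : V) : Option (Fin K) :=
  if ∃ a b, Lift2 G r q w v a b then none
  else if h : ∃ a, Lift G r q w v a then some (q v h.choose) else some (q v w)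

/-- the colour of the edge `uv` -/
noncomputable def ccol (u v : V) : Option (Fin K) :=
  if r u < r v then fcol G r q u v else fcol G r q v u

/-- The local bad events do not occur. -/
structure Good : Prop where
  inj : ∀ v u w, G.Adj v u → G.Adj v w → q v u = q v w → u = w
  x1 : ∀ v a a', Up G r v a → Up G r v a' → a ≠ a' → q a v ≠ q a' v
  x2 : ∀ v a a', Up G r v a → Up G r v a' → q v a ≠ q a' v
  x3 : ∀ v a b a', Lift G r q v a b → Up G r v a' → a ≠ a' → q a b ≠ q a' v
  x4 : ∀ v a a' b', Up G r v a → Lift G r q v a' b' → q v a ≠ q a' b'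
  x5 : ∀ v a b a' b', Lift G r q v a b → Lift G r q v a' b' → a = a'
  x6 : ∀ v a b c a' b' c', Lift2 G r q v a b c → Lift2 G r q v a' b' c' → a = a'
  x7 : ∀ v a b c a' b', Lift2 G r q v a b c → Lift G r q v a' b' → a = a'

end Colouring

/-! ### cycle shapes -/

/-- Type of an edge `w → v` of the cycle: `none` = no extra information, `some (a, none)` = lifted
through `a`, `some (a, some b)` = second level conflict with `v → a → b`. -/
abbrev Ty (V : Type) := Option (V × Option V)

section Shapes

variable {V : Type} (G : SimpleGraph V) (r : V → ℕ) {n : ℕ}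

/-- upper end of the `i`-th edge of the closed walk -/
def hi (x : Fin (2 * n + 4) → V) (i : Fin (2 * n + 4)) : V :=
  if r (x i) < r (x (i + 1)) then x (i + 1) else x i

/-- lower end of the `i`-th edge of the closed walk -/
def lo (x : Fin (2 * n + 4) → V) (i : Fin (2 * n + 4)) : V :=
  if r (x i) < r (x (i + 1)) then x i else x (i + 1)

/-- the raw dart of the `i`-th edge -/
def raw (x : Fin (2 * n + 4) → V) (i : Fin (2 * n + 4)) : V × V := (hi r x i, lo r x i)

/-- the dart which carries the colour of the `i`-th edge -/
def asl (x : Fin (2 * n + 4) → V) (t : Fin (2 * n + 4) → Ty V) (i : Fin (2 * n + 4)) : V × V :=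
  match t i with
  | some (a, none) => (hi r x i, a)
  | _ => raw r x i

/-- first constraint of the `i`-th edge -/
def con1 (inf : Bool) (x : Fin (2 * n + 4) → V) (t : Fin (2 * n + 4) → Ty V)
    (i : Fin (2 * n + 4)) : (V × V) × (V × V) :=
  match t i with
  | some (a, some b) => (raw r x i, (a, b))
  | _ => (asl r x t i, if (i : ℕ) % 2 = 0 ∨ inf = true then asl r x t 0 else asl r x t 1)

/-- second constraint of the `i`-th edge (only used if `t i ≠ none`) -/
def con2 (x : Fin (2 * n + 4) → V) (t : Fin (2 * n + 4) → Ty V)
    (i : Fin (2 * n + 4)) : (V × V) × (V × V) :=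
  match t i with
  | none => (raw r x i, raw r x i)
  | some (a, none) => (raw r x i, (a, hi r x i))
  | some (a, some b) => ((a, hi r x i), (b, a))

open Classical in
/-- darts used by the `i`-th edge -/
noncomputable def sl (x : Fin (2 * n + 4) → V) (t : Fin (2 * n + 4) → Ty V)
    (i : Fin (2 * n + 4)) : Finset (V × V) :=
  match t i with
  | none => {raw r x i}
  | some (a, none) => {raw r x i, (a, hi r x i), (hi r x i, a)}
  | some (a, some b) => {raw r x i, (a, hi r x i), (b, a), (a, b)}

open Classical in
/-- all darts of the shape -/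
noncomputable def cS (x : Fin (2 * n + 4) → V) (t : Fin (2 * n + 4) → Ty V) : Finset (V × V) :=
  univ.biUnion (sl r x t)

open Classical in
/-- all constraints of the shape -/
noncomputable def cC (inf : Bool) (x : Fin (2 * n + 4) → V) (t : Fin (2 * n + 4) → Ty V) :
    Finset ((V × V) × (V × V)) :=
  (univ.filter (fun i => i ≠ 0 ∧ (inf = true ∨ i ≠ 1))).image (con1 r inf x t) ∪
    (univ.filter (fun i => t i ≠ none)).image (con2 r x t)

/-- valid shapes -/
structure Valid (inf : Bool) (x : Fin (2 * n + 4) → V) (t : Fin (2 * n + 4) → Ty V) : Prop where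
  adj : ∀ i, G.Adj (x i) (x (i + 1))
  up1 : ∀ i a o, t i = some (a, o) → Up G r (hi r x i) a
  up2 : ∀ i a b, t i = some (a, some b) → Up G r a b
  kind : ∀ i a b, t i = some (a, some b) → inf = true
  f11 : ∀ i j, (con1 r inf x t i).1 = (con1 r inf x t j).1 → i = j
  f12 : ∀ i j, t j ≠ none → (con1 r inf x t i).1 ≠ (con2 r x t j).1
  f22 : ∀ i j, t i ≠ none → t j ≠ none → (con2 r x t i).1 = (con2 r x t j).1 → i = j

end Shapes

end Pool.Agent.H95.AEC
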