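import Pool.Agent.H95.AEC.Defs

/-!
# AEC-DEGEN: ranking of a degenerate graph

Induction on a finset `s`: there is `r` injective on `s` such that every `v ∈ s` has at most `k` neighbours in `s`
with larger rank. Take `v₀ ∈ s` with at most `k` neighbours in `s`, `r` for `s.erase v₀`, and
`r' u = if u = v₀ then 0 else r u + 1`. Apply to `s = univ`.
-/

set_option autoImplicit false

open Finset

namespace Pool.Agent.H95.AEC

theorem exists_rank_aux {V : Type} [Fintype V] [DecidableEq V] (G : SimpleGraph V)
    [DecidableRel G.Adj] {k : ℕ}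
    (hd : ∀ s : Finset V, s.Nonempty → ∃ v ∈ s, (s.filter (fun w => G.Adj v w)).card ≤ k)
    (m : ℕ) : ∀ s : Finset V, s.card = m → ∃ r : V → ℕ, Set.InjOn r (s : Set V) ∧
      ∀ v ∈ s, (s.filter (fun a => G.Adj v a ∧ r v < r a)).card ≤ k := by
  induction m with
  | zero =>
    intro s hs
    rw [card_eq_zero] at hs
    subst hs
    exact ⟨fun _ => 0, by simp, by simp⟩
  | succ m ih =>
    intro s hs
    have hne : s.Nonempty := by
      rw [← card_pos]
      omega
    obtain ⟨v₀, hv₀, hc⟩ := hd s hne
    obtain ⟨r, h1, h2⟩ := ih (s.erase v₀) (by rw [card_erase_of_mem hv₀]; omega)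
    refine ⟨fun u => if u = v₀ then 0 else r u + 1, ?_, ?_⟩
    · intro u hu w hw h
      simp only at h
      by_cases hu0 : u = v₀ <;> by_cases hw0 : w = v₀
      · rw [hu0, hw0]
      · rw [if_pos hu0, if_neg hw0] at h
        omega
      · rw [if_neg hu0, if_pos hw0] at h
        omega
      · rw [if_neg hu0, if_neg hw0] at h
        apply h1
        · exact mem_coe.mpr (mem_erase.mpr ⟨hu0, hu⟩)
        · exact mem_coe.mpr (mem_erase.mpr ⟨hw0, hw⟩)
        · omega
    · intro v hv
      by_cases hv0 : v = v₀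
      · subst hv0
        refine le_trans (card_le_card ?_) hc
        intro a ha
        rw [mem_filter] at ha ⊢
        exact ⟨ha.1, ha.2.1⟩
      · refine le_trans (card_le_card ?_) (h2 v (mem_erase.mpr ⟨hv0, hv⟩))
        intro a ha
        rw [mem_filter] at ha ⊢
        obtain ⟨ha1, ha2, ha3⟩ := ha
        simp only [if_neg hv0] at ha3
        by_cases ha0 : a = v₀
        · rw [if_pos ha0] at ha3
          omega
        · rw [if_neg ha0] at ha3
          exact ⟨mem_erase.mpr ⟨ha0, ha1⟩, ha2, by omega⟩

/-- DEGEN -/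
theorem exists_rank {V : Type} [Fintype V] (G : SimpleGraph V) [DecidableRel G.Adj] {k : ℕ}
    (hd : ∀ s : Finset V, s.Nonempty → ∃ v ∈ s, (s.filter (fun w => G.Adj v w)).card ≤ k) :
    ∃ r : V → ℕ, Function.Injective r ∧ ∀ v, Nat.card {a // Up G r v a} ≤ k := by
  classical
  obtain ⟨r, h1, h2⟩ := exists_rank_aux G hd univ.card univ rfl
  refine ⟨r, ?_, ?_⟩
  · intro u w h
    exact h1 (by simp) (by simp) h
  · intro v
    refine le_trans (le_of_eq ?_) (h2 v (mem_univ v))
    rw [Nat.card_eq_fintype_card, Fintype.card_subtype]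
    refine congrArg card (filter_congr fun a _ => ?_)
    exact Iff.rfl

end Pool.Agent.H95.AEC
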