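import Pool.Agent.H95.AEC.Main
import Pool.Agent.H95.AEC.Degen

/-!
# AEC-FINAL

For `k = 0` the graph has no edges. For `k ≥ 1`: `exists_rank`, `Hyp`, `main_rank` with `K = N`, and a bijection
`Option (Fin N) ≃ Fin (N+1)`.
-/

set_option autoImplicit false

open Finset

namespace Pool.Agent.H95.AEC

theorem toFinset_card_map_inj {A B D : Type} [DecidableEq A] [DecidableEq B] (f : A → B)
    (hf : Function.Injective f) (g : D → A) (l : List D) :
    (l.map (fun d => f (g d))).toFinset.card = (l.map g).toFinset.card := by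
  have : (l.map (fun d => f (g d))).toFinset = (l.map g).toFinset.image f := by
    ext b
    simp
  rw [this, card_image_of_injective _ hf]

theorem final (V : Type) [Fintype V] [DecidableEq V] (G : SimpleGraph V) [DecidableRel G.Adj]
    (k N : ℕ) (hd : ∀ s : Finset V, s.Nonempty → ∃ v ∈ s, (s.filter (fun w => G.Adj v w)).card ≤ k)
    (hN : G.maxDegree ≤ N) (hk : 10 ^ 20 * k ^ 2 ≤ N) :
    ∃ c : V → V → Fin (N + 1),
      (∀ u v : V, c u v = c v u) ∧
      (∀ u v w : V, G.Adj u v → G.Adj u w → v ≠ w → c u v ≠ c u w) ∧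
      (∀ (u : V) (p : G.Walk u u), p.IsCycle →
          3 ≤ (p.darts.map (fun d => c d.toProd.1 d.toProd.2)).toFinset.card) := by
  rcases Nat.eq_zero_or_pos k with hk0 | hk0
  · -- no edges
    subst hk0
    have hno : ∀ u v, ¬ G.Adj u v := by
      intro u v huv
      obtain ⟨w, hw, hc⟩ := hd {u, v} ⟨u, by simp⟩
      rw [Nat.le_zero, card_eq_zero, filter_eq_empty_iff] at hc
      simp only [mem_insert, mem_singleton] at hw hc
      rcases hw with rfl | rfl
      · exact hc (Or.inr rfl) huv
      · exact hc (Or.inl rfl) huv.symm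
    refine ⟨fun _ _ => 0, fun _ _ => rfl, fun u v w h => absurd h (hno u v), ?_⟩
    intro u p hp
    cases p with
    | nil => exact absurd hp (by simp)
    | cons h _ => exact absurd h (hno _ _)
  · obtain ⟨r, hr, hup⟩ := exists_rank G hd
    have hdeg : ∀ v, Nat.card {a // G.Adj v a} ≤ N := by
      intro v
      refine le_trans (le_of_eq ?_) (le_trans (G.degree_le_maxDegree v) hN)
      rw [← SimpleGraph.card_neighborSet_eq_degree, Nat.card_eq_fintype_card]
      rfl
    have H : Hyp G r k N := ⟨hr, hup, hdeg, hk0, hk⟩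
    obtain ⟨c, h1, h2, h3⟩ := main_rank G r H
    let e : Option (Fin N) ≃ Fin (N + 1) := (finSuccEquiv N).symm
    refine ⟨fun u v => e (c u v), fun u v => congrArg e (h1 u v), fun u v w hv hw hne he =>
      h2 u v w hv hw hne (e.injective he), ?_⟩
    intro u p hp
    have h4 := h3 u p hp
    rw [toFinset_card_map_inj e e.injective (fun d : G.Dart => c d.toProd.1 d.toProd.2) p.darts]
    exact h4

end Pool.Agent.H95.AEC
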