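import Pool.Agent.H95.AEC.LLL2
import Pool.Agent.H95.AEC.Codes

/-!
# AEC-GCRIT (graph criterion)

If all degrees of `G` are at most `K` and the weights of the patterns `P i` containing any given dart
sum to at most `1/4`, then there are hub colourings `q v : V → Fin K`, injective on the neighbours of
`v`, such that no pattern holds.

Proof from `lll` with `H = V`. Choose for each `v` a map `pos v : V → Fin K` injective on the
neighbours of `v`; the colouring is `q v u = ρ v (pos v u)`. Codes: pairs `(i, γ)`,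
`γ : V × V → Fin K`, with `γ x = c₀` for `x ∉ S_i` (`c₀ = ⟨0, _⟩`), `γ p.1 = γ p.2` for `p ∈ C_i`,
and `γ` injective on the darts of `S_i` with the same hub. The event of the code is
`E (i,γ) = image (fun x => (x.1, pos x.1 x.2, γ x)) S_i`, which has `|S_i|` elements and is not in conflict
with itself. If all constraints of pattern `i` hold for `q` then `γ = q` on `S_i` is a code whose
event holds for `ρ`, contradiction.
(1) (module CODES, `card_codes`) The number `N_i` of codes `γ` is at most `K^|S_i| / K^|C_i|`: `γ` is determined by its values on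
`S_i \ C_i.image Prod.fst` (if two codes agree there, then they agree on `C_i.image fst` by strong
induction on `rk`: `γ p.1 = γ p.2` and either `p.2` is not in the image or `rk p.2 < rk p.1`), and
`|C_i.image fst| = |C_i|` by `inj`.
(2) slot sums: `(h, s, c) ∈ E (i,γ)` means `(h, u) ∈ S_i` for the neighbour `u` of `h` with `pos h u = s`;
so the sum is `≤ ∑_{i : (h,u) ∈ S_i} N_i (6/K)^|S_i| ≤ ∑ wt ≤ 1/4`.
(3) colour sums: `(h, s, c) ∈ E (i,γ)` means `γ (h,u) = c` for some `(h,u) ∈ S_i`. For fixed `(h,u)` the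
number of codes `γ` with `γ (h,u) = c` does not depend on `c` (apply the transposition of two colours on
`S_i`), so it is `N_i / K`; the sum is `≤ (1/K) ∑_{u ∈ N(h)} ∑_{i : (h,u) ∈ S_i} N_i (6/K)^|S_i| ≤ 1/4`
since `h` has at most `K` neighbours.
-/

set_option autoImplicit false

open Finset

namespace Pool.Agent.H95.AEC

section Aux

variable {V : Type} [Fintype V] {G : SimpleGraph V} {K : ℕ}

/-- codes of a pattern (colourings of the darts which satisfy the constraints and are injective at
each hub) -/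
def IsCode (P : DPat G) (c₀ : Fin K) (γ : V × V → Fin K) : Prop :=
  (∀ x, x ∉ P.S → γ x = c₀) ∧ (∀ p ∈ P.C, γ p.1 = γ p.2) ∧
    ∀ x ∈ P.S, ∀ y ∈ P.S, x.1 = y.1 → γ x = γ y → x = y

open Classical in
/-- number of codes -/
noncomputable def nCode (P : DPat G) (c₀ : Fin K) : ℕ :=
  (univ.filter (fun γ : V × V → Fin K => IsCode P c₀ γ)).card

open Classical in
theorem nCode_le (hK : 0 < K) (P : DPat G) (c₀ : Fin K) :
    (nCode P c₀ : ℝ) ≤ (K : ℝ) ^ P.S.card / (K : ℝ) ^ P.C.card := by
  refine le_trans ?_ (card_codes hK P c₀)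
  have h : nCode P c₀ ≤
      Nat.card {γ : V × V → Fin K // (∀ x, x ∉ P.S → γ x = c₀) ∧ ∀ p ∈ P.C, γ p.1 = γ p.2} := by
    rw [Nat.card_eq_fintype_card, Fintype.card_subtype]
    unfold nCode
    apply Finset.card_le_card
    intro γ hγ
    rw [Finset.mem_filter] at hγ ⊢
    exact ⟨hγ.1, hγ.2.1, hγ.2.2.1⟩
  exact_mod_cast h

theorem nCode_wt (hK : 0 < K) (P : DPat G) (c₀ : Fin K) :
    (nCode P c₀ : ℝ) * (6 / (K : ℝ)) ^ P.S.card ≤ P.wt K := by
  have hK' : (0 : ℝ) < K := by exact_mod_cast hK
  have h := nCode_le hK P c₀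
  have h6 : (0 : ℝ) ≤ (6 / (K : ℝ)) ^ P.S.card := by positivity
  refine (mul_le_mul_of_nonneg_right h h6).trans (le_of_eq ?_)
  unfold DPat.wt
  rw [div_pow]
  field_simp

open Classical in
/-- the number of codes with given colour of a given dart does not depend on the colour -/
theorem codes_swap (P : DPat G) (c₀ : Fin K) {y : V × V} (hy : y ∈ P.S) (c c' : Fin K) :
    (univ.filter (fun γ : V × V → Fin K => IsCode P c₀ γ ∧ γ y = c)).card ≤
      (univ.filter (fun γ : V × V → Fin K => IsCode P c₀ γ ∧ γ y = c')).card := by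
  apply Finset.card_le_card_of_injOn
    (fun γ x => if x ∈ P.S then Equiv.swap c c' (γ x) else c₀)
  · intro γ hγ
    simp only [Finset.coe_filter, Finset.mem_univ, true_and, Set.mem_ofPred_eq] at hγ ⊢
    obtain ⟨⟨h1, h2, h3⟩, h4⟩ := hγ
    refine ⟨⟨?_, ?_, ?_⟩, ?_⟩
    · intro x hx
      simp only [if_neg hx]
    · intro p hp
      simp only [if_pos (P.mem₁ p hp), if_pos (P.mem₂ p hp), h2 p hp]
    · intro x hx z hz hxz he
      simp only [if_pos hx, if_pos hz] at he
      exact h3 x hx z hz hxz ((Equiv.swap c c').injective he)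
    · simp only [if_pos hy, h4, Equiv.swap_apply_left]
  · intro γ hγ γ' hγ' he
    simp only [Finset.coe_filter, Finset.mem_univ, true_and, Set.mem_ofPred_eq] at hγ hγ'
    funext x
    by_cases hx : x ∈ P.S
    · have := congrFun he x
      simp only [if_pos hx] at this
      exact (Equiv.swap c c').injective this
    · rw [hγ.1.1 x hx, hγ'.1.1 x hx]

open Classical in
theorem codes_colour (P : DPat G) (c₀ : Fin K) {y : V × V} (hy : y ∈ P.S) (c : Fin K) :
    K * (univ.filter (fun γ : V × V → Fin K => IsCode P c₀ γ ∧ γ y = c)).card = nCode P c₀ := by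
  have h1 : nCode P c₀ = ∑ c' : Fin K,
      (univ.filter (fun γ : V × V → Fin K => IsCode P c₀ γ ∧ γ y = c')).card := by
    unfold nCode
    rw [Finset.card_eq_sum_card_fiberwise (f := fun γ => γ y) (t := univ)
      (fun γ _ => Finset.mem_coe.2 (Finset.mem_univ _))]
    refine Finset.sum_congr rfl (fun c' _ => ?_)
    rw [Finset.filter_filter]
  rw [h1]
  have h2 : ∀ c' : Fin K, (univ.filter (fun γ : V × V → Fin K => IsCode P c₀ γ ∧ γ y = c')).card =
      (univ.filter (fun γ : V × V → Fin K => IsCode P c₀ γ ∧ γ y = c)).card :=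
    fun c' => le_antisymm (codes_swap P c₀ hy c' c) (codes_swap P c₀ hy c c')
  rw [Finset.sum_congr rfl (fun c' _ => h2 c')]
  simp

end Aux

open Classical in
/-- GCRIT -/
theorem gcrit {V : Type} [Fintype V] (G : SimpleGraph V) {K : ℕ} (hK : 0 < K)
    (hdeg : ∀ v, (univ.filter (fun w => G.Adj v w)).card ≤ K) {ι : Type} [Fintype ι]
    (P : ι → DPat G)
    (hsum : ∀ x : V × V, ∑ i with x ∈ (P i).S, (P i).wt K ≤ 1 / 4) :
    ∃ q : V → V → Fin K, (∀ v u w, G.Adj v u → G.Adj v w → q v u = q v w → u = w) ∧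
      ∀ i, ∃ p ∈ (P i).C, q p.1.1 p.1.2 ≠ q p.2.1 p.2.2 := by
  have hK' : (0 : ℝ) < K := by exact_mod_cast hK
  let c₀ : Fin K := ⟨0, hK⟩
  have hpos : ∀ v : V, ∃ f : V → Fin K, ∀ u w, G.Adj v u → G.Adj v w → f u = f w → u = w := by
    intro v
    have hc : Fintype.card ↥(univ.filter (fun w => G.Adj v w)) ≤ Fintype.card (Fin K) := by
      rw [Fintype.card_coe, Fintype.card_fin]
      exact hdeg v
    obtain ⟨e⟩ := Function.Embedding.nonempty_of_card_le hc
    refine ⟨fun u => if h : u ∈ univ.filter (fun w => G.Adj v w) then e ⟨u, h⟩ else c₀, ?_⟩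
    intro u w hu hw he
    have hu' : u ∈ univ.filter (fun w => G.Adj v w) := by simp [hu]
    have hw' : w ∈ univ.filter (fun w => G.Adj v w) := by simp [hw]
    simp only [dif_pos hu', dif_pos hw'] at he
    exact congrArg Subtype.val (e.injective he)
  choose pos hposi using hpos
  let Cd : ι → Type := fun i => {γ : V × V → Fin K // IsCode (P i) c₀ γ}
  let E : (Σ i : ι, Cd i) → Finset (V × Fin K × Fin K) := fun j =>
    (P j.1).S.image (fun x => (x.1, pos x.1 x.2, j.2.1 x))
  have hmem : ∀ (j : Σ i : ι, Cd i) (a : V × Fin K × Fin K), a ∈ E j ↔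
      ∃ x ∈ (P j.1).S, (x.1, pos x.1 x.2, j.2.1 x) = a := by
    intro j a
    exact Finset.mem_image
  have hxy : ∀ (i : ι) (x y : V × V), x ∈ (P i).S → y ∈ (P i).S → x.1 = y.1 →
      pos x.1 x.2 = pos y.1 y.2 → x = y := by
    intro i x y hx hy h1 h2
    obtain ⟨x1, x2⟩ := x
    obtain ⟨y1, y2⟩ := y
    simp only at h1 h2
    subst h1
    have := hposi x1 x2 y2 ((P i).adj _ hx) ((P i).adj _ hy) h2
    rw [this]
  have hcardE : ∀ j, (E j).card = (P j.1).S.card := by
    intro j
    refine Finset.card_image_of_injOn ?_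
    intro x hx y hy he
    simp only [Prod.mk.injEq] at he
    exact hxy j.1 x y hx hy he.1 he.2.1
  have hcardCd : ∀ i, Fintype.card (Cd i) = nCode (P i) c₀ := by
    intro i
    exact Fintype.card_subtype _
  have hne : ∀ j, (E j).Nonempty := fun j => (P j.1).ne.image _
  have hself : ∀ j, ¬ Conf (E j) (E j) := by
    rintro j ⟨a, ha, a', ha', h1, h2⟩
    rw [hmem] at ha ha'
    obtain ⟨x, hx, rfl⟩ := ha
    obtain ⟨y, hy, rfl⟩ := ha'
    apply h2
    simp only at h1 ⊢
    constructor
    · intro h3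
      rw [hxy j.1 x y hx hy h1 h3]
    · intro h3
      rw [j.2.2.2.2 x hx y hy h1 h3]
  have hnn : ∀ j : Σ i : ι, Cd i, (0 : ℝ) ≤ (6 / (K : ℝ)) ^ (E j).card := fun j => by positivity
  have hdart : ∀ x : V × V, ∑ i with x ∈ (P i).S, (nCode (P i) c₀ : ℝ) * (6 / (K : ℝ)) ^ (P i).S.card
      ≤ 1 / 4 := fun x =>
    (Finset.sum_le_sum (fun i _ => nCode_wt hK (P i) c₀)).trans (hsum x)
  have hs : ∀ h s, ∑ j with (∃ c, (h, s, c) ∈ E j), (6 / (K : ℝ)) ^ (E j).card ≤ 1 / 4 := by
    intro h s
    by_cases hu : ∃ u, G.Adj h u ∧ pos h u = s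
    · obtain ⟨u, hu1, hu2⟩ := hu
      refine le_trans ?_ (hdart (h, u))
      have h1 : ∑ j with (∃ c, (h, s, c) ∈ E j), (6 / (K : ℝ)) ^ (E j).card ≤
          ∑ j with (h, u) ∈ (P j.1).S, (6 / (K : ℝ)) ^ (E j).card := by
        apply Finset.sum_le_sum_of_subset_of_nonneg
        · intro j hj
          rw [Finset.mem_filter] at hj ⊢
          refine ⟨Finset.mem_univ _, ?_⟩
          obtain ⟨_, c, hc⟩ := hj
          rw [hmem] at hc
          obtain ⟨x, hx, hxe⟩ := hc
          simp only [Prod.mk.injEq] at hxe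
          obtain ⟨x1, x2⟩ := x
          simp only at hxe
          obtain ⟨rfl, h3, _⟩ := hxe
          have := hposi x1 x2 u ((P j.1).adj _ hx) hu1 (h3.trans hu2.symm)
          rw [← this]
          exact hx
        · intro j _ _
          exact hnn j
      refine h1.trans (le_of_eq ?_)
      rw [Finset.sum_filter, Fintype.sum_sigma, Finset.sum_filter]
      refine Finset.sum_congr rfl (fun i _ => ?_)
      by_cases hi : (h, u) ∈ (P i).S
      · simp only [if_pos hi]
        have : ∀ γ : Cd i, (6 / (K : ℝ)) ^ (E ⟨i, γ⟩).card = (6 / (K : ℝ)) ^ (P i).S.card :=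
          fun γ => by rw [hcardE ⟨i, γ⟩]
        rw [Finset.sum_congr rfl (fun γ _ => this γ), Finset.sum_const, Finset.card_univ,
          hcardCd, nsmul_eq_mul]
      · simp only [if_neg hi, Finset.sum_const_zero]
    · rw [Finset.sum_eq_zero_iff_of_nonneg (fun j _ => hnn j) |>.2]
      · norm_num
      · intro j hj
        exfalso
        rw [Finset.mem_filter] at hj
        obtain ⟨_, c, hc⟩ := hj
        rw [hmem] at hc
        obtain ⟨x, hx, hxe⟩ := hc
        simp only [Prod.mk.injEq] at hxe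
        obtain ⟨x1, x2⟩ := x
        simp only at hxe
        obtain ⟨rfl, h3, _⟩ := hxe
        exact hu ⟨x2, (P j.1).adj _ hx, h3⟩
  have hc : ∀ h c, ∑ j with (∃ s, (h, s, c) ∈ E j), (6 / (K : ℝ)) ^ (E j).card ≤ 1 / 4 := by
    intro h c
    have h1 : ∑ j with (∃ s, (h, s, c) ∈ E j), (6 / (K : ℝ)) ^ (E j).card ≤
        ∑ j : Σ i : ι, Cd i, ∑ u with G.Adj h u,
          (if (h, u) ∈ (P j.1).S ∧ j.2.1 (h, u) = c then (6 / (K : ℝ)) ^ (P j.1).S.card else 0) := by
      rw [Finset.sum_filter]
      refine Finset.sum_le_sum (fun j _ => ?_)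
      have hnn2 : ∀ u ∈ univ.filter (fun u => G.Adj h u), (0 : ℝ) ≤
          (if (h, u) ∈ (P j.1).S ∧ j.2.1 (h, u) = c then (6 / (K : ℝ)) ^ (P j.1).S.card else 0) := by
        intro u _
        split_ifs
        · positivity
        · exact le_rfl
      split_ifs with hj
      · obtain ⟨s, hsj⟩ := hj
        rw [hmem] at hsj
        obtain ⟨x, hx, hxe⟩ := hsj
        simp only [Prod.mk.injEq] at hxe
        obtain ⟨x1, x2⟩ := x
        simp only at hxe
        obtain ⟨rfl, _, h4⟩ := hxe
        have hmemx : x2 ∈ univ.filter (fun u => G.Adj x1 u) := by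
          simp only [Finset.mem_filter, Finset.mem_univ, true_and]
          exact (P j.1).adj _ hx
        refine le_trans ?_ (Finset.single_le_sum hnn2 hmemx)
        rw [if_pos ⟨hx, h4⟩, hcardE]
      · exact Finset.sum_nonneg hnn2
    refine h1.trans ?_
    rw [Finset.sum_comm]
    have h2 : ∀ u ∈ univ.filter (fun u => G.Adj h u), ∑ j : Σ i : ι, Cd i,
        (if (h, u) ∈ (P j.1).S ∧ j.2.1 (h, u) = c then (6 / (K : ℝ)) ^ (P j.1).S.card else 0) ≤
        1 / (4 * K) := by
      intro u _
      have h3 : ∑ j : Σ i : ι, Cd i,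
          (if (h, u) ∈ (P j.1).S ∧ j.2.1 (h, u) = c then (6 / (K : ℝ)) ^ (P j.1).S.card else 0) =
          (∑ i with (h, u) ∈ (P i).S, (nCode (P i) c₀ : ℝ) * (6 / (K : ℝ)) ^ (P i).S.card) / K := by
        rw [Fintype.sum_sigma, Finset.sum_filter, Finset.sum_div]
        refine Finset.sum_congr rfl (fun i _ => ?_)
        by_cases hi : (h, u) ∈ (P i).S
        · simp only [hi, true_and, if_true]
          rw [← codes_colour (P i) c₀ hi c, ← Finset.sum_filter, Finset.sum_const, nsmul_eq_mul]
          have h5 : (univ.filter (fun γ : Cd i => γ.1 (h, u) = c)).card =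
              (univ.filter (fun γ : V × V → Fin K => IsCode (P i) c₀ γ ∧ γ (h, u) = c)).card := by
            refine Finset.card_bij (fun γ _ => γ.1) ?_ ?_ ?_
            · intro γ hγ
              simp only [Finset.mem_filter, Finset.mem_univ, true_and] at hγ ⊢
              exact ⟨γ.2, hγ⟩
            · intro γ _ γ' _ he
              exact Subtype.ext he
            · intro γ hγ
              simp only [Finset.mem_filter, Finset.mem_univ, true_and] at hγ
              exact ⟨⟨γ, hγ.1⟩, by simp [hγ.2], rfl⟩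
          rw [h5]
          push_cast
          field_simp
        · simp only [hi, false_and, if_false, Finset.sum_const_zero, zero_div]
      rw [h3, div_le_iff₀ hK']
      refine (hdart (h, u)).trans (le_of_eq ?_)
      field_simp
    refine (Finset.sum_le_sum h2).trans ?_
    rw [Finset.sum_const, nsmul_eq_mul]
    have h6 : ((univ.filter (fun u => G.Adj h u)).card : ℝ) ≤ K := by exact_mod_cast hdeg h
    have h7 : (0 : ℝ) ≤ 1 / (4 * K) := by positivity
    refine (mul_le_mul_of_nonneg_right h6 h7).trans (le_of_eq ?_)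
    field_simp
  obtain ⟨ρ, hρ⟩ := lll E hne hself hs hc
  refine ⟨fun v u => ρ v (pos v u), ?_, ?_⟩
  · intro v u w hu hw he
    exact hposi v u w hu hw ((ρ v).injective he)
  · intro i
    by_contra hcon
    push Not at hcon
    let γ : V × V → Fin K := fun x => if x ∈ (P i).S then ρ x.1 (pos x.1 x.2) else c₀
    have hγ : IsCode (P i) c₀ γ := by
      refine ⟨?_, ?_, ?_⟩
      · intro x hx
        exact if_neg hx
      · intro p hp
        show (if p.1 ∈ (P i).S then ρ p.1.1 (pos p.1.1 p.1.2) else c₀) =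
          (if p.2 ∈ (P i).S then ρ p.2.1 (pos p.2.1 p.2.2) else c₀)
        rw [if_pos ((P i).mem₁ p hp), if_pos ((P i).mem₂ p hp)]
        exact hcon p hp
      · intro x hx y hy h1 h2
        have h3 : (if x ∈ (P i).S then ρ x.1 (pos x.1 x.2) else c₀) =
          (if y ∈ (P i).S then ρ y.1 (pos y.1 y.2) else c₀) := h2
        rw [if_pos hx, if_pos hy, h1] at h3
        refine hxy i x y hx hy h1 ?_
        rw [h1]
        exact (ρ y.1).injective h3
    apply hρ ⟨i, ⟨γ, hγ⟩⟩
    intro a ha
    rw [hmem] at ha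
    obtain ⟨x, hx, rfl⟩ := ha
    show ρ x.1 (pos x.1 x.2) = (if x ∈ (P i).S then ρ x.1 (pos x.1 x.2) else c₀)
    rw [if_pos hx]

end Pool.Agent.H95.AEC
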