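import Pool.Agent.H95.AEC.Defs

/-!
# AEC-LLL1 (swap bound for random permutations)

`Ω = H → Perm (Fin K)`, counting measure. `F` is a set of atoms `(h, s, c)` not in conflict with itself,
`J` a finite set of indices of events none of which is in conflict with `F`.
Then `#{ρ ∈ Ω : no E j (j ∈ J) holds, F holds} ≤ (3/K)^|F| #{ρ : no E j holds}`.

Proof.
(A) Swap lemma. Let `a₀ = (h,s,c) ∉ F`, `F' = insert a₀ F` not in conflict with itself nor with the
`E j`, `j ∈ J`; let `m` be the number of atoms of `F` at the hub `h`. Then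
`(K - m) * #{ρ ∈ G(J), Holds ρ F'} ≤ #{ρ ∈ G(J), Holds ρ F}`.
The map `(ρ, c') ↦ ρ' := Function.update ρ h ((swap c c') * ρ h)` (i.e. `ρ' h s₁ = swap c c' (ρ h s₁)`)
for `c'` not a colour of an atom of `F` at `h` (there are `≥ K - m` of these) is injective
(`ρ' h s = c'`), `ρ'` satisfies `F` (an atom `(h,s₁,c₁)` of `F` has `c₁ ≠ c, c'`), and `ρ'` avoids
every `E j`: if `Holds ρ' (E j)` then `Holds ρ (E j)`: for `(h,s₁,c₁) ∈ E j` we have
`swap c c' (ρ h s₁) = c₁` and `s₁ = s ↔ c₁ = c`; if `c₁ = c` then `s₁ = s` and `ρ h s = c`; if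
`c₁ = c' ≠ c` then `ρ h s₁ = c` so `s₁ = s` (as `ρ h s = c`), so `c₁ = c`, contradiction; otherwise
`ρ h s₁ = c₁`.
(B) Induction on `F`: `#{G(J), F} * ∏_h K.descFactorial (m_h F) ≤ #G(J)`, where `m_h F` is the number of
atoms of `F` at `h` (`Nat.descFactorial_succ`).
(C) `K^m ≤ 3^m * K.descFactorial m` for `m ≤ K`: termwise `K (m - i) ≤ m (K - i)` gives
`K^m * m! ≤ m^m * K.descFactorial m` and `m^m ≤ 3^m * m!` (`Real.pow_div_factorial_le_exp`,
`Real.exp_one_lt_d9`). As `F` is not in conflict with itself, `m_h F ≤ K`.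
-/

set_option autoImplicit false

open Finset

namespace Pool.Agent.H95.AEC

theorem Conf.mono {H : Type} {K : ℕ} {A A' B B' : Finset (H × Fin K × Fin K)} (h1 : A ⊆ A')
    (h2 : B ⊆ B') (h : Conf A B) : Conf A' B' := by
  obtain ⟨a, ha, b, hb, h3⟩ := h
  exact ⟨a, h1 ha, b, h2 hb, h3⟩

/-- number of atoms of `F` at the hub `h` -/
def mh {H : Type} [DecidableEq H] {K : ℕ} (F : Finset (H × Fin K × Fin K)) (h : H) : ℕ :=
  (F.filter fun a => a.1 = h).card

/-- the modified permutation -/
def swp {H : Type} [DecidableEq H] {K : ℕ} (h : H) (c : Fin K) (ρ : H → Equiv.Perm (Fin K))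
    (c' : Fin K) : H → Equiv.Perm (Fin K) :=
  Function.update ρ h (Equiv.swap c c' * ρ h)

theorem swp_self {H : Type} [DecidableEq H] {K : ℕ} (h : H) (c : Fin K)
    (ρ : H → Equiv.Perm (Fin K)) (c' s : Fin K) :
    swp h c ρ c' h s = Equiv.swap c c' (ρ h s) := by
  unfold swp
  rw [Function.update_self]; rfl

theorem swp_ne {H : Type} [DecidableEq H] {K : ℕ} {h h' : H} (hne : h' ≠ h) (c : Fin K)
    (ρ : H → Equiv.Perm (Fin K)) (c' s : Fin K) :
    swp h c ρ c' h' s = ρ h' s := by
  unfold swp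
  rw [Function.update_of_ne hne]

open Classical in
/-- swap lemma -/
theorem swap_lemma {H ι : Type} [Fintype H] [DecidableEq H] {K : ℕ}
    (E : ι → Finset (H × Fin K × Fin K)) (J : Finset ι) (F : Finset (H × Fin K × Fin K))
    (a : H × Fin K × Fin K) (ha : a ∉ F)
    (hF : ¬ Conf (insert a F) (insert a F)) (hJ : ∀ j ∈ J, ¬ Conf (insert a F) (E j)) :
    ((univ : Finset (H → Equiv.Perm (Fin K))).filter
        fun ρ => (∀ j ∈ J, ¬ Holds ρ (E j)) ∧ Holds ρ (insert a F)).card * (K - mh F a.1)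
      ≤ ((univ : Finset (H → Equiv.Perm (Fin K))).filter
        fun ρ => (∀ j ∈ J, ¬ Holds ρ (E j)) ∧ Holds ρ F).card := by
  obtain ⟨h, s, c⟩ := a
  -- allowed new colours
  obtain ⟨C, hC⟩ : ∃ C : Finset (Fin K), C = univ \ ((F.filter fun a => a.1 = h).image
    fun a => a.2.2) := ⟨_, rfl⟩
  have hCc : K - mh F h ≤ C.card := by
    rw [hC, Finset.card_sdiff_of_subset (Finset.subset_univ _), Finset.card_univ, Fintype.card_fin]
    refine Nat.sub_le_sub_left ?_ K
    exact Finset.card_image_le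
  have hCm : ∀ c' ∈ C, ∀ s₁ c₁, (h, s₁, c₁) ∈ F → c₁ ≠ c' := by
    intro c' hc' s₁ c₁ hm he
    rw [hC, Finset.mem_sdiff] at hc'
    apply hc'.2
    rw [Finset.mem_image]
    exact ⟨(h, s₁, c₁), Finset.mem_filter.2 ⟨hm, rfl⟩, he⟩
  refine le_trans (Nat.mul_le_mul_left _ hCc) ?_
  rw [← Finset.card_product]
  refine Finset.card_le_card_of_injOn (fun p => swp h c p.1 p.2) ?_ ?_
  · rintro ⟨ρ, c'⟩ hp
    rw [Finset.mem_coe, Finset.mem_product, Finset.mem_filter] at hp
    obtain ⟨⟨_, hav, hho⟩, hc'⟩ := hp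
    simp only at hav hho hc'
    have hsc : ρ h s = c := hho (h, s, c) (Finset.mem_insert_self _ _)
    simp only [Finset.coe_filter, Finset.mem_univ, true_and, Set.mem_setOf_eq]
    refine ⟨fun j hj hE => ?_, ?_⟩
    · apply hav j hj
      rintro ⟨h₁, s₁, c₁⟩ hm
      have h1 := hE _ hm
      simp only at h1
      change ρ h₁ s₁ = c₁
      by_cases hh : h₁ = h
      · subst hh
        rw [swp_self] at h1
        have hnc : (s = s₁ ↔ c = c₁) := by
          by_contra hcon
          exact hJ j hj ⟨(h₁, s, c), Finset.mem_insert_self _ _, (h₁, s₁, c₁), hm, rfl, hcon⟩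
        by_cases h2 : c = c₁
        · have h3 := hnc.2 h2
          rw [← h3, hsc, h2]
        · by_cases h3 : c₁ = c'
          · exfalso
            have h4 : ρ h₁ s₁ = c := by
              have h5 := congrArg (Equiv.swap c c') h1
              rw [Equiv.swap_apply_self, h3, Equiv.swap_apply_right] at h5
              exact h5
            have h6 : s = s₁ := (ρ h₁).injective (by rw [hsc, h4])
            exact h2 (hnc.1 h6)
          · have h5 := congrArg (Equiv.swap c c') h1
            rw [Equiv.swap_apply_self, Equiv.swap_apply_of_ne_of_ne (Ne.symm h2) h3] at h5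
            exact h5
      · rw [swp_ne hh] at h1
        exact h1
    · rintro ⟨h₁, s₁, c₁⟩ hm
      change swp h c ρ c' h₁ s₁ = c₁
      by_cases hh : h₁ = h
      · subst hh
        have h1 : ρ h₁ s₁ = c₁ := hho _ (Finset.mem_insert_of_mem hm)
        have h2 : c₁ ≠ c := by
          intro h2
          have hnc : (s = s₁ ↔ c = c₁) := by
            by_contra hcon
            exact hF ⟨(h₁, s, c), Finset.mem_insert_self _ _, (h₁, s₁, c₁),
              Finset.mem_insert_of_mem hm, rfl, hcon⟩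
          have h3 := hnc.2 h2.symm
          rw [← h3, h2] at hm
          exact ha hm
        rw [swp_self, h1, Equiv.swap_apply_of_ne_of_ne h2 (hCm c' hc' s₁ c₁ hm)]
      · rw [swp_ne hh]
        exact hho _ (Finset.mem_insert_of_mem hm)
  · rintro ⟨ρ, c'⟩ hp ⟨ρ₂, c₂⟩ hp₂ heq
    rw [Finset.mem_coe, Finset.mem_product, Finset.mem_filter] at hp hp₂
    obtain ⟨⟨_, _, hho⟩, _⟩ := hp
    obtain ⟨⟨_, _, hho₂⟩, _⟩ := hp₂
    simp only at hho hho₂ heq
    have hsc : ρ h s = c := hho (h, s, c) (Finset.mem_insert_self _ _)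
    have hsc₂ : ρ₂ h s = c := hho₂ (h, s, c) (Finset.mem_insert_self _ _)
    have hcc : c' = c₂ := by
      have h1 := congrFun heq h
      have h2 := congrArg (fun f => f s) h1
      simp only [swp_self] at h2
      rw [hsc, hsc₂, Equiv.swap_apply_left, Equiv.swap_apply_left] at h2
      exact h2
    subst hcc
    have hρ : ρ = ρ₂ := by
      funext h₁
      refine Equiv.ext fun s₁ => ?_
      by_cases hh : h₁ = h
      · subst hh
        have h1 := congrFun heq h₁
        have h2 := congrArg (fun f => f s₁) h1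
        simp only [swp_self] at h2
        exact (Equiv.swap c c').injective h2
      · have h1 := congrFun heq h₁
        have h2 := congrArg (fun f => f s₁) h1
        simp only [swp_ne hh] at h2
        exact h2
    rw [hρ]

theorem mh_insert {H : Type} [DecidableEq H] {K : ℕ} {F : Finset (H × Fin K × Fin K)}
    {a : H × Fin K × Fin K} (ha : a ∉ F) (h : H) :
    mh (insert a F) h = if h = a.1 then mh F h + 1 else mh F h := by
  classical
  unfold mh
  rw [Finset.filter_insert]
  by_cases h1 : a.1 = h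
  · rw [if_pos h1, if_pos h1.symm, Finset.card_insert_of_notMem]
    intro h2
    exact ha (Finset.mem_of_mem_filter _ h2)
  · rw [if_neg h1, if_neg (Ne.symm h1)]

/-- the weight of `F` -/
def Phi {H : Type} [Fintype H] [DecidableEq H] {K : ℕ} (F : Finset (H × Fin K × Fin K)) : ℕ :=
  ∏ h : H, K.descFactorial (mh F h)

theorem Phi_insert {H : Type} [Fintype H] [DecidableEq H] {K : ℕ}
    {F : Finset (H × Fin K × Fin K)} {a : H × Fin K × Fin K} (ha : a ∉ F) :
    Phi (insert a F) = (K - mh F a.1) * Phi F := by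
  unfold Phi
  have h1 : ∀ h : H, K.descFactorial (mh (insert a F) h)
      = (if h = a.1 then (K - mh F a.1) else 1) * K.descFactorial (mh F h) := by
    intro h
    rw [mh_insert ha]
    by_cases h2 : h = a.1
    · rw [if_pos h2, if_pos h2, Nat.descFactorial_succ, h2]
    · rw [if_neg h2, if_neg h2, one_mul]
  rw [Finset.prod_congr rfl fun h _ => h1 h, Finset.prod_mul_distrib, Finset.prod_ite_eq',
    if_pos (Finset.mem_univ _)]

open Classical in
theorem hold_phi {H ι : Type} [Fintype H] [DecidableEq H] {K : ℕ}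
    (E : ι → Finset (H × Fin K × Fin K)) (J : Finset ι) (F : Finset (H × Fin K × Fin K))
    (hF : ¬ Conf F F) (hJ : ∀ j ∈ J, ¬ Conf F (E j)) :
    ((univ : Finset (H → Equiv.Perm (Fin K))).filter
        fun ρ => (∀ j ∈ J, ¬ Holds ρ (E j)) ∧ Holds ρ F).card * Phi F
      ≤ ((univ : Finset (H → Equiv.Perm (Fin K))).filter
        fun ρ => (∀ j ∈ J, ¬ Holds ρ (E j))).card := by
  induction F using Finset.induction_on with
  | empty =>
    have h1 : Phi (∅ : Finset (H × Fin K × Fin K)) = 1 := by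
      unfold Phi mh
      simp
    rw [h1, mul_one]
    refine Finset.card_le_card ?_
    intro ρ hρ
    rw [Finset.mem_filter] at hρ ⊢
    exact ⟨hρ.1, hρ.2.1⟩
  | insert a F ha ih =>
    have hF' : ¬ Conf F F := fun h => hF (h.mono (Finset.subset_insert _ _)
      (Finset.subset_insert _ _))
    have hJ' : ∀ j ∈ J, ¬ Conf F (E j) := fun j hj h => hJ j hj
      (h.mono (Finset.subset_insert _ _) (Finset.Subset.refl _))
    have h1 := swap_lemma E J F a ha hF hJ
    rw [Phi_insert ha, ← mul_assoc]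
    exact le_trans (Nat.mul_le_mul_right _ h1) (ih hF' hJ')

theorem self_pow_le (m : ℕ) : m ^ m ≤ 3 ^ m * m.factorial := by
  have h1 := Real.pow_div_factorial_le_exp (m : ℝ) (Nat.cast_nonneg m) m
  have h2 : Real.exp (m : ℝ) = Real.exp 1 ^ m := by
    rw [← Real.exp_nat_mul, mul_one]
  have h3 : Real.exp 1 ^ m ≤ 3 ^ m :=
    pow_le_pow_left₀ (Real.exp_pos _).le (by linarith [Real.exp_one_lt_d9]) m
  rw [h2] at h1
  have h4 := h1.trans h3
  rw [div_le_iff₀ (by positivity)] at h4
  exact_mod_cast h4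

theorem pow_le_desc {K m : ℕ} (h : m ≤ K) : K ^ m ≤ 3 ^ m * K.descFactorial m := by
  have h1 : K ^ m * m.factorial ≤ m ^ m * K.descFactorial m := by
    rw [← Nat.descFactorial_self, Nat.descFactorial_eq_prod_range,
      Nat.descFactorial_eq_prod_range]
    have e1 : K ^ m * ∏ i ∈ Finset.range m, (m - i) = ∏ i ∈ Finset.range m, (K * (m - i)) := by
      rw [Finset.prod_mul_distrib]; simp
    have e2 : m ^ m * ∏ i ∈ Finset.range m, (K - i) = ∏ i ∈ Finset.range m, (m * (K - i)) := by
      rw [Finset.prod_mul_distrib]; simp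
    rw [e1, e2]
    refine Finset.prod_le_prod' fun i hi => ?_
    rw [Finset.mem_range] at hi
    obtain ⟨a, rfl⟩ := Nat.exists_eq_add_of_lt hi
    obtain ⟨b, rfl⟩ := Nat.exists_eq_add_of_le h
    have h2 : i + a + 1 - i = a + 1 := by omega
    have h3 : i + a + 1 + b - i = a + 1 + b := by omega
    rw [h2, h3]
    nlinarith
  have h2 : K ^ m * m.factorial ≤ (3 ^ m * K.descFactorial m) * m.factorial := by
    refine h1.trans ?_
    calc m ^ m * K.descFactorial m ≤ (3 ^ m * m.factorial) * K.descFactorial m :=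
          Nat.mul_le_mul_right _ (self_pow_le m)
      _ = _ := by ring
  exact Nat.le_of_mul_le_mul_right h2 (Nat.factorial_pos m)

theorem mh_le {H : Type} [DecidableEq H] {K : ℕ} {F : Finset (H × Fin K × Fin K)}
    (hF : ¬ Conf F F) (h : H) : mh F h ≤ K := by
  classical
  unfold mh
  have h1 : ((F.filter fun a => a.1 = h).image fun a => a.2.1).card
      = (F.filter fun a => a.1 = h).card := by
    refine Finset.card_image_of_injOn ?_
    rintro ⟨h₁, s₁, c₁⟩ h2 ⟨h₂, s₂, c₂⟩ h3 h4
    rw [Finset.mem_coe, Finset.mem_filter] at h2 h3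
    simp only at h2 h3 h4
    have h5 : h₁ = h₂ := by rw [h2.2, h3.2]
    have hnc : (s₁ = s₂ ↔ c₁ = c₂) := by
      by_contra hcon
      exact hF ⟨_, h2.1, _, h3.1, h5, hcon⟩
    rw [h5, h4, hnc.1 h4]
  rw [← h1]
  refine (Finset.card_le_univ _).trans ?_
  rw [Fintype.card_fin]

theorem sum_mh {H : Type} [Fintype H] [DecidableEq H] {K : ℕ} (F : Finset (H × Fin K × Fin K)) :
    ∑ h : H, mh F h = F.card := by
  unfold mh
  exact (Finset.card_eq_sum_card_fiberwise (f := fun a : H × Fin K × Fin K => a.1)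
    (t := Finset.univ) (fun a _ => Finset.mem_coe.2 (Finset.mem_univ _))).symm

/-- LLL1 -/
theorem hold_bound {H ι : Type} [Fintype H] [DecidableEq H] {K : ℕ}
    (E : ι → Finset (H × Fin K × Fin K)) (J : Finset ι) (F : Finset (H × Fin K × Fin K))
    (hF : ¬ Conf F F) (hJ : ∀ j ∈ J, ¬ Conf F (E j)) :
    (Nat.card {ρ : H → Equiv.Perm (Fin K) // (∀ j ∈ J, ¬ Holds ρ (E j)) ∧ Holds ρ F} : ℝ) ≤
      (3 / (K : ℝ)) ^ F.card * Nat.card {ρ : H → Equiv.Perm (Fin K) // ∀ j ∈ J, ¬ Holds ρ (E j)} := by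
  classical
  rw [Nat.card_eq_fintype_card, Nat.card_eq_fintype_card, Fintype.card_subtype,
    Fintype.card_subtype]
  have h1 := hold_phi E J F hF hJ
  have h2 : K ^ F.card ≤ 3 ^ F.card * Phi F := by
    rw [← sum_mh F, ← Finset.prod_pow_eq_pow_sum, ← Finset.prod_pow_eq_pow_sum]
    unfold Phi
    rw [← Finset.prod_mul_distrib]
    exact Finset.prod_le_prod' fun h _ => pow_le_desc (mh_le hF h)
  rcases Nat.eq_zero_or_pos K with h0 | h0
  · subst h0
    have h3 : F = ∅ := by
      refine Finset.eq_empty_of_forall_notMem ?_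
      rintro ⟨_, s, _⟩ _
      exact s.elim0
    subst h3
    simp only [Finset.card_empty, pow_zero, one_mul]
    have h4 : Phi (∅ : Finset (H × Fin 0 × Fin 0)) = 1 := by
      unfold Phi mh
      simp
    rw [h4, mul_one] at h1
    exact_mod_cast h1
  · have hK : (0:ℝ) < K := by exact_mod_cast h0
    generalize ((univ : Finset (H → Equiv.Perm (Fin K))).filter
        fun ρ => (∀ j ∈ J, ¬ Holds ρ (E j)) ∧ Holds ρ F).card = A at h1 ⊢
    generalize ((univ : Finset (H → Equiv.Perm (Fin K))).filter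
        fun ρ => (∀ j ∈ J, ¬ Holds ρ (E j))).card = B at h1 ⊢
    have h3 : A * K ^ F.card ≤ 3 ^ F.card * B := by
      calc A * K ^ F.card ≤ A * (3 ^ F.card * Phi F) := Nat.mul_le_mul_left _ h2
        _ = 3 ^ F.card * (A * Phi F) := by ring
        _ ≤ 3 ^ F.card * B := Nat.mul_le_mul_left _ h1
    have h4 : (A:ℝ) * (K:ℝ) ^ F.card ≤ 3 ^ F.card * B := by exact_mod_cast h3
    rw [div_pow, div_mul_eq_mul_div, le_div_iff₀ (by positivity)]
    exact h4

end Pool.Agent.H95.AEC
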