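import Pool.Agent.H95.AEC.LLL1

/-!
# AEC-LLL2 (lopsided local lemma for random permutations)

Proof from `hold_bound`. Write `N J = Nat.card {ρ // ∀ j ∈ J, ¬ Holds ρ (E j)}`, `x i = (6/K)^|E i|`.
Claim (strong induction on `J.card`): for every `i`,
`Nat.card {ρ // (∀ j ∈ J, ¬ Holds ρ (E j)) ∧ Holds ρ (E i)} ≤ x i * N J`.
Split `J = J₁ ∪ J₂`, `J₁ = {j ∈ J : Conf (E i) (E j)}`. By monotonicity and `hold_bound` the left side is
`≤ (3/K)^|E i| * N J₂`. If `J₁ = ∅` done. In general, adding the elements of `J₁` one at a time, the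
induction hypothesis (for the sets `J₂ ∪ J'`, `J' ⊂ J₁`) gives `N J ≥ (∏ j ∈ J₁, (1 - x j)) * N J₂`.
Every `j ∈ J₁` has, for some `a = (h,s,c) ∈ E i`, an atom `(h,s,c')` or `(h,s',c)`; hence
`∏ j ∈ J₁, (1 - x j) ≥ ∏ a ∈ E i, (1 - 1/4 - 1/4) = 2^(-|E i|)` (use `∏ (1 - x j) ≥ 1 - ∑ x j` for each
`a`, e.g. `Finset.prod_one_sub_ge..`/ a simple induction; all `x j ∈ [0, 1/4]`).
So the left side is `≤ (3/K)^|E i| * 2^|E i| * N J = x i * N J`.
Finally `N univ ≥ ∏ i, (1 - x i) * N ∅ > 0`.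
-/

set_option autoImplicit false

open Finset

namespace Pool.Agent.H95.AEC

section aux

theorem one_sub_sum_le {ι : Type} [DecidableEq ι] (x : ι → ℝ) (s : Finset ι)
    (h0 : ∀ i ∈ s, 0 ≤ x i) (h1 : ∀ i ∈ s, x i ≤ 1) :
    1 - ∑ i ∈ s, x i ≤ ∏ i ∈ s, (1 - x i) ∧ 0 ≤ ∏ i ∈ s, (1 - x i) ∧
      ∏ i ∈ s, (1 - x i) ≤ 1 := by
  induction s using Finset.induction_on with
  | empty => simp
  | insert a s ha ih =>
    obtain ⟨i1, i2, i3⟩ := ih (fun i hi => h0 i (Finset.mem_insert_of_mem hi))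
      (fun i hi => h1 i (Finset.mem_insert_of_mem hi))
    have a0 := h0 a (Finset.mem_insert_self _ _)
    have a1 := h1 a (Finset.mem_insert_self _ _)
    rw [Finset.sum_insert ha, Finset.prod_insert ha]
    refine ⟨by nlinarith, by nlinarith, by nlinarith⟩

end aux

section main

open Classical

variable {H ι : Type} [Fintype H] {K : ℕ} (E : ι → Finset (H × Fin K × Fin K))

/-- number of families avoiding all events of `J` -/
noncomputable def NN (J : Finset ι) : ℝ :=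
  Nat.card {ρ : H → Equiv.Perm (Fin K) // ∀ j ∈ J, ¬ Holds ρ (E j)}

/-- number of families avoiding all events of `J` but not the event `i` -/
noncomputable def AA (i : ι) (J : Finset ι) : ℝ :=
  Nat.card {ρ : H → Equiv.Perm (Fin K) // (∀ j ∈ J, ¬ Holds ρ (E j)) ∧ Holds ρ (E i)}

theorem NN_eq (J : Finset ι) : NN E J = (((univ : Finset (H → Equiv.Perm (Fin K))).filter
    fun ρ => ∀ j ∈ J, ¬ Holds ρ (E j)).card : ℝ) := by
  unfold NN
  rw [Nat.card_eq_fintype_card, Fintype.card_subtype]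

theorem AA_eq (i : ι) (J : Finset ι) : AA E i J = (((univ : Finset (H → Equiv.Perm (Fin K))).filter
    fun ρ => (∀ j ∈ J, ¬ Holds ρ (E j)) ∧ Holds ρ (E i)).card : ℝ) := by
  unfold AA
  rw [Nat.card_eq_fintype_card, Fintype.card_subtype]

theorem NN_nonneg (J : Finset ι) : 0 ≤ NN E J := by
  unfold NN; exact Nat.cast_nonneg _

theorem NN_insert (i : ι) (J : Finset ι) : NN E (insert i J) = NN E J - AA E i J := by
  rw [NN_eq, NN_eq, AA_eq]
  have h1 := Finset.card_filter_add_card_filter_not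
    (s := (univ : Finset (H → Equiv.Perm (Fin K))).filter fun ρ => ∀ j ∈ J, ¬ Holds ρ (E j))
    (fun ρ => Holds ρ (E i))
  rw [Finset.filter_filter, Finset.filter_filter] at h1
  have h2 : ((univ : Finset (H → Equiv.Perm (Fin K))).filter
      fun ρ => ∀ j ∈ insert i J, ¬ Holds ρ (E j))
      = ((univ : Finset (H → Equiv.Perm (Fin K))).filter
      fun ρ => (∀ j ∈ J, ¬ Holds ρ (E j)) ∧ ¬ Holds ρ (E i)) := by
    ext ρ
    simp only [Finset.mem_filter, Finset.mem_univ, true_and, Finset.mem_insert, forall_eq_or_imp]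
    exact and_comm
  rw [h2, ← h1]
  push_cast
  ring

theorem AA_mono (i : ι) {J J' : Finset ι} (h : J ⊆ J') : AA E i J' ≤ AA E i J := by
  rw [AA_eq, AA_eq]
  norm_cast
  refine Finset.card_le_card ?_
  intro ρ hρ
  rw [Finset.mem_filter] at hρ ⊢
  exact ⟨hρ.1, fun j hj => hρ.2.1 j (h hj), hρ.2.2⟩

/-- the weight of an event -/
noncomputable def xx (i : ι) : ℝ := (6 / (K : ℝ)) ^ (E i).card

theorem xx_nonneg (i : ι) : 0 ≤ xx E i := by
  unfold xx; positivity

variable [Fintype ι]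

theorem xx_le (hne : ∀ i, (E i).Nonempty)
    (hs : ∀ h s, ∑ i with (∃ c, (h, s, c) ∈ E i), (6 / (K : ℝ)) ^ (E i).card ≤ 1 / 4) (i : ι) :
    xx E i ≤ 1 / 4 := by
  obtain ⟨⟨h, s, c⟩, ha⟩ := hne i
  refine le_trans ?_ (hs h s)
  exact Finset.single_le_sum (f := fun i => (6 / (K : ℝ)) ^ (E i).card)
    (fun j _ => by positivity) (Finset.mem_filter.2 ⟨Finset.mem_univ _, c, ha⟩)

/-- events sharing a slot or a colour with the atom `a` -/
noncomputable def TT (a : H × Fin K × Fin K) : Finset ι :=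
  univ.filter fun j => (∃ c', (a.1, a.2.1, c') ∈ E j) ∨ ∃ s', (a.1, s', a.2.2) ∈ E j

theorem sum_TT (hs : ∀ h s, ∑ i with (∃ c, (h, s, c) ∈ E i), (6 / (K : ℝ)) ^ (E i).card ≤ 1 / 4)
    (hc : ∀ h c, ∑ i with (∃ s, (h, s, c) ∈ E i), (6 / (K : ℝ)) ^ (E i).card ≤ 1 / 4)
    (a : H × Fin K × Fin K) : ∑ j ∈ TT E a, xx E j ≤ 1 / 2 := by
  unfold TT xx
  rw [Finset.filter_or]
  have h1 := hs a.1 a.2.1
  have h2 := hc a.1 a.2.2
  have h3 := Finset.sum_union_inter
    (s₁ := univ.filter fun j => ∃ c', (a.1, a.2.1, c') ∈ E j)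
    (s₂ := univ.filter fun j => ∃ s', (a.1, s', a.2.2) ∈ E j)
    (f := fun j => (6 / (K : ℝ)) ^ (E j).card)
  have h4 : 0 ≤ ∑ j ∈ (univ.filter fun j => ∃ c', (a.1, a.2.1, c') ∈ E j) ∩
      (univ.filter fun j => ∃ s', (a.1, s', a.2.2) ∈ E j), (6 / (K : ℝ)) ^ (E j).card :=
    Finset.sum_nonneg fun j _ => by positivity
  linarith

theorem prod_ge (hne : ∀ i, (E i).Nonempty)
    (hs : ∀ h s, ∑ i with (∃ c, (h, s, c) ∈ E i), (6 / (K : ℝ)) ^ (E i).card ≤ 1 / 4)
    (hc : ∀ h c, ∑ i with (∃ s, (h, s, c) ∈ E i), (6 / (K : ℝ)) ^ (E i).card ≤ 1 / 4)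
    (D : Finset (H × Fin K × Fin K)) :
    ∀ J : Finset ι, J ⊆ D.biUnion (TT E) → (1 / 2 : ℝ) ^ D.card ≤ ∏ j ∈ J, (1 - xx E j) := by
  have hx1 : ∀ j, xx E j ≤ 1 := fun j => (xx_le E hne hs j).trans (by norm_num)
  induction D using Finset.induction_on with
  | empty =>
    intro J hJ
    have : J = ∅ := by
      rw [Finset.biUnion_empty] at hJ
      exact Finset.subset_empty.1 hJ
    subst this
    simp
  | insert a D ha ih =>
    intro J hJ
    have h1 := Finset.prod_filter_mul_prod_filter_not J (fun j => j ∈ TT E a)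
      (fun j => 1 - xx E j)
    rw [← h1, Finset.card_insert_of_notMem ha, pow_succ']
    have h2 : (1 / 2 : ℝ) ≤ ∏ j ∈ J with j ∈ TT E a, (1 - xx E j) := by
      have h3 := (one_sub_sum_le (xx E) (J.filter fun j => j ∈ TT E a)
        (fun j _ => xx_nonneg E j) (fun j _ => hx1 j)).1
      have h4 : ∑ j ∈ J with j ∈ TT E a, xx E j ≤ ∑ j ∈ TT E a, xx E j :=
        Finset.sum_le_sum_of_subset_of_nonneg (fun j hj => (Finset.mem_filter.1 hj).2)
          (fun j _ _ => xx_nonneg E j)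
      have h5 := sum_TT E hs hc a
      linarith
    have h6 : (1 / 2 : ℝ) ^ D.card ≤ ∏ j ∈ J with ¬ j ∈ TT E a, (1 - xx E j) := by
      refine ih _ ?_
      intro j hj
      rw [Finset.mem_filter] at hj
      have h7 := hJ hj.1
      rw [Finset.biUnion_insert, Finset.mem_union] at h7
      rcases h7 with h7 | h7
      · exact absurd h7 hj.2
      · exact h7
    exact mul_le_mul h2 h6 (by positivity) (by linarith)

theorem main_claim (hne : ∀ i, (E i).Nonempty) (hself : ∀ i, ¬ Conf (E i) (E i))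
    (hs : ∀ h s, ∑ i with (∃ c, (h, s, c) ∈ E i), (6 / (K : ℝ)) ^ (E i).card ≤ 1 / 4)
    (hc : ∀ h c, ∑ i with (∃ s, (h, s, c) ∈ E i), (6 / (K : ℝ)) ^ (E i).card ≤ 1 / 4)
    (n : ℕ) : ∀ J : Finset ι, J.card = n → ∀ i, AA E i J ≤ xx E i * NN E J := by
  have hx1 : ∀ j, xx E j ≤ 1 := fun j => (xx_le E hne hs j).trans (by norm_num)
  induction n using Nat.strong_induction_on with
  | _ n ih =>
    intro J hJ i
    obtain ⟨J₁, hJ₁⟩ : ∃ J₁, J₁ = J.filter fun j => Conf (E i) (E j) := ⟨_, rfl⟩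
    obtain ⟨J₂, hJ₂⟩ : ∃ J₂, J₂ = J.filter fun j => ¬ Conf (E i) (E j) := ⟨_, rfl⟩
    have hJ₂J : J₂ ⊆ J := by rw [hJ₂]; exact Finset.filter_subset _ _
    have hJ₁J : J₁ ⊆ J := by rw [hJ₁]; exact Finset.filter_subset _ _
    have hun : J₂ ∪ J₁ = J := by
      rw [hJ₁, hJ₂, Finset.union_comm]; exact Finset.filter_union_filter_not_eq _ _
    have hdj : ∀ j ∈ J₁, j ∉ J₂ := by
      intro j h1 h2
      rw [hJ₁, Finset.mem_filter] at h1
      rw [hJ₂, Finset.mem_filter] at h2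
      exact h2.2 h1.2
    -- the bound from `hold_bound`
    have hb : AA E i J₂ ≤ (3 / (K : ℝ)) ^ (E i).card * NN E J₂ := by
      have h2 := hold_bound E J₂ (E i) (hself i) (fun j hj => by
        rw [hJ₂, Finset.mem_filter] at hj
        exact hj.2)
      exact h2
    -- adding the elements of `J₁`
    have hstep : ∀ J' : Finset ι, J' ⊆ J₁ →
        (∏ j ∈ J', (1 - xx E j)) * NN E J₂ ≤ NN E (J₂ ∪ J') := by
      intro J'
      induction J' using Finset.induction_on with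
      | empty => intro _; simp
      | insert j J' hj ih' =>
        intro hsub
        have h1 := ih' ((Finset.subset_insert _ _).trans hsub)
        have hjJ₁ : j ∈ J₁ := hsub (Finset.mem_insert_self _ _)
        have hcard : (J₂ ∪ J').card < n := by
          rw [← hJ]
          refine Finset.card_lt_card ⟨?_, ?_⟩
          · intro x hx
            rw [Finset.mem_union] at hx
            rcases hx with hx | hx
            · exact hJ₂J hx
            · exact hJ₁J (hsub (Finset.mem_insert_of_mem hx))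
          · intro hcon
            have h2 := hcon (hJ₁J hjJ₁)
            rw [Finset.mem_union] at h2
            rcases h2 with h2 | h2
            · exact hdj j hjJ₁ h2
            · exact hj h2
        have h3 := ih _ hcard (J₂ ∪ J') rfl j
        rw [Finset.union_insert, NN_insert, Finset.prod_insert hj]
        have h4 := hx1 j
        have h5 := NN_nonneg E (J₂ ∪ J')
        calc (1 - xx E j) * (∏ j ∈ J', (1 - xx E j)) * NN E J₂
            = (1 - xx E j) * ((∏ j ∈ J', (1 - xx E j)) * NN E J₂) := by ring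
          _ ≤ (1 - xx E j) * NN E (J₂ ∪ J') := mul_le_mul_of_nonneg_left h1 (by linarith)
          _ = NN E (J₂ ∪ J') - xx E j * NN E (J₂ ∪ J') := by ring
          _ ≤ _ := by linarith
    have h1 := hstep J₁ (Finset.Subset.refl _)
    rw [hun] at h1
    have h2 := prod_ge E hne hs hc (E i) J₁ (by
      intro j hj
      rw [hJ₁, Finset.mem_filter] at hj
      obtain ⟨⟨h₁, s₁, c₁⟩, ha, ⟨h₂, s₂, c₂⟩, ha', hh, hcf⟩ := hj.2
      simp only at hh hcf
      subst hh
      rw [Finset.mem_biUnion]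
      refine ⟨_, ha, ?_⟩
      unfold TT
      rw [Finset.mem_filter]
      refine ⟨Finset.mem_univ _, ?_⟩
      by_cases h3 : s₁ = s₂
      · left; subst h3; exact ⟨c₂, ha'⟩
      · right
        have h4 : c₁ = c₂ := by
          by_contra h4
          exact hcf ⟨fun h => absurd h h3, fun h => absurd h h4⟩
        subst h4
        exact ⟨s₂, ha'⟩)
    have h3 : (1 / 2 : ℝ) ^ (E i).card * NN E J₂ ≤ NN E J :=
      (mul_le_mul_of_nonneg_right h2 (NN_nonneg E J₂)).trans h1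
    have h4 : NN E J₂ ≤ 2 ^ (E i).card * NN E J := by
      have h5 : (2:ℝ) ^ (E i).card * (1 / 2) ^ (E i).card = 1 := by
        rw [← mul_pow]; norm_num
      calc NN E J₂ = (2 ^ (E i).card * (1 / 2) ^ (E i).card) * NN E J₂ := by rw [h5, one_mul]
        _ = 2 ^ (E i).card * ((1 / 2) ^ (E i).card * NN E J₂) := by ring
        _ ≤ _ := mul_le_mul_of_nonneg_left h3 (by positivity)
    calc AA E i J ≤ AA E i J₂ := AA_mono E i hJ₂J
      _ ≤ (3 / (K : ℝ)) ^ (E i).card * NN E J₂ := hb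
      _ ≤ (3 / (K : ℝ)) ^ (E i).card * (2 ^ (E i).card * NN E J) :=
        mul_le_mul_of_nonneg_left h4 (by positivity)
      _ = xx E i * NN E J := by
        unfold xx
        rw [← mul_assoc, ← mul_pow]
        congr 2
        ring

theorem NN_pos (hne : ∀ i, (E i).Nonempty) (hself : ∀ i, ¬ Conf (E i) (E i))
    (hs : ∀ h s, ∑ i with (∃ c, (h, s, c) ∈ E i), (6 / (K : ℝ)) ^ (E i).card ≤ 1 / 4)
    (hc : ∀ h c, ∑ i with (∃ s, (h, s, c) ∈ E i), (6 / (K : ℝ)) ^ (E i).card ≤ 1 / 4)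
    (J : Finset ι) : 0 < NN E J := by
  induction J using Finset.induction_on with
  | empty =>
    rw [NN_eq]
    refine Nat.cast_pos.2 ?_
    rw [Finset.card_pos]
    exact ⟨1, by simp⟩
  | insert j J hj ih =>
    rw [NN_insert]
    have h1 := main_claim E hne hself hs hc _ J rfl j
    have h2 := xx_le E hne hs j
    nlinarith

end main

open Classical in
/-- LLL2 -/
theorem lll {H ι : Type} [Fintype H] [Fintype ι] {K : ℕ}
    (E : ι → Finset (H × Fin K × Fin K))
    (hne : ∀ i, (E i).Nonempty) (hself : ∀ i, ¬ Conf (E i) (E i))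
    (hs : ∀ h s, ∑ i with (∃ c, (h, s, c) ∈ E i), (6 / (K : ℝ)) ^ (E i).card ≤ 1 / 4)
    (hc : ∀ h c, ∑ i with (∃ s, (h, s, c) ∈ E i), (6 / (K : ℝ)) ^ (E i).card ≤ 1 / 4) :
    ∃ ρ : H → Equiv.Perm (Fin K), ∀ i, ¬ Holds ρ (E i) := by
  have h1 := NN_pos E hne hself hs hc univ
  unfold NN at h1
  have h2 := Nat.cast_pos.1 h1
  obtain ⟨⟨ρ, hρ⟩⟩ := (Nat.card_pos_iff.1 h2).1
  exact ⟨ρ, fun i => hρ i (Finset.mem_univ i)⟩

end Pool.Agent.H95.AEC
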