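import Pool.Agent.H95.AEC.Proper

/-!
# AEC-SHAPE: a bichromatic cycle of `ccol` gives a valid shape all of whose constraints hold

Let `inf = true` iff `β = none`. Edge `i` of the cycle is `lo i → hi i`, its colour is `fcol (lo i) (hi i)`.
Types (write `v = hi i`, `w = lo i`):
* colour `≠ none`: if `Lift w v a` for some `a` (take `a` = the chosen one, so that the colour is `q v a`):
  `t i = some (a, none)`; the colour is the value of `asl i = (v, a)` and `con2 = (raw i, (a, v))` holds.
  Otherwise `t i = none`, colour = value of `asl i = raw i = (v, w)`.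
* colour `= none` (then `inf = true`, `i` odd): there are `a, b` with `Lift2 w v a b`, i.e. `Up v a`, `Up a b`,
  `q a v = q b a`, `q v w = q a b`. If `{v, a}` is not an edge of the cycle (no `j` with `raw j = (a, v)`) put
  `t i = some (a, some b)`: `con1 i = (raw i, (a, b))` and `con2 i = ((a, v), (b, a))` hold.
  Otherwise put `t i = none`: `raw j = (a, v)` for some `j ≠ i`; the edges `i`, `j` shp_share `v`, so they are
  consecutive on the cycle and edge `j` has colour `α ≠ none`; as `Lift v a b`, the colour of
  `v → a` is `q a b'` with `Lift v a b'`, and `b' = b` by `x1`; so `α = some (q a b) = some (q v w)` is the value of `raw i`.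
So in all cases where `con1 i` has target `asl 0` or `asl 1` the value of `asl i` is the colour `α` or `β` (for
`inf = true`, always `α`; here `t 0` is of the first kind, and `asl 0` has value `α`; for `inf = false` `asl 1` has
value `β`), and `con1` holds.
Validity: `adj`, `up1`, `up2`, `kind` clear. `(con1 i).1 = asl i`.
`f11`: `asl i = asl j`. If both are raw: `{x i, x (i+1)} = {x j, x (j+1)}`, so `i = j` (`x` injective, length ≥ 4).
`(v, a) = raw j`: `a` is above `v`, `lo j` is below. `(v, a) = (v', a')`: both edges `i`, `j` have upper end `v` and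
`q v (lo i) = q a v = q v (lo j)`, so `lo i = lo j` by `inj` and `i = j`.
`f12`: `(con2 j).1` is `raw j` (lifted) or `(a, hi j)` (second level). `asl i = raw j` with `asl i = raw i`: then
`i = j`, but `t j` lifted means `asl j ≠ raw j`; with `asl i = (hi i, a')`: above/below. `asl i = (a, hi j)`:
`raw i = (a, hi j)` is excluded by the choice of the type; `(hi i, a') = (a, hi j)`: `r a' > r (hi i) = r a > r (hi j) = r a'`.
`f22`: `raw i = raw j`: `i = j`; `raw i = (a, hi j)` excluded; `(a, hi i) = (a', hi j)`: both edges `i`, `j` have colour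
`none` and the same upper end, and are both odd; if `i ≠ j` they are consecutive on the cycle and one of them is even.
(For consecutive: `x i = x (j+1)` or `x (i+1) = x j` or `x i = x j` or `x (i+1) = x (j+1)`; parity of `i+1` is
opposite to that of `i` since `2n+4` is even.)
-/

set_option autoImplicit false

open Finset

namespace Pool.Agent.H95.AEC

section

variable {V : Type} {G : SimpleGraph V} {r : V → ℕ} {K : ℕ} {q : V → V → Fin K} {n : ℕ}
  {x : Fin (2 * n + 4) → V}

theorem shp_fin_succ_parity (i : Fin (2 * n + 4)) :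
    ((i + 1 : Fin (2 * n + 4)) : ℕ) % 2 = ((i : ℕ) + 1) % 2 := by
  rw [Fin.val_add]
  have h1 : ((1 : Fin (2 * n + 4)) : ℕ) = 1 := by
    rw [Fin.val_one']
    exact Nat.mod_eq_of_lt (by omega)
  rw [h1]
  exact Nat.mod_mod_of_dvd _ (by omega)

theorem shp_fin_two_ne (i : Fin (2 * n + 4)) : i + 1 + 1 ≠ i := by
  intro h
  have h1 : (1 + 1 : Fin (2 * n + 4)) = 0 := by
    have h2 : i + (1 + 1) = i + 0 := by rw [← add_assoc, h, add_zero]
    exact add_left_cancel h2
  have h3 := congrArg Fin.val h1
  rw [Fin.val_add] at h3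
  have h4 : ((1 : Fin (2 * n + 4)) : ℕ) = 1 := by
    rw [Fin.val_one']
    exact Nat.mod_eq_of_lt (by omega)
  rw [h4] at h3
  rw [Nat.mod_eq_of_lt (by omega)] at h3
  simp at h3

/-- the two shp_ends of an edge -/
theorem shp_ends (i : Fin (2 * n + 4)) :
    (hi r x i = x i ∧ lo r x i = x (i + 1)) ∨ (hi r x i = x (i + 1) ∧ lo r x i = x i) := by
  unfold hi lo
  split_ifs
  · exact Or.inr ⟨rfl, rfl⟩
  · exact Or.inl ⟨rfl, rfl⟩

theorem shp_lo_lt_hi (hr : Function.Injective r) (hadj : ∀ i, G.Adj (x i) (x (i + 1)))
    (i : Fin (2 * n + 4)) : r (lo r x i) < r (hi r x i) := by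
  have h1 : r (x i) ≠ r (x (i + 1)) := fun e => (hadj i).ne (hr e)
  unfold hi lo
  split_ifs with h
  · exact h
  · omega

theorem shp_up_edge (hr : Function.Injective r) (hadj : ∀ i, G.Adj (x i) (x (i + 1)))
    (i : Fin (2 * n + 4)) : Up G r (lo r x i) (hi r x i) := by
  refine ⟨?_, shp_lo_lt_hi hr hadj i⟩
  rcases shp_ends (r := r) (x := x) i with ⟨h1, h2⟩ | ⟨h1, h2⟩ <;> rw [h1, h2]
  · exact (hadj i).symm
  · exact hadj i

theorem shp_ccol_edge (i : Fin (2 * n + 4)) :
    ccol G r q (x i) (x (i + 1)) = fcol G r q (lo r x i) (hi r x i) := by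
  unfold ccol hi lo
  split_ifs <;> rfl

theorem shp_share {i j : Fin (2 * n + 4)} (hx : Function.Injective x) (hij : i ≠ j) (v : V)
    (hi' : v = x i ∨ v = x (i + 1)) (hj : v = x j ∨ v = x (j + 1)) :
    (i : ℕ) % 2 ≠ (j : ℕ) % 2 := by
  have p1 := shp_fin_succ_parity i
  have p2 := shp_fin_succ_parity j
  rcases hi' with h1 | h1 <;> rcases hj with h2 | h2
  · exact absurd (hx (h1.symm.trans h2)) hij
  · have h3 : i = j + 1 := hx (h1.symm.trans h2)
    rw [h3, p2]
    omega
  · have h3 : i + 1 = j := hx (h1.symm.trans h2)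
    rw [← h3, p1]
    omega
  · exact absurd (add_right_cancel (hx (h1.symm.trans h2))) hij

theorem shp_raw_inj (hx : Function.Injective x) {i j : Fin (2 * n + 4)}
    (h : raw r x i = raw r x j) : i = j := by
  have h1 : hi r x i = hi r x j := congrArg Prod.fst h
  have h2 : lo r x i = lo r x j := congrArg Prod.snd h
  rcases shp_ends (r := r) (x := x) i with ⟨a1, a2⟩ | ⟨a1, a2⟩ <;>
    rcases shp_ends (r := r) (x := x) j with ⟨b1, b2⟩ | ⟨b1, b2⟩
  · exact hx (a1.symm.trans (h1.trans b1))
  · have c1 : i = j + 1 := hx (a1.symm.trans (h1.trans b1))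
    have c2 : i + 1 = j := hx (a2.symm.trans (h2.trans b2))
    rw [← c2] at c1
    exact absurd c1.symm (shp_fin_two_ne i)
  · have c1 : i + 1 = j := hx (a1.symm.trans (h1.trans b1))
    have c2 : i = j + 1 := hx (a2.symm.trans (h2.trans b2))
    rw [← c1] at c2
    exact absurd c2.symm (shp_fin_two_ne i)
  · exact hx (a2.symm.trans (h2.trans b2))

/-- if `lo i` and `hi i` are determined then so is `i` -/
theorem shp_hi_mem (i : Fin (2 * n + 4)) : hi r x i = x i ∨ hi r x i = x (i + 1) := by
  rcases shp_ends (r := r) (x := x) i with ⟨a1, a2⟩ | ⟨a1, a2⟩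
  · exact Or.inl a1
  · exact Or.inr a1

theorem shp_lo_mem (i : Fin (2 * n + 4)) : lo r x i = x i ∨ lo r x i = x (i + 1) := by
  rcases shp_ends (r := r) (x := x) i with ⟨a1, a2⟩ | ⟨a1, a2⟩
  · exact Or.inr a2
  · exact Or.inl a2

/-- the properties of the type of the edge `i` -/
def TyOK (G : SimpleGraph V) (r : V → ℕ) (q : V → V → Fin K) (x : Fin (2 * n + 4) → V)
    (α : Option (Fin K)) (i : Fin (2 * n + 4)) : Ty V → Prop
  | none => fcol G r q (lo r x i) (hi r x i) = some (q (hi r x i) (lo r x i)) ∨
      (fcol G r q (lo r x i) (hi r x i) = none ∧ α = some (q (hi r x i) (lo r x i)))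
  | some (a, none) => fcol G r q (lo r x i) (hi r x i) = some (q (hi r x i) a) ∧
      Lift G r q (lo r x i) (hi r x i) a
  | some (a, some b) => fcol G r q (lo r x i) (hi r x i) = none ∧
      Lift2 G r q (lo r x i) (hi r x i) a b ∧ ∀ j, raw r x j ≠ (a, hi r x i)

theorem exists_ty (hr : Function.Injective r) (hg : Good G r q)
    (hx : Function.Injective x) (hadj : ∀ i, G.Adj (x i) (x (i + 1))) (α β : Option (Fin K))
    (hα : α ≠ none)
    (hc : ∀ i : Fin (2 * n + 4), ccol G r q (x i) (x (i + 1)) = if (i : ℕ) % 2 = 0 then α else β)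
    (i : Fin (2 * n + 4)) : ∃ τ, TyOK G r q x α i τ := by
  rcases fcol_cases G r q (lo r x i) (hi r x i) with ⟨e1, a, b, hL⟩ | ⟨a, e1, hL, -⟩ | ⟨e1, -, -⟩
  · by_cases hex : ∃ j, raw r x j = (a, hi r x i)
    · obtain ⟨j, hj⟩ := hex
      refine ⟨none, Or.inr ⟨e1, ?_⟩⟩
      have hj1 : hi r x j = a := congrArg Prod.fst hj
      have hj2 : lo r x j = hi r x i := congrArg Prod.snd hj
      have hij : i ≠ j := by
        intro e
        have := shp_lo_lt_hi hr hadj i
        rw [← e] at hj2
        rw [hj2] at this
        exact lt_irrefl _ this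
      have hpar := shp_share hx hij (hi r x i) (shp_hi_mem i) (by
        rw [← hj2]
        exact shp_lo_mem j)
      have hci := hc i
      rw [shp_ccol_edge, e1] at hci
      have hi2 : ¬ (i : ℕ) % 2 = 0 := by
        intro e
        rw [if_pos e] at hci
        exact hα hci.symm
      have hcj := hc j
      rw [if_pos (by omega), shp_ccol_edge, hj1, hj2] at hcj
      rcases fcol_cases G r q (hi r x i) a with ⟨e2, -⟩ | ⟨b', e2, hL', -⟩ | ⟨e2, h3, -⟩
      · rw [e2] at hcj
        exact absurd hcj.symm hα
      · have hbb : b = b' := by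
          by_contra hbb
          exact hg.x1 a b b' hL.2.1.2.1 hL'.2.1 hbb (hL.2.1.2.2.symm.trans hL'.2.2)
        rw [← hcj, e2, hL.2.2, hbb]
      · exact absurd hL.2.1 (h3 b)
    · exact ⟨some (a, some b), e1, hL, fun j hj => hex ⟨j, hj⟩⟩
  · exact ⟨some (a, none), e1, hL⟩
  · exact ⟨none, Or.inl e1⟩

theorem shp_con1_fst (inf : Bool) (t : Fin (2 * n + 4) → Ty V) (i : Fin (2 * n + 4)) :
    (con1 r inf x t i).1 = asl r x t i := by
  unfold con1 asl
  rcases t i with _ | ⟨a, _ | b⟩ <;> rfl

end

/-- SHAPE -/
theorem shape_of_cycle {V : Type} (G : SimpleGraph V) (r : V → ℕ) (hr : Function.Injective r)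
    {K : ℕ} (q : V → V → Fin K) (hg : Good G r q) {n : ℕ} (x : Fin (2 * n + 4) → V)
    (hx : Function.Injective x) (hadj : ∀ i, G.Adj (x i) (x (i + 1))) (α β : Option (Fin K))
    (hαβ : α ≠ β) (hα : α ≠ none)
    (hc : ∀ i : Fin (2 * n + 4), ccol G r q (x i) (x (i + 1)) = if (i : ℕ) % 2 = 0 then α else β) :
    ∃ (inf : Bool) (t : Fin (2 * n + 4) → Ty V), Valid G r inf x t ∧
      ∀ p ∈ cC r inf x t, q p.1.1 p.1.2 = q p.2.1 p.2.2 := by
  classical
  choose t ht using exists_ty hr hg hx hadj α β hα hc
  have hlt := shp_lo_lt_hi (r := r) (x := x) hr hadj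
  have hc' : ∀ i : Fin (2 * n + 4), fcol G r q (lo r x i) (hi r x i) =
      if (i : ℕ) % 2 = 0 then α else β := fun i => by rw [← shp_ccol_edge, hc i]
  have hbe : ∀ i, fcol G r q (lo r x i) (hi r x i) = none → β = none ∧ ¬ (i : ℕ) % 2 = 0 := by
    intro i h
    have h1 := hc' i
    rw [h] at h1
    split_ifs at h1 with h2
    · exact absurd h1.symm hα
    · exact ⟨h1.symm, h2⟩
  -- types
  have hvia : ∀ i a, t i = some (a, none) → fcol G r q (lo r x i) (hi r x i) = some (q (hi r x i) a) ∧
      Lift G r q (lo r x i) (hi r x i) a := by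
    intro i a h
    have := ht i
    rw [h] at this
    exact this
  have hN : ∀ i a b, t i = some (a, some b) → fcol G r q (lo r x i) (hi r x i) = none ∧
      Lift2 G r q (lo r x i) (hi r x i) a b ∧ ∀ j, raw r x j ≠ (a, hi r x i) := by
    intro i a b h
    have := ht i
    rw [h] at this
    exact this
  have hpl : ∀ i, t i = none → fcol G r q (lo r x i) (hi r x i) = some (q (hi r x i) (lo r x i)) ∨
      (fcol G r q (lo r x i) (hi r x i) = none ∧ α = some (q (hi r x i) (lo r x i))) := by
    intro i h
    have := ht i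
    rw [h] at this
    exact this
  have hcases : ∀ i, t i = none ∨ (∃ a, t i = some (a, none)) ∨ ∃ a b, t i = some (a, some b) := by
    intro i
    rcases h : t i with _ | ⟨a, _ | b⟩
    · exact Or.inl rfl
    · exact Or.inr (Or.inl ⟨a, rfl⟩)
    · exact Or.inr (Or.inr ⟨a, b, rfl⟩)
  have asl_none : ∀ i, t i = none → asl r x t i = raw r x i := by
    intro i h
    unfold asl
    rw [h]
  have asl_via : ∀ i a, t i = some (a, none) → asl r x t i = (hi r x i, a) := by
    intro i a h
    unfold asl
    rw [h]
  have asl_N : ∀ i a b, t i = some (a, some b) → asl r x t i = raw r x i := by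
    intro i a b h
    unfold asl
    rw [h]
  have con2_via : ∀ i a, t i = some (a, none) → con2 r x t i = (raw r x i, (a, hi r x i)) := by
    intro i a h
    unfold con2
    rw [h]
  have con2_N : ∀ i a b, t i = some (a, some b) → con2 r x t i = ((a, hi r x i), (b, a)) := by
    intro i a b h
    unfold con2
    rw [h]
  -- `asl i` is either `raw i` (not lifted) or `(hi i, a)` with `a` above `hi i`
  have hasl : ∀ i, (asl r x t i = raw r x i ∧ ∀ a, t i ≠ some (a, none)) ∨
      ∃ a, asl r x t i = (hi r x i, a) ∧ t i = some (a, none) ∧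
        Lift G r q (lo r x i) (hi r x i) a := by
    intro i
    rcases hcases i with h | ⟨a, h⟩ | ⟨a, b, h⟩
    · exact Or.inl ⟨asl_none i h, fun a => by rw [h]; exact (by simp)⟩
    · exact Or.inr ⟨a, asl_via i a h, h, (hvia i a h).2⟩
    · exact Or.inl ⟨asl_N i a b h, fun a' => by rw [h]; exact (by simp)⟩
  have hval : Valid G r (decide (β = none)) x t := by
    refine ⟨hadj, ?_, ?_, ?_, ?_, ?_, ?_⟩
    · intro i a o h
      rcases o with _ | b
      · exact (hvia i a h).2.2.1
      · exact (hN i a b h).2.1.2.1.1
    · intro i a b h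
      exact (hN i a b h).2.1.2.1.2.1
    · intro i a b h
      exact decide_eq_true (hbe i (hN i a b h).1).1
    · -- f11
      intro i j hij
      rw [shp_con1_fst, shp_con1_fst] at hij
      rcases hasl i with ⟨h1, -⟩ | ⟨a, h1, -, hL⟩ <;> rcases hasl j with ⟨h2, -⟩ | ⟨b, h2, -, hL'⟩ <;>
        rw [h1, h2] at hij
      · exact shp_raw_inj hx hij
      · -- raw i = (hi j, b)
        exfalso
        have e1 : hi r x i = hi r x j := congrArg Prod.fst hij
        have e2 : lo r x i = b := congrArg Prod.snd hij
        have e3 := hL'.2.1.2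
        have e4 := hlt i
        rw [e2, e1] at e4
        omega
      · exfalso
        have e1 : hi r x i = hi r x j := congrArg Prod.fst hij
        have e2 : a = lo r x j := congrArg Prod.snd hij
        have e3 := hL.2.1.2
        have e4 := hlt j
        rw [← e2, ← e1] at e4
        omega
      · have e1 : hi r x i = hi r x j := congrArg Prod.fst hij
        have e2 : a = b := congrArg Prod.snd hij
        have e5 : lo r x i = lo r x j := by
          apply hg.inj (hi r x i)
          · exact (shp_up_edge hr hadj i).1.symm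
          · rw [e1]
            exact (shp_up_edge hr hadj j).1.symm
          · rw [hL.2.2, e2, e1, ← hL'.2.2]
        exact shp_raw_inj hx (Prod.ext e1 e5)
    · -- f12
      intro i j hj hij
      rw [shp_con1_fst] at hij
      rcases hcases j with h | ⟨b, h⟩ | ⟨b, c, h⟩
      · exact hj h
      · rw [con2_via j b h] at hij
        simp only at hij
        rcases hasl i with ⟨h1, h1'⟩ | ⟨a, h1, -, hL⟩ <;> rw [h1] at hij
        · have := shp_raw_inj hx hij
          rw [this] at h1'
          exact h1' b h
        · have e1 : hi r x i = hi r x j := congrArg Prod.fst hij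
          have e2 : a = lo r x j := congrArg Prod.snd hij
          have e3 := hL.2.1.2
          have e4 := hlt j
          rw [← e2, ← e1] at e4
          omega
      · rw [con2_N j b c h] at hij
        simp only at hij
        rcases hasl i with ⟨h1, -⟩ | ⟨a, h1, -, hL⟩ <;> rw [h1] at hij
        · exact (hN j b c h).2.2 i hij
        · have e1 : hi r x i = b := congrArg Prod.fst hij
          have e2 : a = hi r x j := congrArg Prod.snd hij
          have e3 := hL.2.1.2
          have e4 := (hN j b c h).2.1.2.1.1.2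
          rw [e1, e2] at e3
          omega
    · -- f22
      intro i j hi' hj hij
      rcases hcases i with h | ⟨a, h⟩ | ⟨a, a', h⟩
      · exact absurd h hi'
      · rw [con2_via i a h] at hij
        rcases hcases j with g | ⟨b, g⟩ | ⟨b, c, g⟩
        · exact absurd g hj
        · rw [con2_via j b g] at hij
          exact shp_raw_inj hx hij
        · rw [con2_N j b c g] at hij
          exact absurd hij ((hN j b c g).2.2 i)
      · rw [con2_N i a a' h] at hij
        rcases hcases j with g | ⟨b, g⟩ | ⟨b, c, g⟩
        · exact absurd g hj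
        · rw [con2_via j b g] at hij
          exact absurd hij.symm ((hN i a a' h).2.2 j)
        · rw [con2_N j b c g] at hij
          have e2 : hi r x i = hi r x j := congrArg Prod.snd hij
          by_contra hne
          have p1 := (hbe i (hN i a a' h).1).2
          have p2 := (hbe j (hN j b c g).1).2
          have p3 := shp_share hx hne (hi r x i) (shp_hi_mem i) (by rw [e2]; exact shp_hi_mem j)
          omega
  refine ⟨decide (β = none), t, hval, ?_⟩
  -- value of `asl i`
  have hv : ∀ i, (∀ a b, t i ≠ some (a, some b)) →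
      some (q (asl r x t i).1 (asl r x t i).2) =
        if ((i : ℕ) % 2 = 0 ∨ decide (β = none) = true) then α else β := by
    intro i h
    have hT : fcol G r q (lo r x i) (hi r x i) ≠ none → fcol G r q (lo r x i) (hi r x i) =
        if ((i : ℕ) % 2 = 0 ∨ decide (β = none) = true) then α else β := by
      intro hne
      rw [hc' i] at hne ⊢
      by_cases h2 : (i : ℕ) % 2 = 0
      · rw [if_pos h2, if_pos (Or.inl h2)]
      · rw [if_neg h2] at hne ⊢
        rw [if_neg]
        rintro (h3 | h3)
        · exact h2 h3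
        · exact hne (of_decide_eq_true h3)
    rcases hcases i with g | ⟨a, g⟩ | ⟨a, b, g⟩
    · rw [asl_none i g]
      rcases hpl i g with g1 | ⟨g1, g2⟩
      · rw [← hT (by rw [g1]; simp), g1]
        rfl
      · have hb := (hbe i g1).1
        rw [if_pos (Or.inr (decide_eq_true hb)), g2]
        rfl
    · rw [asl_via i a g]
      have g1 := (hvia i a g).1
      rw [← hT (by rw [g1]; simp), g1]
    · exact absurd g (h a b)
  have h0 : ∀ a b, t 0 ≠ some (a, some b) := by
    intro a b h
    have := (hbe 0 (hN 0 a b h).1).2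
    exact this (by simp)
  intro p hp
  unfold cC at hp
  rw [mem_union, mem_image, mem_image] at hp
  rcases hp with ⟨i, hi', rfl⟩ | ⟨i, hi', rfl⟩
  · rcases hcases i with h | ⟨a, h⟩ | ⟨a, b, h⟩
    all_goals try
      have hNi : ∀ a b, t i ≠ some (a, some b) := by
        intro a' b'
        rw [h]
        simp
      have e1 : con1 r (decide (β = none)) x t i = (asl r x t i,
          if (i : ℕ) % 2 = 0 ∨ decide (β = none) = true then asl r x t 0 else asl r x t 1) := by
        unfold con1
        rw [h]
      rw [e1]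
      have e2 := hv i hNi
      by_cases hc1 : (i : ℕ) % 2 = 0 ∨ decide (β = none) = true
      · rw [if_pos hc1] at e2 ⊢
        have e3 := hv 0 h0
        rw [if_pos (Or.inl (by simp))] at e3
        exact Option.some.inj (e2.trans e3.symm)
      · rw [if_neg hc1] at e2 ⊢
        have h1 : ∀ a b, t 1 ≠ some (a, some b) := by
          intro a' b' h'
          exact hc1 (Or.inr (hval.kind 1 a' b' h'))
        have e3 := hv 1 h1
        have h11 : ((1 : Fin (2 * n + 4)) : ℕ) = 1 := by
          rw [Fin.val_one']
          exact Nat.mod_eq_of_lt (by omega)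
        rw [if_neg] at e3
        · exact Option.some.inj (e2.trans e3.symm)
        · rintro (h4 | h4)
          · rw [h11] at h4
            omega
          · exact hc1 (Or.inr h4)
    have e1 : con1 r (decide (β = none)) x t i = (raw r x i, (a, b)) := by
      unfold con1
      rw [h]
    rw [e1]
    exact (hN i a b h).2.1.2.2
  · rcases hcases i with h | ⟨a, h⟩ | ⟨a, b, h⟩
    · simp only [mem_filter] at hi'
      exact absurd h hi'.2
    · rw [con2_via i a h]
      exact (hvia i a h).2.2.2
    · rw [con2_N i a b h]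
      exact (hN i a b h).2.1.2.1.2.2

end Pool.Agent.H95.AEC
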