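import Pool.Agent.H95.AEC.MkFam

/-!
# AEC-X12: the families for `Good.x1` and `Good.x2`

x1: tuples `(v, a, a')` with `Up v a`, `Up v a'`, `a ≠ a'`; roles `(a,v)`, `(a',v)`, constraint `(a,v) ~ (a',v)`.
Each role has at most `k` tuples for a given dart; weight `36 / K`; total `2 k * 36 / K`.
x2: tuples `(v, a, a')` with `Up v a`, `Up v a'`; roles `(v,a)`, `(a',v)`, constraint `(v,a) ~ (a',v)`;
same bounds. (`K ≥ 10^20 k²`, `k ≥ 1`.)
-/

set_option autoImplicit false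

open Finset

namespace Pool.Agent.H95.AEC

private theorem mkFam' {V : Type} [Fintype V] (G : SimpleGraph V) (r : V → ℕ) {K : ℕ} (hK : 0 < K)
    {T : Type} [Fintype T] (ok : T → Prop) {m c : ℕ} (hm : 0 < m) (role : Fin m → T → V × V)
    (con : Fin c → Fin m × Fin m)
    (hadj : ∀ y, ok y → ∀ j, G.Adj (role j y).1 (role j y).2)
    (hinj : ∀ y, ok y → ∀ l l', l ≠ l' → role (con l).1 y ≠ role (con l').1 y)
    (hdec : ∀ y, ok y → ∀ l l', role (con l).2 y = role (con l').1 y →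
      r (role (con l).1 y).2 < r (role (con l).2 y).2)
    (B : Fin m → ℕ)
    (hcount : ∀ j d, Nat.card {y // ok y ∧ role j y = d} ≤ B j)
    (hB : (∑ j, (B j : ℝ)) * (6 ^ m / (K : ℝ) ^ c) ≤ 1 / 64) :
    SmallFam G K (fun q => ∀ y, ok y → ∃ l, q (role (con l).1 y).1 (role (con l).1 y).2 ≠
      q (role (con l).2 y).1 (role (con l).2 y).2) := by
  classical
  refine mkFam G r hK ok hm role con hadj hinj hdec (fun j => (B j : ℝ)) ?_ hB
  intro j d
  have := hcount j d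
  rw [Nat.card_eq_fintype_card, Fintype.card_subtype] at this
  refine Nat.cast_le.mpr (le_trans (le_of_eq ?_) this)
  congr

private lemma cnt {T W : Type} [Finite W] {P : T → Prop} {Q : W → Prop} {n : ℕ}
    (hn : Nat.card {w // Q w} ≤ n) (φ : T → W) (h1 : ∀ y, P y → Q (φ y))
    (h2 : ∀ y y', P y → P y' → φ y = φ y' → y = y') : Nat.card {y // P y} ≤ n := by
  refine le_trans (Nat.card_le_card_of_injective
    (fun y : {y // P y} => (⟨φ y.1, h1 y.1 y.2⟩ : {w // Q w})) ?_) hn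
  intro y y' hy
  exact Subtype.ext (h2 y.1 y'.1 y.2 y'.2 (congrArg Subtype.val hy))

private lemma big_ineq {k K : ℕ} (h1 : 1 ≤ k) (hb : 10 ^ 20 * k ^ 2 ≤ K) :
    ((k : ℝ) + k) * (6 ^ 2 / (K : ℝ) ^ 1) ≤ 1 / 64 := by
  have hk : (1 : ℝ) ≤ k := by exact_mod_cast h1
  have hK : (10 : ℝ) ^ 20 * (k : ℝ) ^ 2 ≤ K := by exact_mod_cast hb
  have hK0 : (0 : ℝ) < K := by nlinarith
  rw [pow_one, ← mul_div_assoc, div_le_div_iff₀ hK0 (by norm_num)]
  nlinarith

theorem x1_fam {V : Type} [Fintype V] (G : SimpleGraph V) (r : V → ℕ) {k K : ℕ}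
    (h : Hyp G r k K) : SmallFam G K (fun q =>
      ∀ v a a', Up G r v a → Up G r v a' → a ≠ a' → q a v ≠ q a' v) := by
  have hK : 0 < K := lt_of_lt_of_le (by have := h.one; positivity) h.big
  have key := mkFam' G r hK (T := V × V × V)
    (fun y => Up G r y.1 y.2.1 ∧ Up G r y.1 y.2.2 ∧ y.2.1 ≠ y.2.2) (m := 2) (c := 1) (by norm_num)
    (fun j y => ![(y.2.1, y.1), (y.2.2, y.1)] j) (fun _ => (0, 1))
    (by
      rintro ⟨v, a, a'⟩ ⟨h1, h2, h3⟩ j
      match j with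
      | 0 => exact h1.1.symm
      | 1 => exact h2.1.symm)
    (by
      intro y hy l l' hl
      exact absurd (Subsingleton.elim l l') hl)
    (by
      rintro ⟨v, a, a'⟩ ⟨h1, h2, h3⟩ l l' he
      have he' : (a', v) = (a, v) := he
      exact absurd (Prod.mk.inj he').1.symm h3)
    (fun _ => k)
    (by
      rintro j ⟨d1, d2⟩
      match j with
      | 0 =>
        refine cnt (h.up d2) (fun y : V × V × V => y.2.2) ?_ ?_
        · rintro ⟨v, a, a'⟩ ⟨⟨h1, h2, h3⟩, he⟩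
          obtain ⟨rfl, rfl⟩ := Prod.mk.inj (show (a, v) = (d1, d2) from he)
          exact h2
        · rintro ⟨v, a, a'⟩ ⟨w, b, b'⟩ ⟨⟨h1, h2, h3⟩, he⟩ ⟨⟨h1', h2', h3'⟩, he'⟩ hf
          obtain ⟨rfl, rfl⟩ := Prod.mk.inj (show (a, v) = (d1, d2) from he)
          obtain ⟨rfl, rfl⟩ := Prod.mk.inj (show (b, w) = (a, v) from he')
          simpa using hf
      | 1 =>
        refine cnt (h.up d2) (fun y : V × V × V => y.2.1) ?_ ?_
        · rintro ⟨v, a, a'⟩ ⟨⟨h1, h2, h3⟩, he⟩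
          obtain ⟨rfl, rfl⟩ := Prod.mk.inj (show (a', v) = (d1, d2) from he)
          exact h1
        · rintro ⟨v, a, a'⟩ ⟨w, b, b'⟩ ⟨⟨h1, h2, h3⟩, he⟩ ⟨⟨h1', h2', h3'⟩, he'⟩ hf
          obtain ⟨rfl, rfl⟩ := Prod.mk.inj (show (a', v) = (d1, d2) from he)
          obtain ⟨rfl, rfl⟩ := Prod.mk.inj (show (b', w) = (a', v) from he')
          simpa using hf)
    (by
      rw [Fin.sum_univ_two]
      exact big_ineq h.one h.big)
  refine key.mono ?_
  intro q _ hq v a a' h1 h2 h3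
  obtain ⟨l, hl⟩ := hq (v, a, a') ⟨h1, h2, h3⟩
  simpa using hl

theorem x2_fam {V : Type} [Fintype V] (G : SimpleGraph V) (r : V → ℕ) {k K : ℕ}
    (h : Hyp G r k K) : SmallFam G K (fun q =>
      ∀ v a a', Up G r v a → Up G r v a' → q v a ≠ q a' v) := by
  have hK : 0 < K := lt_of_lt_of_le (by have := h.one; positivity) h.big
  have key := mkFam' G r hK (T := V × V × V)
    (fun y => Up G r y.1 y.2.1 ∧ Up G r y.1 y.2.2) (m := 2) (c := 1) (by norm_num)
    (fun j y => ![(y.1, y.2.1), (y.2.2, y.1)] j) (fun _ => (0, 1))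
    (by
      rintro ⟨v, a, a'⟩ ⟨h1, h2⟩ j
      match j with
      | 0 => exact h1.1
      | 1 => exact h2.1.symm)
    (by
      intro y hy l l' hl
      exact absurd (Subsingleton.elim l l') hl)
    (by
      rintro ⟨v, a, a'⟩ ⟨h1, h2⟩ l l' he
      have he' : (a', v) = (v, a) := he
      have := h2.2
      rw [(Prod.mk.inj he').1] at this
      exact absurd this (lt_irrefl _))
    (fun _ => k)
    (by
      rintro j ⟨d1, d2⟩
      match j with
      | 0 =>
        refine cnt (h.up d1) (fun y : V × V × V => y.2.2) ?_ ?_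
        · rintro ⟨v, a, a'⟩ ⟨⟨h1, h2⟩, he⟩
          obtain ⟨rfl, rfl⟩ := Prod.mk.inj (show (v, a) = (d1, d2) from he)
          exact h2
        · rintro ⟨v, a, a'⟩ ⟨w, b, b'⟩ ⟨⟨h1, h2⟩, he⟩ ⟨⟨h1', h2'⟩, he'⟩ hf
          obtain ⟨rfl, rfl⟩ := Prod.mk.inj (show (v, a) = (d1, d2) from he)
          obtain ⟨rfl, rfl⟩ := Prod.mk.inj (show (w, b) = (v, a) from he')
          simpa using hf
      | 1 =>
        refine cnt (h.up d2) (fun y : V × V × V => y.2.1) ?_ ?_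
        · rintro ⟨v, a, a'⟩ ⟨⟨h1, h2⟩, he⟩
          obtain ⟨rfl, rfl⟩ := Prod.mk.inj (show (a', v) = (d1, d2) from he)
          exact h1
        · rintro ⟨v, a, a'⟩ ⟨w, b, b'⟩ ⟨⟨h1, h2⟩, he⟩ ⟨⟨h1', h2'⟩, he'⟩ hf
          obtain ⟨rfl, rfl⟩ := Prod.mk.inj (show (a', v) = (d1, d2) from he)
          obtain ⟨rfl, rfl⟩ := Prod.mk.inj (show (b', w) = (a', v) from he')
          simpa using hf)
    (by
      rw [Fin.sum_univ_two]
      exact big_ineq h.one h.big)
  refine key.mono ?_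
  intro q _ hq v a a' h1 h2
  obtain ⟨l, hl⟩ := hq (v, a, a') ⟨h1, h2⟩
  simpa using hl

end Pool.Agent.H95.AEC
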