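import Pool.Agent.H95.AEC.MkFam

/-!
# AEC-X34: the families for `Good.x3` and `Good.x4`

x3: tuples `(v, a, b, a')` with `Up v a`, `Up a b`, `Up v a'`, `a ≠ a'`; roles `(a,v)`, `(b,a)`, `(a,b)`, `(a',v)`;
constraints `(a,v) ~ (b,a)` and `(a,b) ~ (a',v)`. Numbers of tuples for a given dart: `k²`, `kK`, `kK`, `k²`;
weight `≤ 6^4 / K²`.
x4: tuples `(v, a, a', b')` with `Up v a`, `Up v a'`, `Up a' b'`; roles `(a',v)`, `(b',a')`, `(v,a)`, `(a',b')`;
constraints `(a',v) ~ (b',a')`, `(v,a) ~ (a',b')`; numbers `k²`, `kK`, `k²`, `kK`; weight `≤ 6^4 / K²`.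
`Lift v a b` is `Up v a ∧ Up a b ∧ q a v = q b a`.
-/

set_option autoImplicit false

open Finset

namespace Pool.Agent.H95.AEC

private theorem mkFam' {V : Type} [Fintype V] (G : SimpleGraph V) (r : V → ℕ) {K : ℕ} (hK : 0 < K)
    {T : Type} [Fintype T] (ok : T → Prop) {m c : ℕ} (hm : 0 < m) (role : Fin m → T → V × V)
    (con : Fin c → Fin m × Fin m)
    (hadj : ∀ y, ok y → ∀ j, G.Adj (role j y).1 (role j y).2)
    (hinj : ∀ y, ok y → ∀ l l', l ≠ l' → role (con l).1 y ≠ role (con l').1 y)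
    (hdec : ∀ y, ok y → ∀ l l', role (con l).2 y = role (con l').1 y →
      r (role (con l).1 y).2 < r (role (con l).2 y).2)
    (B : Fin m → ℕ)
    (hcount : ∀ j d, Nat.card {y // ok y ∧ role j y = d} ≤ B j)
    (hB : (∑ j, (B j : ℝ)) * (6 ^ m / (K : ℝ) ^ c) ≤ 1 / 64) :
    SmallFam G K (fun q => ∀ y, ok y → ∃ l, q (role (con l).1 y).1 (role (con l).1 y).2 ≠
      q (role (con l).2 y).1 (role (con l).2 y).2) := by
  classical
  refine mkFam G r hK ok hm role con hadj hinj hdec (fun j => (B j : ℝ)) ?_ hB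
  intro j d
  have := hcount j d
  rw [Nat.card_eq_fintype_card, Fintype.card_subtype] at this
  refine Nat.cast_le.mpr (le_trans (le_of_eq ?_) this)
  congr

private lemma cnt {T W : Type} [Finite W] {P : T → Prop} {Q : W → Prop} {n : ℕ}
    (hn : Nat.card {w // Q w} ≤ n) (φ : T → W) (h1 : ∀ y, P y → Q (φ y))
    (h2 : ∀ y y', P y → P y' → φ y = φ y' → y = y') : Nat.card {y // P y} ≤ n := by
  refine le_trans (Nat.card_le_card_of_injective
    (fun y : {y // P y} => (⟨φ y.1, h1 y.1 y.2⟩ : {w // Q w})) ?_) hn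
  intro y y' hy
  exact Subtype.ext (h2 y.1 y'.1 y.2 y'.2 (congrArg Subtype.val hy))

private lemma down {V : Type} [Fintype V] {G : SimpleGraph V} {r : V → ℕ} {k K : ℕ}
    (h : Hyp G r k K) (v : V) : Nat.card {w // Up G r w v} ≤ K := by
  refine le_trans (Nat.card_le_card_of_injective
    (fun w : {w // Up G r w v} => (⟨w.1, w.2.1.symm⟩ : {a // G.Adj v a})) ?_) (h.deg v)
  intro w w' hw
  exact Subtype.ext (by simpa using hw)

private lemma pairs {α β : Type} [Finite α] [Finite β] {P : α → Prop} {Q : α → β → Prop}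
    {m n : ℕ} (h1 : Nat.card {a // P a} ≤ m) (h2 : ∀ a, P a → Nat.card {b // Q a b} ≤ n) :
    Nat.card {z : α × β // P z.1 ∧ Q z.1 z.2} ≤ m * n := by
  classical
  have := Fintype.ofFinite α
  have e : {z : α × β // P z.1 ∧ Q z.1 z.2} ≃ (Σ a : {a // P a}, {b // Q a.1 b}) :=
    { toFun := fun z => ⟨⟨z.1.1, z.2.1⟩, ⟨z.1.2, z.2.2⟩⟩
      invFun := fun z => ⟨(z.1.1, z.2.1), z.1.2, z.2.2⟩
      left_inv := fun z => rfl
      right_inv := fun z => rfl }
  rw [Nat.card_congr e, Nat.card_sigma]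
  calc ∑ a : {a // P a}, Nat.card {b // Q a.1 b} ≤ ∑ _a : {a // P a}, n :=
        Finset.sum_le_sum fun a _ => h2 a.1 a.2
    _ = Nat.card {a // P a} * n := by simp
    _ ≤ m * n := Nat.mul_le_mul_right n h1

private lemma wt_ineq {k K : ℕ} {S : ℝ} (h1 : 1 ≤ k) (hb : 10 ^ 20 * k ^ 2 ≤ K)
    (hS : S ≤ 4 * (k : ℝ) ^ 2 * K) :
    S * (6 ^ 4 / (K : ℝ) ^ 2) ≤ 1 / 64 := by
  have hk : (1 : ℝ) ≤ k := by exact_mod_cast h1
  have hK : (10 : ℝ) ^ 20 * (k : ℝ) ^ 2 ≤ K := by exact_mod_cast hb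
  have hK0 : (0 : ℝ) < K := by nlinarith
  have h2 : S * (6 ^ 4 / (K : ℝ) ^ 2) ≤ 4 * (k : ℝ) ^ 2 * K * (6 ^ 4 / (K : ℝ) ^ 2) :=
    mul_le_mul_of_nonneg_right hS (by positivity)
  refine h2.trans ?_
  have h3 : 4 * (k : ℝ) ^ 2 * K * (6 ^ 4 / (K : ℝ) ^ 2) = 5184 * (k : ℝ) ^ 2 / K := by
    field_simp
    norm_num
  rw [h3, div_le_div_iff₀ hK0 (by norm_num)]
  nlinarith

private lemma kk_le {k K : ℕ} (h1 : 1 ≤ k) (hb : 10 ^ 20 * k ^ 2 ≤ K) : (k : ℝ) ≤ K := by
  have hk : (1 : ℝ) ≤ k := by exact_mod_cast h1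
  have hK : (10 : ℝ) ^ 20 * (k : ℝ) ^ 2 ≤ K := by exact_mod_cast hb
  nlinarith

theorem x3_fam {V : Type} [Fintype V] (G : SimpleGraph V) (r : V → ℕ) {k K : ℕ}
    (h : Hyp G r k K) : SmallFam G K (fun q =>
      ∀ v a b a', Lift G r q v a b → Up G r v a' → a ≠ a' → q a b ≠ q a' v) := by
  have hK : 0 < K := lt_of_lt_of_le (by have := h.one; positivity) h.big
  have key := mkFam' G r hK (T := V × V × V × V)
    (fun y => Up G r y.1 y.2.1 ∧ Up G r y.2.1 y.2.2.1 ∧ Up G r y.1 y.2.2.2 ∧ y.2.1 ≠ y.2.2.2)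
    (m := 4) (c := 2) (by norm_num)
    (fun j y => ![(y.2.1, y.1), (y.2.2.1, y.2.1), (y.2.1, y.2.2.1), (y.2.2.2, y.1)] j)
    (fun l => ![(0, 1), (2, 3)] l)
    (by
      rintro ⟨v, a, b, a'⟩ ⟨h1, h2, h3, h4⟩ j
      match j with
      | 0 => exact h1.1.symm
      | 1 => exact h2.1.symm
      | 2 => exact h2.1
      | 3 => exact h3.1.symm)
    (by
      rintro ⟨v, a, b, a'⟩ ⟨h1, h2, h3, h4⟩ l l' hl
      simp only at h1 h2 h3 h4
      have hvb : v ≠ b := fun e => by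
        have h5 := h1.2.trans h2.2
        rw [e] at h5
        exact absurd h5 (lt_irrefl _)
      match l, l' with
      | 0, 0 => exact absurd rfl hl
      | 1, 1 => exact absurd rfl hl
      | 0, 1 =>
        intro he
        exact hvb (Prod.mk.inj (show (a, v) = (a, b) from he)).2
      | 1, 0 =>
        intro he
        exact hvb (Prod.mk.inj (show (a, b) = (a, v) from he)).2.symm)
    (by
      rintro ⟨v, a, b, a'⟩ ⟨h1, h2, h3, h4⟩ l l' he
      simp only at h1 h2 h3 h4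
      match l, l' with
      | 0, 0 => exact absurd (Prod.mk.inj (show (b, a) = (a, v) from he)).1 h2.1.ne.symm
      | 0, 1 => exact absurd (Prod.mk.inj (show (b, a) = (a, b) from he)).1 h2.1.ne.symm
      | 1, 0 => exact absurd (Prod.mk.inj (show (a', v) = (a, v) from he)).1 h4.symm
      | 1, 1 => exact absurd (Prod.mk.inj (show (a', v) = (a, b) from he)).1 h4.symm)
    (fun j => ![k * k, K * k, K * k, k * k] j)
    (by
      rintro j ⟨d1, d2⟩
      match j with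
      | 0 =>
        refine cnt (Q := fun z : V × V => Up G r d1 z.1 ∧ Up G r d2 z.2)
          (pairs (h.up d1) (fun _ _ => h.up d2))
          (fun y : V × V × V × V => (y.2.2.1, y.2.2.2)) ?_ ?_
        · rintro ⟨v, a, b, a'⟩ ⟨⟨h1, h2, h3, h4⟩, he⟩
          obtain ⟨rfl, rfl⟩ := Prod.mk.inj (show (a, v) = (d1, d2) from he)
          exact ⟨h2, h3⟩
        · rintro ⟨v, a, b, a'⟩ ⟨v2, a2, b2, a2'⟩ ⟨_, he⟩ ⟨_, he'⟩ hf
          obtain ⟨rfl, rfl⟩ := Prod.mk.inj (show (a, v) = (d1, d2) from he)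
          obtain ⟨rfl, rfl⟩ := Prod.mk.inj (show (a2, v2) = (a, v) from he')
          simpa using hf
      | 1 =>
        refine cnt (Q := fun z : V × V => Up G r z.1 d2 ∧ Up G r z.1 z.2)
          (pairs (down h d2) (fun v _ => h.up v))
          (fun y : V × V × V × V => (y.1, y.2.2.2)) ?_ ?_
        · rintro ⟨v, a, b, a'⟩ ⟨⟨h1, h2, h3, h4⟩, he⟩
          obtain ⟨rfl, rfl⟩ := Prod.mk.inj (show (b, a) = (d1, d2) from he)
          exact ⟨h1, h3⟩
        · rintro ⟨v, a, b, a'⟩ ⟨v2, a2, b2, a2'⟩ ⟨_, he⟩ ⟨_, he'⟩ hf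
          obtain ⟨rfl, rfl⟩ := Prod.mk.inj (show (b, a) = (d1, d2) from he)
          obtain ⟨rfl, rfl⟩ := Prod.mk.inj (show (b2, a2) = (b, a) from he')
          simpa using hf
      | 2 =>
        refine cnt (Q := fun z : V × V => Up G r z.1 d1 ∧ Up G r z.1 z.2)
          (pairs (down h d1) (fun v _ => h.up v))
          (fun y : V × V × V × V => (y.1, y.2.2.2)) ?_ ?_
        · rintro ⟨v, a, b, a'⟩ ⟨⟨h1, h2, h3, h4⟩, he⟩
          obtain ⟨rfl, rfl⟩ := Prod.mk.inj (show (a, b) = (d1, d2) from he)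
          exact ⟨h1, h3⟩
        · rintro ⟨v, a, b, a'⟩ ⟨v2, a2, b2, a2'⟩ ⟨_, he⟩ ⟨_, he'⟩ hf
          obtain ⟨rfl, rfl⟩ := Prod.mk.inj (show (a, b) = (d1, d2) from he)
          obtain ⟨rfl, rfl⟩ := Prod.mk.inj (show (a2, b2) = (a, b) from he')
          simpa using hf
      | 3 =>
        refine cnt (Q := fun z : V × V => Up G r d2 z.1 ∧ Up G r z.1 z.2)
          (pairs (h.up d2) (fun a _ => h.up a))
          (fun y : V × V × V × V => (y.2.1, y.2.2.1)) ?_ ?_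
        · rintro ⟨v, a, b, a'⟩ ⟨⟨h1, h2, h3, h4⟩, he⟩
          obtain ⟨rfl, rfl⟩ := Prod.mk.inj (show (a', v) = (d1, d2) from he)
          exact ⟨h1, h2⟩
        · rintro ⟨v, a, b, a'⟩ ⟨v2, a2, b2, a2'⟩ ⟨_, he⟩ ⟨_, he'⟩ hf
          obtain ⟨rfl, rfl⟩ := Prod.mk.inj (show (a', v) = (d1, d2) from he)
          obtain ⟨rfl, rfl⟩ := Prod.mk.inj (show (a2', v2) = (a', v) from he')
          simpa [and_assoc] using hf)
    (by
      refine wt_ineq h.one h.big ?_
      have hk : (1 : ℝ) ≤ k := by exact_mod_cast h.one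
      have hkK := kk_le h.one h.big
      rw [Fin.sum_univ_four]
      show ((k * k : ℕ) : ℝ) + ((K * k : ℕ) : ℝ) + ((K * k : ℕ) : ℝ) + ((k * k : ℕ) : ℝ) ≤ _
      push_cast
      have h1 : (k : ℝ) * k ≤ k ^ 2 * K := by nlinarith [mul_self_nonneg (k : ℝ)]
      have h2 : (K : ℝ) * k ≤ k ^ 2 * K := by nlinarith
      linarith)
  refine key.mono ?_
  rintro q _ hq v a b a' ⟨h1, h2, h3⟩ h4 h5
  obtain ⟨l, hl⟩ := hq (v, a, b, a') ⟨h1, h2, h4, h5⟩
  match l with
  | 0 => exact absurd h3 hl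
  | 1 => exact hl

theorem x4_fam {V : Type} [Fintype V] (G : SimpleGraph V) (r : V → ℕ) {k K : ℕ}
    (h : Hyp G r k K) : SmallFam G K (fun q =>
      ∀ v a a' b', Up G r v a → Lift G r q v a' b' → q v a ≠ q a' b') := by
  have hK : 0 < K := lt_of_lt_of_le (by have := h.one; positivity) h.big
  have key := mkFam' G r hK (T := V × V × V × V)
    (fun y => Up G r y.1 y.2.1 ∧ Up G r y.1 y.2.2.1 ∧ Up G r y.2.2.1 y.2.2.2)
    (m := 4) (c := 2) (by norm_num)
    (fun j y => ![(y.2.2.1, y.1), (y.2.2.2, y.2.2.1), (y.1, y.2.1), (y.2.2.1, y.2.2.2)] j)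
    (fun l => ![(0, 1), (2, 3)] l)
    (by
      rintro ⟨v, a, a', b'⟩ ⟨h1, h2, h3⟩ j
      match j with
      | 0 => exact h2.1.symm
      | 1 => exact h3.1.symm
      | 2 => exact h1.1
      | 3 => exact h3.1)
    (by
      rintro ⟨v, a, a', b'⟩ ⟨h1, h2, h3⟩ l l' hl
      simp only at h1 h2 h3
      match l, l' with
      | 0, 0 => exact absurd rfl hl
      | 1, 1 => exact absurd rfl hl
      | 0, 1 =>
        intro he
        exact h2.1.ne (Prod.mk.inj (show (a', v) = (v, a) from he)).1.symm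
      | 1, 0 =>
        intro he
        exact h2.1.ne (Prod.mk.inj (show (v, a) = (a', v) from he)).1)
    (by
      rintro ⟨v, a, a', b'⟩ ⟨h1, h2, h3⟩ l l' he
      simp only at h1 h2 h3
      have hvb : v ≠ b' := fun e => by
        have h5 := h2.2.trans h3.2
        rw [e] at h5
        exact absurd h5 (lt_irrefl _)
      match l, l' with
      | 0, 0 => exact absurd (Prod.mk.inj (show (b', a') = (a', v) from he)).1 h3.1.ne.symm
      | 0, 1 => exact absurd (Prod.mk.inj (show (b', a') = (v, a) from he)).1 hvb.symm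
      | 1, 0 => exact absurd (Prod.mk.inj (show (a', b') = (a', v) from he)).2 hvb.symm
      | 1, 1 => exact absurd (Prod.mk.inj (show (a', b') = (v, a) from he)).1 h2.1.ne.symm)
    (fun j => ![k * k, K * k, k * k, K * k] j)
    (by
      rintro j ⟨d1, d2⟩
      match j with
      | 0 =>
        refine cnt (Q := fun z : V × V => Up G r d2 z.1 ∧ Up G r d1 z.2)
          (pairs (h.up d2) (fun _ _ => h.up d1))
          (fun y : V × V × V × V => (y.2.1, y.2.2.2)) ?_ ?_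
        · rintro ⟨v, a, a', b'⟩ ⟨⟨h1, h2, h3⟩, he⟩
          obtain ⟨rfl, rfl⟩ := Prod.mk.inj (show (a', v) = (d1, d2) from he)
          exact ⟨h1, h3⟩
        · rintro ⟨v, a, a', b'⟩ ⟨v2, a2, a2', b2'⟩ ⟨_, he⟩ ⟨_, he'⟩ hf
          obtain ⟨rfl, rfl⟩ := Prod.mk.inj (show (a', v) = (d1, d2) from he)
          obtain ⟨rfl, rfl⟩ := Prod.mk.inj (show (a2', v2) = (a', v) from he')
          simpa using hf
      | 1 =>
        refine cnt (Q := fun z : V × V => Up G r z.1 d2 ∧ Up G r z.1 z.2)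
          (pairs (down h d2) (fun v _ => h.up v))
          (fun y : V × V × V × V => (y.1, y.2.1)) ?_ ?_
        · rintro ⟨v, a, a', b'⟩ ⟨⟨h1, h2, h3⟩, he⟩
          obtain ⟨rfl, rfl⟩ := Prod.mk.inj (show (b', a') = (d1, d2) from he)
          exact ⟨h2, h1⟩
        · rintro ⟨v, a, a', b'⟩ ⟨v2, a2, a2', b2'⟩ ⟨_, he⟩ ⟨_, he'⟩ hf
          obtain ⟨rfl, rfl⟩ := Prod.mk.inj (show (b', a') = (d1, d2) from he)
          obtain ⟨rfl, rfl⟩ := Prod.mk.inj (show (b2', a2') = (b', a') from he')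
          simpa using hf
      | 2 =>
        refine cnt (Q := fun z : V × V => Up G r d1 z.1 ∧ Up G r z.1 z.2)
          (pairs (h.up d1) (fun a _ => h.up a))
          (fun y : V × V × V × V => (y.2.2.1, y.2.2.2)) ?_ ?_
        · rintro ⟨v, a, a', b'⟩ ⟨⟨h1, h2, h3⟩, he⟩
          obtain ⟨rfl, rfl⟩ := Prod.mk.inj (show (v, a) = (d1, d2) from he)
          exact ⟨h2, h3⟩
        · rintro ⟨v, a, a', b'⟩ ⟨v2, a2, a2', b2'⟩ ⟨_, he⟩ ⟨_, he'⟩ hf
          obtain ⟨rfl, rfl⟩ := Prod.mk.inj (show (v, a) = (d1, d2) from he)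
          obtain ⟨rfl, rfl⟩ := Prod.mk.inj (show (v2, a2) = (v, a) from he')
          simpa using hf
      | 3 =>
        refine cnt (Q := fun z : V × V => Up G r z.1 d1 ∧ Up G r z.1 z.2)
          (pairs (down h d1) (fun v _ => h.up v))
          (fun y : V × V × V × V => (y.1, y.2.1)) ?_ ?_
        · rintro ⟨v, a, a', b'⟩ ⟨⟨h1, h2, h3⟩, he⟩
          obtain ⟨rfl, rfl⟩ := Prod.mk.inj (show (a', b') = (d1, d2) from he)
          exact ⟨h2, h1⟩
        · rintro ⟨v, a, a', b'⟩ ⟨v2, a2, a2', b2'⟩ ⟨_, he⟩ ⟨_, he'⟩ hf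
          obtain ⟨rfl, rfl⟩ := Prod.mk.inj (show (a', b') = (d1, d2) from he)
          obtain ⟨rfl, rfl⟩ := Prod.mk.inj (show (a2', b2') = (a', b') from he')
          simpa using hf)
    (by
      refine wt_ineq h.one h.big ?_
      have hk : (1 : ℝ) ≤ k := by exact_mod_cast h.one
      have hkK := kk_le h.one h.big
      rw [Fin.sum_univ_four]
      show ((k * k : ℕ) : ℝ) + ((K * k : ℕ) : ℝ) + ((k * k : ℕ) : ℝ) + ((K * k : ℕ) : ℝ) ≤ _
      push_cast
      have h1 : (k : ℝ) * k ≤ k ^ 2 * K := by nlinarith [mul_self_nonneg (k : ℝ)]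
      have h2 : (K : ℝ) * k ≤ k ^ 2 * K := by nlinarith
      linarith)
  refine key.mono ?_
  rintro q _ hq v a a' b' h1 ⟨h2, h3, h4⟩
  obtain ⟨l, hl⟩ := hq (v, a, a', b') ⟨h1, h2, h3⟩
  match l with
  | 0 => exact absurd h4 hl
  | 1 => exact hl

end Pool.Agent.H95.AEC
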