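import Pool.Agent.H95.AEC.MkFam

/-!
# AEC-X6: the family for `Good.x6`

`Lift2 v a b c` is `Up v a ∧ (Up a b ∧ Up b c ∧ q b a = q c b) ∧ q a v = q b c`.
Tuples `(v, a, b, c, a', b', c')` with `Up v a`, `Up a b`, `Up b c`, `Up v a'`, `Up a' b'`, `Up b' c'`, `a ≠ a'`; roles
`(b,a)`, `(c,b)`, `(a,v)`, `(b,c)` and the same with primes; constraints `(b,a) ~ (c,b)`, `(a,v) ~ (b,c)` and the same
with primes. Numbers of tuples for a given dart: `K k⁴`, `K² k³`, `k⁵`, `K² k³` (twice); weight `≤ 6^8 / K⁴`.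
In `hdec` use the strict increase of `r` of the second component in every constraint.
-/

set_option autoImplicit false

open Finset

namespace Pool.Agent.H95.AEC

/-- counting pairs by a choice of the first and then of the second component -/
theorem x6_count_cons {A B : Type} [Finite A] [Finite B] (p : A → Prop) (R : A → B → Prop)
    (n m : ℕ) (h1 : Nat.card {a // p a} ≤ n)
    (h2 : ∀ a, p a → Nat.card {b // R a b} ≤ m) :
    Nat.card {y : A × B // p y.1 ∧ R y.1 y.2} ≤ n * m := by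
  classical
  have := Fintype.ofFinite A
  have := Fintype.ofFinite B
  let e : {y : A × B // p y.1 ∧ R y.1 y.2} ≃ (Σ a : {a // p a}, {b // R a.1 b}) :=
    { toFun := fun y => ⟨⟨y.1.1, y.2.1⟩, ⟨y.1.2, y.2.2⟩⟩
      invFun := fun z => ⟨(z.1.1, z.2.1), z.1.2, z.2.2⟩
      left_inv := fun _ => rfl
      right_inv := fun _ => rfl }
  rw [Nat.card_congr e, Nat.card_sigma]
  refine le_trans (Finset.sum_le_card_nsmul _ _ m fun a _ => h2 a.1 a.2) ?_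
  rw [smul_eq_mul, Finset.card_univ, ← Nat.card_eq_fintype_card]
  exact Nat.mul_le_mul_right _ h1

/-- counting five successive choices -/
theorem x6_count5 {V : Type} [Finite V] (P1 : V → Prop) (P2 : V → V → Prop)
    (P3 : V → V → V → Prop) (P4 : V → V → V → V → Prop) (P5 : V → V → V → V → V → Prop)
    (n1 n2 n3 n4 n5 : ℕ) (h1 : Nat.card {a // P1 a} ≤ n1)
    (h2 : ∀ a, P1 a → Nat.card {b // P2 a b} ≤ n2)
    (h3 : ∀ a b, P1 a → P2 a b → Nat.card {c // P3 a b c} ≤ n3)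
    (h4 : ∀ a b c, P1 a → P2 a b → P3 a b c → Nat.card {d // P4 a b c d} ≤ n4)
    (h5 : ∀ a b c d, P1 a → P2 a b → P3 a b c → P4 a b c d →
      Nat.card {e // P5 a b c d e} ≤ n5) :
    Nat.card {y : V × V × V × V × V // P1 y.1 ∧ P2 y.1 y.2.1 ∧ P3 y.1 y.2.1 y.2.2.1 ∧
      P4 y.1 y.2.1 y.2.2.1 y.2.2.2.1 ∧ P5 y.1 y.2.1 y.2.2.1 y.2.2.2.1 y.2.2.2.2} ≤
      n1 * (n2 * (n3 * (n4 * n5))) := by
  refine x6_count_cons P1 (fun a (y : V × V × V × V) => P2 a y.1 ∧ P3 a y.1 y.2.1 ∧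
    P4 a y.1 y.2.1 y.2.2.1 ∧ P5 a y.1 y.2.1 y.2.2.1 y.2.2.2) _ _ h1 (fun a ha => ?_)
  refine x6_count_cons (P2 a) (fun b (y : V × V × V) => P3 a b y.1 ∧
    P4 a b y.1 y.2.1 ∧ P5 a b y.1 y.2.1 y.2.2) _ _ (h2 a ha) (fun b hb => ?_)
  refine x6_count_cons (P3 a b) (fun c (y : V × V) =>
    P4 a b c y.1 ∧ P5 a b c y.1 y.2) _ _ (h3 a b ha hb) (fun c hc => ?_)
  exact x6_count_cons (P4 a b c) (fun d e => P5 a b c d e) _ _ (h4 a b c ha hb hc)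
    (fun d hd => h5 a b c d ha hb hc hd)

/-- the admissible tuples `(v, a, b, c, a', b', c')` -/
def x6_ok {V : Type} (G : SimpleGraph V) (r : V → ℕ) : V × V × V × V × V × V × V → Prop
  | (v, a, b, c, a', b', c') => Up G r v a ∧ Up G r a b ∧ Up G r b c ∧ Up G r v a' ∧
    Up G r a' b' ∧ Up G r b' c' ∧ a ≠ a'

/-- the roles -/
def x6_role {V : Type} : Fin 8 → V × V × V × V × V × V × V → V × V
  | 0, (_, a, b, _, _, _, _) => (b, a)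
  | 1, (_, _, b, c, _, _, _) => (c, b)
  | 2, (v, a, _, _, _, _, _) => (a, v)
  | 3, (_, _, b, c, _, _, _) => (b, c)
  | 4, (_, _, _, _, a', b', _) => (b', a')
  | 5, (_, _, _, _, _, b', c') => (c', b')
  | 6, (v, _, _, _, a', _, _) => (a', v)
  | 7, (_, _, _, _, _, b', c') => (b', c')

/-- the constraints -/
def x6_con : Fin 4 → Fin 8 × Fin 8
  | 0 => (0, 1)
  | 1 => (2, 3)
  | 2 => (4, 5)
  | 3 => (6, 7)

/-- the bounds for the numbers of tuples -/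
def x6_bdn (k K : ℕ) : Fin 8 → ℕ
  | 0 => K * (k * (k * (k * k)))
  | 1 => K * (K * (k * (k * k)))
  | 2 => k * (k * (k * (k * k)))
  | 3 => K * (K * (k * (k * k)))
  | 4 => K * (k * (k * (k * k)))
  | 5 => K * (K * (k * (k * k)))
  | 6 => k * (k * (k * (k * k)))
  | 7 => K * (K * (k * (k * k)))

theorem x6_key {V : Type} [Finite V] (P : V × V × V × V × V × V × V → Prop)
    (f : V × V × V × V × V × V × V → V × V × V × V × V)
    (Q : V × V × V × V × V → Prop) (n : ℕ)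
    (h1 : ∀ y, P y → Q (f y)) (h2 : ∀ y y', P y → P y' → f y = f y' → y = y')
    (h3 : Nat.card {z // Q z} ≤ n) : Nat.card {y // P y} ≤ n := by
  refine le_trans (Nat.card_le_card_of_injective
    (fun y : {y // P y} => (⟨f y.1, h1 y.1 y.2⟩ : {z // Q z})) ?_) h3
  intro y y' hy
  exact Subtype.ext (h2 _ _ y.2 y'.2 (congrArg Subtype.val hy))

theorem x6_hcount' {V : Type} [Fintype V] (G : SimpleGraph V) (r : V → ℕ) {k K : ℕ}
    (h : Hyp G r k K) (j : Fin 8) (d : V × V) :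
    Nat.card {y // x6_ok G r y ∧ x6_role j y = d} ≤ x6_bdn k K j := by
  obtain ⟨d1, d2⟩ := d
  have hu := h.up
  have hd : ∀ v, Nat.card {w // Up G r w v} ≤ K := by
    intro v
    classical
    have h1 := h.down' v
    rw [Nat.card_eq_fintype_card, Fintype.card_subtype]
    convert h1
  fin_cases j
  · -- (b, a)
    show Nat.card {y // x6_ok G r y ∧ x6_role 0 y = (d1, d2)} ≤ _
    refine x6_key _ (fun y => (y.1, y.2.2.2.1, y.2.2.2.2.1, y.2.2.2.2.2.1, y.2.2.2.2.2.2))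
      _ _ ?_ ?_ (x6_count5 (fun v => Up G r v d2) (fun _ c => Up G r d1 c)
        (fun v _ a' => Up G r v a') (fun _ _ a' b' => Up G r a' b')
        (fun _ _ _ b' c' => Up G r b' c') K k k k k (hd _) (fun _ _ => hu _)
        (fun _ _ _ _ => hu _) (fun _ _ _ _ _ _ => hu _) (fun _ _ _ _ _ _ _ _ => hu _))
    · rintro ⟨v, a, b, c, a', b', c'⟩ ⟨⟨h1, h2, h3, h4, h5, h6, h7⟩, h8⟩
      obtain ⟨rfl, rfl⟩ := Prod.mk.inj h8
      exact ⟨h1, h3, h4, h5, h6⟩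
    · rintro ⟨v, a, b, c, a', b', c'⟩ ⟨v₂, a₂, b₂, c₂, a₂', b₂', c₂'⟩ ⟨-, h8⟩ ⟨-, h9⟩ he
      obtain ⟨rfl, rfl⟩ := Prod.mk.inj h8
      obtain ⟨rfl, rfl⟩ := Prod.mk.inj h9
      simp only [Prod.mk.injEq] at he
      obtain ⟨rfl, rfl, rfl, rfl, rfl⟩ := he
      rfl
  · -- (c, b)
    show Nat.card {y // x6_ok G r y ∧ x6_role 1 y = (d1, d2)} ≤ _
    refine x6_key _ (fun y => (y.2.1, y.1, y.2.2.2.2.1, y.2.2.2.2.2.1, y.2.2.2.2.2.2))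
      _ _ ?_ ?_ (x6_count5 (fun a => Up G r a d2) (fun a v => Up G r v a)
        (fun _ v a' => Up G r v a') (fun _ _ a' b' => Up G r a' b')
        (fun _ _ _ b' c' => Up G r b' c') K K k k k (hd _) (fun _ _ => hd _)
        (fun _ _ _ _ => hu _) (fun _ _ _ _ _ _ => hu _) (fun _ _ _ _ _ _ _ _ => hu _))
    · rintro ⟨v, a, b, c, a', b', c'⟩ ⟨⟨h1, h2, h3, h4, h5, h6, h7⟩, h8⟩
      obtain ⟨rfl, rfl⟩ := Prod.mk.inj h8
      exact ⟨h2, h1, h4, h5, h6⟩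
    · rintro ⟨v, a, b, c, a', b', c'⟩ ⟨v₂, a₂, b₂, c₂, a₂', b₂', c₂'⟩ ⟨-, h8⟩ ⟨-, h9⟩ he
      obtain ⟨rfl, rfl⟩ := Prod.mk.inj h8
      obtain ⟨rfl, rfl⟩ := Prod.mk.inj h9
      simp only [Prod.mk.injEq] at he
      obtain ⟨rfl, rfl, rfl, rfl, rfl⟩ := he
      rfl
  · -- (a, v)
    show Nat.card {y // x6_ok G r y ∧ x6_role 2 y = (d1, d2)} ≤ _
    refine x6_key _ (fun y => (y.2.2.1, y.2.2.2.1, y.2.2.2.2.1, y.2.2.2.2.2.1, y.2.2.2.2.2.2))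
      _ _ ?_ ?_ (x6_count5 (fun b => Up G r d1 b) (fun b c => Up G r b c)
        (fun _ _ a' => Up G r d2 a') (fun _ _ a' b' => Up G r a' b')
        (fun _ _ _ b' c' => Up G r b' c') k k k k k (hu _) (fun _ _ => hu _)
        (fun _ _ _ _ => hu _) (fun _ _ _ _ _ _ => hu _) (fun _ _ _ _ _ _ _ _ => hu _))
    · rintro ⟨v, a, b, c, a', b', c'⟩ ⟨⟨h1, h2, h3, h4, h5, h6, h7⟩, h8⟩
      obtain ⟨rfl, rfl⟩ := Prod.mk.inj h8
      exact ⟨h2, h3, h4, h5, h6⟩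
    · rintro ⟨v, a, b, c, a', b', c'⟩ ⟨v₂, a₂, b₂, c₂, a₂', b₂', c₂'⟩ ⟨-, h8⟩ ⟨-, h9⟩ he
      obtain ⟨rfl, rfl⟩ := Prod.mk.inj h8
      obtain ⟨rfl, rfl⟩ := Prod.mk.inj h9
      simp only [Prod.mk.injEq] at he
      obtain ⟨rfl, rfl, rfl, rfl, rfl⟩ := he
      rfl
  · -- (b, c)
    show Nat.card {y // x6_ok G r y ∧ x6_role 3 y = (d1, d2)} ≤ _
    refine x6_key _ (fun y => (y.2.1, y.1, y.2.2.2.2.1, y.2.2.2.2.2.1, y.2.2.2.2.2.2))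
      _ _ ?_ ?_ (x6_count5 (fun a => Up G r a d1) (fun a v => Up G r v a)
        (fun _ v a' => Up G r v a') (fun _ _ a' b' => Up G r a' b')
        (fun _ _ _ b' c' => Up G r b' c') K K k k k (hd _) (fun _ _ => hd _)
        (fun _ _ _ _ => hu _) (fun _ _ _ _ _ _ => hu _) (fun _ _ _ _ _ _ _ _ => hu _))
    · rintro ⟨v, a, b, c, a', b', c'⟩ ⟨⟨h1, h2, h3, h4, h5, h6, h7⟩, h8⟩
      obtain ⟨rfl, rfl⟩ := Prod.mk.inj h8
      exact ⟨h2, h1, h4, h5, h6⟩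
    · rintro ⟨v, a, b, c, a', b', c'⟩ ⟨v₂, a₂, b₂, c₂, a₂', b₂', c₂'⟩ ⟨-, h8⟩ ⟨-, h9⟩ he
      obtain ⟨rfl, rfl⟩ := Prod.mk.inj h8
      obtain ⟨rfl, rfl⟩ := Prod.mk.inj h9
      simp only [Prod.mk.injEq] at he
      obtain ⟨rfl, rfl, rfl, rfl, rfl⟩ := he
      rfl
  · -- (b', a')
    show Nat.card {y // x6_ok G r y ∧ x6_role 4 y = (d1, d2)} ≤ _
    refine x6_key _ (fun y => (y.1, y.2.2.2.2.2.2, y.2.1, y.2.2.1, y.2.2.2.1))
      _ _ ?_ ?_ (x6_count5 (fun v => Up G r v d2) (fun _ c => Up G r d1 c)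
        (fun v _ a' => Up G r v a') (fun _ _ a' b' => Up G r a' b')
        (fun _ _ _ b' c' => Up G r b' c') K k k k k (hd _) (fun _ _ => hu _)
        (fun _ _ _ _ => hu _) (fun _ _ _ _ _ _ => hu _) (fun _ _ _ _ _ _ _ _ => hu _))
    · rintro ⟨v, a, b, c, a', b', c'⟩ ⟨⟨h1, h2, h3, h4, h5, h6, h7⟩, h8⟩
      obtain ⟨rfl, rfl⟩ := Prod.mk.inj h8
      exact ⟨h4, h6, h1, h2, h3⟩
    · rintro ⟨v, a, b, c, a', b', c'⟩ ⟨v₂, a₂, b₂, c₂, a₂', b₂', c₂'⟩ ⟨-, h8⟩ ⟨-, h9⟩ he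
      obtain ⟨rfl, rfl⟩ := Prod.mk.inj h8
      obtain ⟨rfl, rfl⟩ := Prod.mk.inj h9
      simp only [Prod.mk.injEq] at he
      obtain ⟨rfl, rfl, rfl, rfl, rfl⟩ := he
      rfl
  · -- (c', b')
    show Nat.card {y // x6_ok G r y ∧ x6_role 5 y = (d1, d2)} ≤ _
    refine x6_key _ (fun y => (y.2.2.2.2.1, y.1, y.2.1, y.2.2.1, y.2.2.2.1))
      _ _ ?_ ?_ (x6_count5 (fun a => Up G r a d2) (fun a v => Up G r v a)
        (fun _ v a' => Up G r v a') (fun _ _ a' b' => Up G r a' b')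
        (fun _ _ _ b' c' => Up G r b' c') K K k k k (hd _) (fun _ _ => hd _)
        (fun _ _ _ _ => hu _) (fun _ _ _ _ _ _ => hu _) (fun _ _ _ _ _ _ _ _ => hu _))
    · rintro ⟨v, a, b, c, a', b', c'⟩ ⟨⟨h1, h2, h3, h4, h5, h6, h7⟩, h8⟩
      obtain ⟨rfl, rfl⟩ := Prod.mk.inj h8
      exact ⟨h5, h4, h1, h2, h3⟩
    · rintro ⟨v, a, b, c, a', b', c'⟩ ⟨v₂, a₂, b₂, c₂, a₂', b₂', c₂'⟩ ⟨-, h8⟩ ⟨-, h9⟩ he
      obtain ⟨rfl, rfl⟩ := Prod.mk.inj h8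
      obtain ⟨rfl, rfl⟩ := Prod.mk.inj h9
      simp only [Prod.mk.injEq] at he
      obtain ⟨rfl, rfl, rfl, rfl, rfl⟩ := he
      rfl
  · -- (a', v)
    show Nat.card {y // x6_ok G r y ∧ x6_role 6 y = (d1, d2)} ≤ _
    refine x6_key _ (fun y => (y.2.2.2.2.2.1, y.2.2.2.2.2.2, y.2.1, y.2.2.1, y.2.2.2.1))
      _ _ ?_ ?_ (x6_count5 (fun b => Up G r d1 b) (fun b c => Up G r b c)
        (fun _ _ a' => Up G r d2 a') (fun _ _ a' b' => Up G r a' b')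
        (fun _ _ _ b' c' => Up G r b' c') k k k k k (hu _) (fun _ _ => hu _)
        (fun _ _ _ _ => hu _) (fun _ _ _ _ _ _ => hu _) (fun _ _ _ _ _ _ _ _ => hu _))
    · rintro ⟨v, a, b, c, a', b', c'⟩ ⟨⟨h1, h2, h3, h4, h5, h6, h7⟩, h8⟩
      obtain ⟨rfl, rfl⟩ := Prod.mk.inj h8
      exact ⟨h5, h6, h1, h2, h3⟩
    · rintro ⟨v, a, b, c, a', b', c'⟩ ⟨v₂, a₂, b₂, c₂, a₂', b₂', c₂'⟩ ⟨-, h8⟩ ⟨-, h9⟩ he
      obtain ⟨rfl, rfl⟩ := Prod.mk.inj h8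
      obtain ⟨rfl, rfl⟩ := Prod.mk.inj h9
      simp only [Prod.mk.injEq] at he
      obtain ⟨rfl, rfl, rfl, rfl, rfl⟩ := he
      rfl
  · -- (b', c')
    show Nat.card {y // x6_ok G r y ∧ x6_role 7 y = (d1, d2)} ≤ _
    refine x6_key _ (fun y => (y.2.2.2.2.1, y.1, y.2.1, y.2.2.1, y.2.2.2.1))
      _ _ ?_ ?_ (x6_count5 (fun a => Up G r a d1) (fun a v => Up G r v a)
        (fun _ v a' => Up G r v a') (fun _ _ a' b' => Up G r a' b')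
        (fun _ _ _ b' c' => Up G r b' c') K K k k k (hd _) (fun _ _ => hd _)
        (fun _ _ _ _ => hu _) (fun _ _ _ _ _ _ => hu _) (fun _ _ _ _ _ _ _ _ => hu _))
    · rintro ⟨v, a, b, c, a', b', c'⟩ ⟨⟨h1, h2, h3, h4, h5, h6, h7⟩, h8⟩
      obtain ⟨rfl, rfl⟩ := Prod.mk.inj h8
      exact ⟨h5, h4, h1, h2, h3⟩
    · rintro ⟨v, a, b, c, a', b', c'⟩ ⟨v₂, a₂, b₂, c₂, a₂', b₂', c₂'⟩ ⟨-, h8⟩ ⟨-, h9⟩ he
      obtain ⟨rfl, rfl⟩ := Prod.mk.inj h8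
      obtain ⟨rfl, rfl⟩ := Prod.mk.inj h9
      simp only [Prod.mk.injEq] at he
      obtain ⟨rfl, rfl, rfl, rfl, rfl⟩ := he
      rfl

theorem x6_hB {k K : ℕ} (h1 : 1 ≤ k) (h2 : 10 ^ 20 * k ^ 2 ≤ K) :
    (∑ j, (x6_bdn k K j : ℝ)) * (6 ^ 8 / (K : ℝ) ^ 4) ≤ 1 / 64 := by
  have hk : (1 : ℝ) ≤ k := by exact_mod_cast h1
  have hK : (10 : ℝ) ^ 20 * (k : ℝ) ^ 2 ≤ K := by exact_mod_cast h2
  have hkk : (k : ℝ) ≤ (k : ℝ) ^ 2 := by nlinarith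
  have hkK : (10 : ℝ) ^ 20 * (k : ℝ) ≤ K := by nlinarith
  have hK0 : (0 : ℝ) < K := by nlinarith
  have hsum : ∑ j, (x6_bdn k K j : ℝ) = 2 * ((K : ℝ) * (k : ℝ) ^ 4 + 2 * ((K : ℝ) ^ 2 * (k : ℝ) ^ 3) +
      (k : ℝ) ^ 5) := by
    rw [Fin.sum_univ_eight]
    simp only [x6_bdn]
    push_cast
    ring
  rw [hsum]
  -- each term is at most `K ^ 4 / 10 ^ 20`
  have hk0 : (0 : ℝ) < k := by linarith
  have e1 : (10 : ℝ) ^ 20 * (k : ℝ) ^ 3 ≤ (K : ℝ) ^ 2 := by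
    have : (10 : ℝ) ^ 20 * (k : ℝ) ^ 3 ≤ (10 : ℝ) ^ 20 * (k : ℝ) ^ 2 * ((10 : ℝ) ^ 20 * (k : ℝ)) := by
      have h3 : (0 : ℝ) ≤ (k : ℝ) ^ 3 := by positivity
      nlinarith
    calc _ ≤ (10 : ℝ) ^ 20 * (k : ℝ) ^ 2 * ((10 : ℝ) ^ 20 * (k : ℝ)) := this
      _ ≤ (K : ℝ) * K := mul_le_mul hK hkK (by positivity) hK0.le
      _ = (K : ℝ) ^ 2 := by ring
  have hkK' : (k : ℝ) ≤ K := by nlinarith
  have e2 : (10 : ℝ) ^ 20 * ((K : ℝ) ^ 2 * (k : ℝ) ^ 3) ≤ (K : ℝ) ^ 4 := by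
    calc _ = (K : ℝ) ^ 2 * ((10 : ℝ) ^ 20 * (k : ℝ) ^ 3) := by ring
      _ ≤ (K : ℝ) ^ 2 * (K : ℝ) ^ 2 := mul_le_mul_of_nonneg_left e1 (by positivity)
      _ = (K : ℝ) ^ 4 := by ring
  have e3 : (K : ℝ) * (k : ℝ) ^ 4 ≤ (K : ℝ) ^ 2 * (k : ℝ) ^ 3 := by
    have : (0 : ℝ) ≤ (K : ℝ) * (k : ℝ) ^ 3 := by positivity
    nlinarith
  have e4 : (k : ℝ) ^ 5 ≤ (K : ℝ) ^ 2 * (k : ℝ) ^ 3 := by
    have h3 : (k : ℝ) ^ 2 ≤ (K : ℝ) ^ 2 := pow_le_pow_left₀ hk0.le hkK' 2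
    have : (0 : ℝ) ≤ (k : ℝ) ^ 3 := by positivity
    nlinarith
  rw [mul_div_assoc', div_le_iff₀ (by positivity)]
  nlinarith

theorem x6_fam {V : Type} [Fintype V] (G : SimpleGraph V) (r : V → ℕ) {k K : ℕ}
    (h : Hyp G r k K) : SmallFam G K (fun q =>
      ∀ v a b c a' b' c', Lift2 G r q v a b c → Lift2 G r q v a' b' c' → a = a') := by
  have hK0 : 0 < K := by
    have h1 := h.one
    have h2 := h.big
    have h3 : 0 < 10 ^ 20 * k ^ 2 := by positivity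
    omega
  refine SmallFam.mono (mkFam G r hK0 (x6_ok G r) (m := 8) (c := 4) (by norm_num) x6_role x6_con
    ?_ ?_ ?_ (fun j => (x6_bdn k K j : ℝ)) (fun j d => by
      classical
      have h1 := x6_hcount' G r h j d
      rw [Nat.card_eq_fintype_card, Fintype.card_subtype] at h1
      refine le_trans (le_of_eq ?_) (Nat.cast_le.mpr h1)
      congr!) (x6_hB h.one h.big)) ?_
  · rintro ⟨v, a, b, c, a', b', c'⟩ ⟨h1, h2, h3, h4, h5, h6, h7⟩ j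
    fin_cases j
    · exact h2.1.symm
    · exact h3.1.symm
    · exact h1.1.symm
    · exact h3.1
    · exact h5.1.symm
    · exact h6.1.symm
    · exact h4.1.symm
    · exact h6.1
  · rintro ⟨v, a, b, c, a', b', c'⟩ ⟨h1, h2, h3, h4, h5, h6, h7⟩ l l' hl he
    have hr : ∀ x y, Up G r x y → x ≠ y := fun x y hxy => hxy.1.ne
    fin_cases l <;> fin_cases l' <;> first
      | exact absurd rfl hl
      | (obtain ⟨e1, e2⟩ := Prod.mk.inj he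
         first
          | exact h7 e1
          | exact h7 e2
          | exact h7 e1.symm
          | exact h7 e2.symm
          | exact hr _ _ h1 e2.symm
          | exact hr _ _ h1 e2
          | exact hr _ _ h2 e1.symm
          | exact hr _ _ h2 e1
          | exact hr _ _ h4 e2.symm
          | exact hr _ _ h4 e2)
  · rintro ⟨v, a, b, c, a', b', c'⟩ ⟨h1, h2, h3, h4, h5, h6, h7⟩ l l' -
    fin_cases l
    · exact h2.2
    · exact lt_trans h1.2 (lt_trans h2.2 h3.2)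
    · exact h5.2
    · exact lt_trans h4.2 (lt_trans h5.2 h6.2)
  · intro q hq hav v a b c a' b' c' hl hl'
    by_contra hne
    obtain ⟨l, hlne⟩ := hav (v, a, b, c, a', b', c')
      ⟨hl.1, hl.2.1.1, hl.2.1.2.1, hl'.1, hl'.2.1.1, hl'.2.1.2.1, hne⟩
    fin_cases l
    · exact hlne hl.2.1.2.2
    · exact hlne hl.2.2
    · exact hlne hl'.2.1.2.2
    · exact hlne hl'.2.2

end Pool.Agent.H95.AEC
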