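import Pool.Agent.H95.AEC.MkFam

/-!
# AEC-X7: the family for `Good.x7`

`Lift2 v a b c` is `Up v a ∧ (Up a b ∧ Up b c ∧ q b a = q c b) ∧ q a v = q b c`; `Lift v a' b'` is
`Up v a' ∧ Up a' b' ∧ q a' v = q b' a'`.
Tuples `(v, a, b, c, a', b')` with `Up v a`, `Up a b`, `Up b c`, `Up v a'`, `Up a' b'`, `a ≠ a'`; roles
`(b,a)`, `(c,b)`, `(a,v)`, `(b,c)`, `(a',v)`, `(b',a')`; constraints `(b,a) ~ (c,b)`, `(a,v) ~ (b,c)`, `(a',v) ~ (b',a')`.
Numbers of tuples for a given dart: `K k³`, `K² k²`, `k⁴`, `K² k²`, `k⁴`, `K k³`; weight `≤ 6^6 / K³`.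
In `hdec` use the strict increase of `r` of the second component in every constraint.
-/

set_option autoImplicit false

open Finset

namespace Pool.Agent.H95.AEC

/-- counting pairs -/
theorem x7_cnt_pair {α β : Type} [Fintype α] [Fintype β] (p : α → Prop) (q : α → β → Prop)
    [DecidablePred p] [∀ a, DecidablePred (q a)]
    [DecidablePred fun z : α × β => p z.1 ∧ q z.1 z.2] {m n : ℕ} (hp : (univ.filter p).card ≤ m) (hq : ∀ a, p a → (univ.filter (q a)).card ≤ n) :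
    (univ.filter (fun z : α × β => p z.1 ∧ q z.1 z.2)).card ≤ m * n := by
  classical
  have h1 : (univ.filter (fun z : α × β => p z.1 ∧ q z.1 z.2)) ⊆
      (univ.filter p).biUnion (fun a => (univ.filter (q a)).image (fun b => (a, b))) := by
    intro z hz
    rw [mem_filter] at hz
    rw [mem_biUnion]
    exact ⟨z.1, mem_filter.2 ⟨mem_univ _, hz.2.1⟩,
      mem_image.2 ⟨z.2, mem_filter.2 ⟨mem_univ _, hz.2.2⟩, rfl⟩⟩
  refine (card_le_card h1).trans (card_biUnion_le.trans ?_)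
  refine (sum_le_sum (fun a ha => ?_)).trans ((sum_const n).le.trans ?_)
  · exact card_image_le.trans (hq a (mem_filter.1 ha).2)
  · rw [smul_eq_mul]
    exact Nat.mul_le_mul_right n hp

/-- counting through an injection -/
theorem x7_cnt_inj {α β : Type} [Fintype α] [Fintype β] (p : α → Prop) (q : β → Prop)
    [DecidablePred p] [DecidablePred q]
    (f : α → β) {n : ℕ} (hq : (univ.filter q).card ≤ n) (hf : ∀ a, p a → q (f a))
    (hi : ∀ a a', p a → p a' → f a = f a' → a = a') : (univ.filter p).card ≤ n := by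
  refine (card_le_card_of_injOn f ?_ ?_).trans hq
  · intro a ha
    have ha' : a ∈ univ.filter p := ha
    exact mem_filter.2 ⟨mem_univ _, hf a (mem_filter.1 ha').2⟩
  · intro a ha a' ha' he
    have h1 : a ∈ univ.filter p := ha
    have h2 : a' ∈ univ.filter p := ha'
    exact hi a a' (mem_filter.1 h1).2 (mem_filter.1 h2).2 he

/-- the tuples of `x7` -/
structure X7T (V : Type) where
  v : V
  a : V
  b : V
  c : V
  a' : V
  b' : V

noncomputable instance {V : Type} [Fintype V] : Fintype (X7T V) :=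
  Fintype.ofInjective (fun y : X7T V => (y.v, y.a, y.b, y.c, y.a', y.b')) (by
    intro y z h
    cases y
    cases z
    simpa using h)

/-- admissible tuples -/
structure X7ok {V : Type} (G : SimpleGraph V) (r : V → ℕ) (y : X7T V) : Prop where
  va : Up G r y.v y.a
  ab : Up G r y.a y.b
  bc : Up G r y.b y.c
  va' : Up G r y.v y.a'
  ab' : Up G r y.a' y.b'
  ne : y.a ≠ y.a'

/-- roles -/
def x7role {V : Type} (j : Fin 6) (y : X7T V) : V × V :=
  match j with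
  | 0 => (y.b, y.a)
  | 1 => (y.c, y.b)
  | 2 => (y.a, y.v)
  | 3 => (y.b, y.c)
  | 4 => (y.a', y.v)
  | 5 => (y.b', y.a')

/-- constraints -/
def x7con (l : Fin 3) : Fin 6 × Fin 6 :=
  match l with
  | 0 => (0, 1)
  | 1 => (2, 3)
  | 2 => (4, 5)

/-- bounds -/
def x7B (k K : ℕ) (j : Fin 6) : ℕ :=
  match j with
  | 0 => K * k * k * k
  | 1 => K * K * k * k
  | 2 => k * k * k * k
  | 3 => K * K * k * k
  | 4 => k * k * k * k
  | 5 => K * k * k * k

theorem x7_count {V : Type} [Fintype V] (G : SimpleGraph V) (r : V → ℕ) {k K : ℕ}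
    (h : Hyp G r k K) (j : Fin 6) (d : V × V) :
    ∀ [DecidablePred fun y : X7T V => X7ok G r y ∧ x7role j y = d],
    (univ.filter (fun y : X7T V => X7ok G r y ∧ x7role j y = d)).card ≤ x7B k K j := by
  classical
  have up := h.up'
  have dn := h.down'
  match j with
  | 0 =>
    intro _
    refine x7_cnt_inj _ (fun z : ((V × V) × V) × V =>
      ((Up G r z.1.1.1 d.2 ∧ Up G r d.1 z.1.1.2) ∧ Up G r z.1.1.1 z.1.2) ∧ Up G r z.1.2 z.2)
      (fun y : X7T V => (((y.v, y.c), y.a'), y.b')) ?_ ?_ ?_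
    · exact x7_cnt_pair _ _ (x7_cnt_pair _ (fun (z : V × V) x => Up G r z.1 x)
        (x7_cnt_pair _ (fun _ x => Up G r d.1 x) (dn d.2) (fun _ _ => up d.1))
        (fun z _ => up z.1)) (fun z _ => up z.2)
    · rintro y ⟨hy, rfl⟩
      exact ⟨⟨⟨hy.va, hy.bc⟩, hy.va'⟩, hy.ab'⟩
    · rintro y y' ⟨hy, hd⟩ ⟨hy', hd'⟩ he
      have h1 : (y.b, y.a) = (y'.b, y'.a) := hd.trans hd'.symm
      cases y
      cases y'
      simp_all
  | 1 =>
    intro _
    refine x7_cnt_inj _ (fun z : ((V × V) × V) × V =>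
      ((Up G r z.1.1.1 d.2 ∧ Up G r z.1.1.2 z.1.1.1) ∧ Up G r z.1.1.2 z.1.2) ∧ Up G r z.1.2 z.2)
      (fun y : X7T V => (((y.a, y.v), y.a'), y.b')) ?_ ?_ ?_
    · exact x7_cnt_pair _ _ (x7_cnt_pair _ (fun (z : V × V) x => Up G r z.2 x)
        (x7_cnt_pair _ (fun y x => Up G r x y) (dn d.2) (fun y _ => dn y))
        (fun z _ => up z.2)) (fun z _ => up z.2)
    · rintro y ⟨hy, rfl⟩
      exact ⟨⟨⟨hy.ab, hy.va⟩, hy.va'⟩, hy.ab'⟩
    · rintro y y' ⟨hy, hd⟩ ⟨hy', hd'⟩ he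
      have h1 : (y.c, y.b) = (y'.c, y'.b) := hd.trans hd'.symm
      cases y
      cases y'
      simp_all
  | 2 =>
    intro _
    refine x7_cnt_inj _ (fun z : ((V × V) × V) × V =>
      ((Up G r d.1 z.1.1.1 ∧ Up G r z.1.1.1 z.1.1.2) ∧ Up G r d.2 z.1.2) ∧ Up G r z.1.2 z.2)
      (fun y : X7T V => (((y.b, y.c), y.a'), y.b')) ?_ ?_ ?_
    · exact x7_cnt_pair _ _ (x7_cnt_pair _ (fun (_ : V × V) x => Up G r d.2 x)
        (x7_cnt_pair _ (fun y x => Up G r y x) (up d.1) (fun y _ => up y))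
        (fun _ _ => up d.2)) (fun z _ => up z.2)
    · rintro y ⟨hy, rfl⟩
      exact ⟨⟨⟨hy.ab, hy.bc⟩, hy.va'⟩, hy.ab'⟩
    · rintro y y' ⟨hy, hd⟩ ⟨hy', hd'⟩ he
      have h1 : (y.a, y.v) = (y'.a, y'.v) := hd.trans hd'.symm
      cases y
      cases y'
      simp_all
  | 3 =>
    intro _
    refine x7_cnt_inj _ (fun z : ((V × V) × V) × V =>
      ((Up G r z.1.1.1 d.1 ∧ Up G r z.1.1.2 z.1.1.1) ∧ Up G r z.1.1.2 z.1.2) ∧ Up G r z.1.2 z.2)
      (fun y : X7T V => (((y.a, y.v), y.a'), y.b')) ?_ ?_ ?_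
    · exact x7_cnt_pair _ _ (x7_cnt_pair _ (fun (z : V × V) x => Up G r z.2 x)
        (x7_cnt_pair _ (fun y x => Up G r x y) (dn d.1) (fun y _ => dn y))
        (fun z _ => up z.2)) (fun z _ => up z.2)
    · rintro y ⟨hy, rfl⟩
      exact ⟨⟨⟨hy.ab, hy.va⟩, hy.va'⟩, hy.ab'⟩
    · rintro y y' ⟨hy, hd⟩ ⟨hy', hd'⟩ he
      have h1 : (y.b, y.c) = (y'.b, y'.c) := hd.trans hd'.symm
      cases y
      cases y'
      simp_all
  | 4 =>
    intro _
    refine x7_cnt_inj _ (fun z : ((V × V) × V) × V =>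
      ((Up G r d.2 z.1.1.1 ∧ Up G r z.1.1.1 z.1.1.2) ∧ Up G r z.1.1.2 z.1.2) ∧ Up G r d.1 z.2)
      (fun y : X7T V => (((y.a, y.b), y.c), y.b')) ?_ ?_ ?_
    · exact x7_cnt_pair _ (fun _ x => Up G r d.1 x) (x7_cnt_pair _
        (fun (z : V × V) x => Up G r z.2 x)
        (x7_cnt_pair _ (fun y x => Up G r y x) (up d.2) (fun y _ => up y))
        (fun z _ => up z.2)) (fun _ _ => up d.1)
    · rintro y ⟨hy, rfl⟩
      exact ⟨⟨⟨hy.va, hy.ab⟩, hy.bc⟩, hy.ab'⟩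
    · rintro y y' ⟨hy, hd⟩ ⟨hy', hd'⟩ he
      have h1 : (y.a', y.v) = (y'.a', y'.v) := hd.trans hd'.symm
      cases y
      cases y'
      simp_all
  | 5 =>
    intro _
    refine x7_cnt_inj _ (fun z : ((V × V) × V) × V =>
      ((Up G r z.1.1.1 d.2 ∧ Up G r z.1.1.1 z.1.1.2) ∧ Up G r z.1.1.2 z.1.2) ∧ Up G r z.1.2 z.2)
      (fun y : X7T V => (((y.v, y.a), y.b), y.c)) ?_ ?_ ?_
    · exact x7_cnt_pair _ _ (x7_cnt_pair _ (fun (z : V × V) x => Up G r z.2 x)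
        (x7_cnt_pair _ (fun y x => Up G r y x) (dn d.2) (fun y _ => up y))
        (fun z _ => up z.2)) (fun z _ => up z.2)
    · rintro y ⟨hy, rfl⟩
      exact ⟨⟨⟨hy.va', hy.va⟩, hy.ab⟩, hy.bc⟩
    · rintro y y' ⟨hy, hd⟩ ⟨hy', hd'⟩ he
      have h1 : (y.b', y.a') = (y'.b', y'.a') := hd.trans hd'.symm
      cases y
      cases y'
      simp_all

theorem x7_num {k K : ℕ} (h1 : 1 ≤ k) (h2 : 10 ^ 20 * k ^ 2 ≤ K) :
    (∑ j : Fin 6, (x7B k K j : ℝ)) * (6 ^ 6 / (K : ℝ) ^ 3) ≤ 1 / 64 := by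
  have hk : (1 : ℝ) ≤ k := by exact_mod_cast h1
  have hK : (10 : ℝ) ^ 20 * (k : ℝ) ^ 2 ≤ K := by exact_mod_cast h2
  have hkk : (1 : ℝ) ≤ (k : ℝ) ^ 2 := one_le_pow₀ hk
  have hK0 : (0 : ℝ) < K := by nlinarith
  have hsum : ∑ j : Fin 6, (x7B k K j : ℝ) =
      2 * ((K : ℝ) * k ^ 3 + K ^ 2 * k ^ 2 + k ^ 4) := by
    simp only [Fin.sum_univ_six]
    simp only [x7B]
    push_cast
    ring
  rw [hsum, ← mul_div_assoc, div_le_iff₀ (by positivity)]
  have e1 : (k : ℝ) ^ 2 ≤ K / 10 ^ 20 := by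
    rw [le_div_iff₀ (by positivity)]
    linarith
  have hkK : (k : ℝ) ≤ K := by nlinarith
  have t2 : (K : ℝ) ^ 2 * k ^ 2 ≤ K ^ 3 / 10 ^ 20 := by
    calc (K : ℝ) ^ 2 * k ^ 2 ≤ K ^ 2 * (K / 10 ^ 20) := by gcongr
      _ = _ := by ring
  have t1 : (K : ℝ) * k ^ 3 ≤ K ^ 3 / 10 ^ 20 := by
    calc (K : ℝ) * (k : ℝ) ^ 3 = (K : ℝ) * (k : ℝ) * (k : ℝ) ^ 2 := by ring
      _ ≤ (K : ℝ) * (K : ℝ) * (k : ℝ) ^ 2 := by gcongr
      _ = (K : ℝ) ^ 2 * (k : ℝ) ^ 2 := by ring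
      _ ≤ _ := t2
  have t3 : (k : ℝ) ^ 4 ≤ K ^ 3 / 10 ^ 20 := by
    calc (k : ℝ) ^ 4 = (k : ℝ) * (k : ℝ) * (k : ℝ) ^ 2 := by ring
      _ ≤ (K : ℝ) * (K : ℝ) * (k : ℝ) ^ 2 := by gcongr
      _ = (K : ℝ) ^ 2 * (k : ℝ) ^ 2 := by ring
      _ ≤ _ := t2
  have hK3 : (0 : ℝ) < K ^ 3 := by positivity
  nlinarith

theorem x7_fam {V : Type} [Fintype V] (G : SimpleGraph V) (r : V → ℕ) {k K : ℕ}
    (h : Hyp G r k K) : SmallFam G K (fun q =>
      ∀ v a b c a' b', Lift2 G r q v a b c → Lift G r q v a' b' → a = a') := by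
  classical
  have hK : 0 < K := by
    have h1 := h.big
    have h2 : 0 < 10 ^ 20 * k ^ 2 := by
      have := h.one
      positivity
    omega
  have hne : ∀ {u w : V}, Up G r u w → u ≠ w := by
    rintro u w hu rfl
    exact lt_irrefl _ hu.2
  refine SmallFam.mono (mkFam G r hK (X7ok G r) (m := 6) (c := 3) (by norm_num) x7role x7con
    ?_ ?_ ?_ (fun j => (x7B k K j : ℝ)) ?_ (x7_num h.one h.big)) ?_
  · intro y hy j
    match j with
    | 0 => exact hy.ab.1.symm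
    | 1 => exact hy.bc.1.symm
    | 2 => exact hy.va.1.symm
    | 3 => exact hy.bc.1
    | 4 => exact hy.va'.1.symm
    | 5 => exact hy.ab'.1.symm
  · intro y hy l l' hl he
    have e01 : (y.b, y.a) ≠ (y.a, y.v) := fun e => hne hy.va (congrArg Prod.snd e).symm
    have e02 : (y.b, y.a) ≠ (y.a', y.v) := fun e => hne hy.va (congrArg Prod.snd e).symm
    have e12 : (y.a, y.v) ≠ (y.a', y.v) := fun e => hy.ne (congrArg Prod.fst e)
    match l, l' with
    | 0, 0 => exact hl rfl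
    | 1, 1 => exact hl rfl
    | 2, 2 => exact hl rfl
    | 0, 1 => exact e01 he
    | 0, 2 => exact e02 he
    | 1, 2 => exact e12 he
    | 1, 0 => exact e01 he.symm
    | 2, 0 => exact e02 he.symm
    | 2, 1 => exact e12 he.symm
  · intro y hy l l' _
    match l with
    | 0 => exact hy.ab.2
    | 1 => exact hy.va.2.trans (hy.ab.2.trans hy.bc.2)
    | 2 => exact hy.va'.2
  · intro j d
    exact_mod_cast x7_count G r h j d
  · intro q _ hq v a b c a' b' h1 h2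
    by_contra hne'
    obtain ⟨l, hl⟩ := hq ⟨v, a, b, c, a', b'⟩ ⟨h1.1, h1.2.1.1, h1.2.1.2.1, h2.1, h2.2.1, hne'⟩
    match l with
    | 0 => exact hl h1.2.1.2.2
    | 1 => exact hl h1.2.2
    | 2 => exact hl h2.2.2

end Pool.Agent.H95.AEC
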