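import Pool.Agent.H95.AEC.Combine
import Pool.Agent.H95.AEC.X12
import Pool.Agent.H95.AEC.X34
import Pool.Agent.H95.AEC.X5
import Pool.Agent.H95.AEC.X6
import Pool.Agent.H95.AEC.X7
import Pool.Agent.H95.AEC.CycFam
import Pool.Agent.H95.AEC.CycExt
import Pool.Agent.H95.AEC.Shape

/-!
# AEC-MAIN
-/

set_option autoImplicit false

open Finset

namespace Pool.Agent.H95.AEC

/-- main statement with ranking -/
theorem main_rank {V : Type} [Fintype V] (G : SimpleGraph V) (r : V → ℕ) {k K : ℕ}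
    (h : Hyp G r k K) :
    ∃ c : V → V → Option (Fin K), (∀ u v, c u v = c v u) ∧
      (∀ u v w, G.Adj u v → G.Adj u w → v ≠ w → c u v ≠ c u w) ∧
      ∀ (u : V) (p : G.Walk u u), p.IsCycle →
        3 ≤ (p.darts.map (fun d => c d.toProd.1 d.toProd.2)).toFinset.card := by
  classical
  have hk1 := h.one
  have hbig := h.big
  have hK : 0 < K := by
    have : 0 < 10 ^ 20 * k ^ 2 := by positivity
    omega
  obtain ⟨q, hq, hΦ⟩ := combine G hK h.deg' ![_, _, _, _, _, _, _, _] (by
    intro j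
    fin_cases j
    · exact x1_fam G r h
    · exact x2_fam G r h
    · exact x3_fam G r h
    · exact x4_fam G r h
    · exact x5_fam G r h
    · exact x6_fam G r h
    · exact x7_fam G r h
    · exact cyc_fam G r h)
  have hg : Good G r q := ⟨hq, hΦ 0, hΦ 1, hΦ 2, hΦ 3, hΦ 4, hΦ 5, hΦ 6⟩
  have hcy := hΦ 7
  have hsym : ∀ u v, ccol G r q u v = ccol G r q v u := by
    intro u v
    by_cases huv : u = v
    · rw [huv]
    · exact ccol_symm G r h.hr q u v huv
  have hprop := ccol_proper G r h.hr q hg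
  refine ⟨ccol G r q, hsym, hprop, ?_⟩
  intro u p hp
  by_contra h3
  obtain ⟨n, x, α, β, hx, hadj, hαβ, hα, hc⟩ := cyc_extract G (ccol G r q)
    (fun u v _ => hsym u v) hprop u p hp (not_le.mp h3) none
  obtain ⟨inf, t, hv, hcon⟩ := shape_of_cycle G r h.hr q hg x hx hadj α β hαβ hα hc
  obtain ⟨p, hp, hne⟩ := hcy n x inf t hx hv
  exact hne (hcon p hp)

end Pool.Agent.H95.AEC
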