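import Pool.Agent.H95.AEC.Fam

/-!
# AEC-MKFAM: families of patterns given by tuples

A family of patterns indexed by the tuples `y : T` with `ok y`; `role j y` (`j : Fin m`) are the darts of
the pattern, and the constraints are `role (con l).1 y ~ role (con l).2 y`, `l : Fin c`.
Proof: `ι = {y // ok y}`, `S = univ.image (fun j => role j y)`, `C = univ.image (fun l => (role (con l).1 y, role (con l).2 y))`,
`rk x = M - r x.2` with `M = univ.sup r` (`r x.2 ≤ M`, so `dec` is clear). `C.card = c` by `hinj`, `S.card ≤ m`,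
so the weight is `≤ 6^m / K^c`. For a dart `d` the number of `y` with `d ∈ S` is at most `∑ j, B j` by `hcount`.
-/

set_option autoImplicit false

open Finset

namespace Pool.Agent.H95.AEC

open Classical in
/-- MKFAM -/
theorem mkFam {V : Type} [Fintype V] (G : SimpleGraph V) (r : V → ℕ) {K : ℕ} (hK : 0 < K)
    {T : Type} [Fintype T] (ok : T → Prop) {m c : ℕ} (hm : 0 < m) (role : Fin m → T → V × V)
    (con : Fin c → Fin m × Fin m)
    (hadj : ∀ y, ok y → ∀ j, G.Adj (role j y).1 (role j y).2)
    (hinj : ∀ y, ok y → ∀ l l', l ≠ l' → role (con l).1 y ≠ role (con l').1 y)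
    (hdec : ∀ y, ok y → ∀ l l', role (con l).2 y = role (con l').1 y →
      r (role (con l).1 y).2 < r (role (con l).2 y).2)
    (B : Fin m → ℝ)
    (hcount : ∀ j d, ((univ.filter (fun y => ok y ∧ role j y = d)).card : ℝ) ≤ B j)
    (hB : (∑ j, B j) * (6 ^ m / (K : ℝ) ^ c) ≤ 1 / 64) :
    SmallFam G K (fun q => ∀ y, ok y → ∃ l, q (role (con l).1 y).1 (role (con l).1 y).2 ≠
      q (role (con l).2 y).1 (role (con l).2 y).2) := by
  let M := univ.sup r
  have hM : ∀ v, r v ≤ M := fun v => le_sup (mem_univ v)
  let P : {y : T // ok y} → DPat G := fun y =>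
    { S := univ.image (fun j => role j y.1)
      C := univ.image (fun l => (role (con l).1 y.1, role (con l).2 y.1))
      rk := fun x => M - r x.2
      ne := ⟨role ⟨0, hm⟩ y.1, mem_image_of_mem _ (mem_univ _)⟩
      adj := by
        intro x hx
        obtain ⟨j, -, rfl⟩ := mem_image.mp hx
        exact hadj y.1 y.2 j
      mem₁ := by
        intro p hp
        obtain ⟨l, -, rfl⟩ := mem_image.mp hp
        exact mem_image_of_mem _ (mem_univ _)
      mem₂ := by
        intro p hp
        obtain ⟨l, -, rfl⟩ := mem_image.mp hp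
        exact mem_image_of_mem (fun j => role j y.1) (mem_univ _)
      inj := by
        intro p hp p' hp' h
        obtain ⟨l, -, rfl⟩ := mem_image.mp hp
        obtain ⟨l', -, rfl⟩ := mem_image.mp hp'
        by_cases hl : l = l'
        · rw [hl]
        · exact absurd h (hinj y.1 y.2 l l' hl)
      dec := by
        intro p hp p' hp' h
        obtain ⟨l, -, rfl⟩ := mem_image.mp hp
        obtain ⟨l', -, rfl⟩ := mem_image.mp hp'
        have h1 := hdec y.1 y.2 l l' h
        have h2 := hM (role (con l).2 y.1).2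
        show M - r (role (con l).2 y.1).2 < M - r (role (con l).1 y.1).2
        omega }
  have hK' : (0 : ℝ) < K := by exact_mod_cast hK
  have hwt : ∀ y, (P y).wt K ≤ 6 ^ m / (K : ℝ) ^ c := by
    intro y
    have h1 : (P y).S.card ≤ m := by
      refine le_trans card_image_le ?_
      rw [card_univ, Fintype.card_fin]
    have h2 : (P y).C.card = c := by
      show (univ.image (fun l => (role (con l).1 y.1, role (con l).2 y.1))).card = c
      rw [card_image_of_injective, card_univ, Fintype.card_fin]
      intro l l' h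
      by_contra hl
      exact hinj y.1 y.2 l l' hl (congrArg Prod.fst h)
    unfold DPat.wt
    rw [h2]
    refine div_le_div_of_nonneg_right ?_ (by positivity)
    exact pow_le_pow_right₀ (by norm_num) h1
  refine ⟨{y : T // ok y}, inferInstance, P, ?_, ?_⟩
  · intro d
    have h1 : ∑ i with d ∈ (P i).S, (P i).wt K ≤
        ∑ i : {y : T // ok y} with d ∈ (P i).S, (6 ^ m / (K : ℝ) ^ c) :=
      sum_le_sum (fun i _ => hwt i)
    refine le_trans h1 ?_
    rw [sum_const, nsmul_eq_mul]
    refine le_trans (mul_le_mul_of_nonneg_right ?_ (by positivity)) hB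
    -- counting
    have h2 : (univ.filter (fun i : {y : T // ok y} => d ∈ (P i).S)).card ≤
        ∑ j : Fin m, (univ.filter (fun y => ok y ∧ role j y = d)).card := by
      refine le_trans ?_ card_biUnion_le
      refine card_le_card_of_injOn (fun i : {y : T // ok y} => i.1) ?_ ?_
      · intro i hi
        simp only [coe_filter, mem_univ, true_and, Set.mem_setOf_eq] at hi
        obtain ⟨j, -, hj⟩ := mem_image.mp hi
        simp only [coe_biUnion, Set.mem_iUnion, coe_filter, mem_univ, true_and,
          Set.mem_setOf_eq]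
        exact ⟨j, by simp, i.2, hj⟩
      · intro i _ i' _ h
        exact Subtype.ext h
    have h3 : ((univ.filter (fun i : {y : T // ok y} => d ∈ (P i).S)).card : ℝ) ≤
        ∑ j : Fin m, ((univ.filter (fun y => ok y ∧ role j y = d)).card : ℝ) := by
      exact_mod_cast h2
    exact le_trans h3 (sum_le_sum fun j _ => hcount j d)
  · intro q _ hav y hy
    obtain ⟨p, hp, hne⟩ := hav ⟨y, hy⟩
    obtain ⟨l, -, rfl⟩ := mem_image.mp hp
    exact ⟨l, hne⟩

theorem SmallFam.mono {V : Type} {G : SimpleGraph V} {K : ℕ} {Φ Ψ : (V → V → Fin K) → Prop}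
    (h : SmallFam G K Φ) (hi : ∀ q : V → V → Fin K,
      (∀ v u w, G.Adj v u → G.Adj v w → q v u = q v w → u = w) → Φ q → Ψ q) : SmallFam G K Ψ := by
  obtain ⟨ι, _, P, h1, h2⟩ := h
  exact ⟨ι, _, P, h1, fun q hq h => hi q hq (h2 q hq h)⟩

end Pool.Agent.H95.AEC
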