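import Pool.Agent.H95.AEC.Defs

/-!
# AEC-PROPER: the colouring `ccol` is symmetric and proper if `Good`

Case analysis for two edges at `v`.
Two down-edges `w₁ → v`, `w₂ → v`: both `none`: `Lift v a b`, `Lift v a' b'`, x5 gives `a = a'`, x1 at `a`
gives `b = b'`, so `q v w₁ = q a b = q v w₂`; both lifted: `q v a = q v a'` gives `a = a'` so
`q v w₁ = q a v = q v w₂`; one lifted one plain: `q v a = q v w₂` gives `a = w₂`, but `a` is above `v`;
both plain: `inj`.
Down-edge `w → v` and up-edge `v → a`: both `none`: `Lift2 w v a' b'` and `Lift2 v a b c`: x7 gives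
`a = a'`, `q a v = q b' a` and `q a v = q b c`; if `b ≠ b'` this contradicts x3 for `Lift a b c`,
`Up a b'`; if `b = b'` then `q b c = q b a`, `c = a`, impossible. `w → v` lifted through `a'`, `v → a` lifted
through `b`: x4. `w → v` lifted, `v → a` plain: x2. `w → v` plain and `v → a` lifted through `b`: not
`Lift2 w v a b`. Both plain: not `Lift w v a`.
Two up-edges `v → a`, `v → a'`: both `none`: x6; both lifted: x5; one lifted: x3; plain: x1.
In all cases one `none` and the other not: different.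
-/

set_option autoImplicit false

open Finset

namespace Pool.Agent.H95.AEC

theorem ccol_symm {V : Type} (G : SimpleGraph V) (r : V → ℕ) (hr : Function.Injective r) {K : ℕ}
    (q : V → V → Fin K) (u v : V) (h : u ≠ v) : ccol G r q u v = ccol G r q v u := by
  have h1 : r u ≠ r v := fun e => h (hr e)
  unfold ccol
  split_ifs with h2 h3 h3
  · omega
  · rfl
  · rfl
  · omega

/-- the three possible values of `fcol` -/
theorem fcol_cases {V : Type} (G : SimpleGraph V) (r : V → ℕ) {K : ℕ} (q : V → V → Fin K)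
    (w v : V) :
    (fcol G r q w v = none ∧ ∃ a b, Lift2 G r q w v a b) ∨
      (∃ a, fcol G r q w v = some (q v a) ∧ Lift G r q w v a ∧ ∀ a b, ¬ Lift2 G r q w v a b) ∨
      (fcol G r q w v = some (q v w) ∧ (∀ a, ¬ Lift G r q w v a) ∧
        ∀ a b, ¬ Lift2 G r q w v a b) := by
  unfold fcol
  split_ifs with h1 h2
  · exact Or.inl ⟨rfl, h1⟩
  · refine Or.inr (Or.inl ⟨_, rfl, h2.choose_spec, ?_⟩)
    intro a b h
    exact h1 ⟨a, b, h⟩
  · refine Or.inr (Or.inr ⟨rfl, fun a h => h2 ⟨a, h⟩, ?_⟩)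
    intro a b h
    exact h1 ⟨a, b, h⟩

section

variable {V : Type} {G : SimpleGraph V} {r : V → ℕ} {K : ℕ} {q : V → V → Fin K}

theorem down_down (hg : Good G r q) {v w w' : V} (h : Up G r w v) (h' : Up G r w' v)
    (hne : w ≠ w') : fcol G r q w v ≠ fcol G r q w' v := by
  intro he
  have hv : G.Adj v w := h.1.symm
  have hv' : G.Adj v w' := h'.1.symm
  rcases fcol_cases G r q w v with ⟨e1, a, b, -, hL, hq⟩ | ⟨a, e1, hL, -⟩ | ⟨e1, -, -⟩ <;>
    rcases fcol_cases G r q w' v with ⟨e2, a', b', -, hL', hq'⟩ | ⟨a', e2, hL', -⟩ | ⟨e2, -, -⟩ <;>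
    rw [e1, e2] at he
  · have haa : a = a' := hg.x5 v a b a' b' hL hL'
    subst haa
    have hbb : b = b' := by
      by_contra hbb
      exact hg.x1 a b b' hL.2.1 hL'.2.1 hbb (hL.2.2.symm.trans hL'.2.2)
    subst hbb
    exact hne (hg.inj v w w' hv hv' (hq.trans hq'.symm))
  · cases he
  · cases he
  · cases he
  · have he' := Option.some.inj he
    have haa : a = a' := hg.inj v a a' hL.2.1.1 hL'.2.1.1 he'
    subst haa
    exact hne (hg.inj v w w' hv hv' (hL.2.2.trans hL'.2.2.symm))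
  · have he' := Option.some.inj he
    have haa : a = w' := hg.inj v a w' hL.2.1.1 hv' he'
    have h1 := hL.2.1.2
    have h2 := h'.2
    rw [haa] at h1
    omega
  · cases he
  · have he' := Option.some.inj he
    have haa : w = a' := hg.inj v w a' hv hL'.2.1.1 he'
    have h1 := hL'.2.1.2
    have h2 := h.2
    rw [← haa] at h1
    omega
  · exact hne (hg.inj v w w' hv hv' (Option.some.inj he))

theorem down_up (hg : Good G r q) {v w a : V} (h : Up G r w v) (h' : Up G r v a) :
    fcol G r q w v ≠ fcol G r q v a := by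
  intro he
  rcases fcol_cases G r q w v with ⟨e1, a', b', -, hL, hq⟩ | ⟨a', e1, hL, h2⟩ | ⟨e1, h1, h2⟩ <;>
    rcases fcol_cases G r q v a with ⟨e2, b, c, hL'⟩ | ⟨b, e2, hL', -⟩ | ⟨e2, h1', h2'⟩ <;>
    rw [e1, e2] at he
  · have haa : a = a' := hg.x7 v a b c a' b' hL' hL
    subst haa
    -- q a v = q b' a, q a v = q b c
    obtain ⟨-, hL2, hq2⟩ := hL'
    by_cases hbb : b = b'
    · subst hbb
      have h3 : q b c = q b a := hq2.symm.trans hL.2.2
      have h4 : c = a := hg.inj b c a hL2.2.1.1 hL2.1.1.symm h3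
      have h5 := hL2.1.2
      have h6 := hL2.2.1.2
      rw [h4] at h6
      omega
    · exact hg.x3 a b c b' hL2 hL.2.1 hbb (hq2.symm.trans hL.2.2)
  · cases he
  · cases he
  · cases he
  · exact hg.x4 v a' a b hL.2.1 hL' (Option.some.inj he)
  · exact hg.x2 v a' a hL.2.1 h' (Option.some.inj he)
  · cases he
  · exact h2 a b ⟨h, hL', Option.some.inj he⟩
  · exact h1 a ⟨h, h', Option.some.inj he⟩

theorem up_up (hg : Good G r q) {v a a' : V} (h : Up G r v a) (h' : Up G r v a')
    (hne : a ≠ a') : fcol G r q v a ≠ fcol G r q v a' := by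
  intro he
  rcases fcol_cases G r q v a with ⟨e1, b, c, hL⟩ | ⟨b, e1, hL, -⟩ | ⟨e1, -, -⟩ <;>
    rcases fcol_cases G r q v a' with ⟨e2, b', c', hL'⟩ | ⟨b', e2, hL', -⟩ | ⟨e2, -, -⟩ <;>
    rw [e1, e2] at he
  · exact hne (hg.x6 v a b c a' b' c' hL hL')
  · cases he
  · cases he
  · cases he
  · exact hne (hg.x5 v a b a' b' hL hL')
  · exact hg.x3 v a b a' hL h' hne (Option.some.inj he)
  · cases he
  · exact hg.x3 v a' b' a hL' h (Ne.symm hne) (Option.some.inj he).symm
  · exact hg.x1 v a a' h h' hne (Option.some.inj he)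

end

/-- PROPER -/
theorem ccol_proper {V : Type} (G : SimpleGraph V) (r : V → ℕ) (hr : Function.Injective r) {K : ℕ}
    (q : V → V → Fin K) (hg : Good G r q) (u v w : V) (huv : G.Adj u v) (huw : G.Adj u w)
    (hvw : v ≠ w) : ccol G r q u v ≠ ccol G r q u w := by
  have h1 : r u ≠ r v := fun e => huv.ne (hr e)
  have h2 : r u ≠ r w := fun e => huw.ne (hr e)
  unfold ccol
  split_ifs with h3 h4 h4
  · exact up_up hg ⟨huv, h3⟩ ⟨huw, h4⟩ hvw
  · exact (down_up hg ⟨huw.symm, by omega⟩ ⟨huv, h3⟩).symm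
  · exact down_up hg ⟨huv.symm, by omega⟩ ⟨huw, h4⟩
  · exact down_down hg ⟨huv.symm, by omega⟩ ⟨huw.symm, by omega⟩ hvw

end Pool.Agent.H95.AEC
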